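import Pool.Agent.Lib.MP_caab05_ag.Defs

namespace Pool.Agent.Caab

open Finset Polynomial

/-- change of basis in a Hankel determinant -/
theorem hank_basis {K : Type*} [CommRing K] (Λ : K[X] →ₗ[K] K) (n : ℕ) (Q Q' : Fin n → K[X])
    (hQ : ∀ i, (Q i).Monic) (hd : ∀ i, (Q i).natDegree = i)
    (hQ' : ∀ i, (Q' i).Monic) (hd' : ∀ i, (Q' i).natDegree = i) :
    (Matrix.of fun i j : Fin n => Λ (Q i * Q' j)).det = hank (fun l => Λ (X ^ l)) n := by
  have hA := Matrix.det_matrixOfPolynomials Q hd hQ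
  have hA' := Matrix.det_matrixOfPolynomials Q' hd' hQ'
  have hexp : ∀ (P : Fin n → K[X]), (∀ i, (P i).natDegree = i) → ∀ i,
      P i = ∑ a : Fin n, C ((P i).coeff a) * X ^ (a : ℕ) := by
    intro P hP i
    have h1 : (P i).natDegree < n := by rw [hP i]; exact i.2
    conv_lhs => rw [(P i).as_sum_range' n h1]
    rw [Finset.sum_range]
    simp [C_mul_X_pow_eq_monomial]
  have key : (Matrix.of fun i j : Fin n => Λ (Q i * Q' j)) =
      (Matrix.of fun i j : Fin n => (Q j).coeff i).transpose *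
        (Matrix.of fun i j : Fin n => Λ (X ^ ((i : ℕ) + j))) *
        (Matrix.of fun i j : Fin n => (Q' j).coeff i) := by
    ext i j
    simp only [Matrix.mul_apply, Matrix.of_apply, Matrix.transpose_apply]
    conv_lhs => rw [hexp Q hd i, hexp Q' hd' j]
    rw [Finset.sum_mul_sum, map_sum]
    simp only [map_sum, Finset.sum_mul]
    rw [Finset.sum_comm]
    refine Finset.sum_congr rfl fun a _ => Finset.sum_congr rfl fun b _ => ?_
    have : C ((Q i).coeff b) * X ^ (b : ℕ) * (C ((Q' j).coeff a) * X ^ (a : ℕ)) =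
        ((Q i).coeff b * (Q' j).coeff a) • (X ^ ((b : ℕ) + a) : K[X]) := by
      rw [smul_eq_C_mul, map_mul, pow_add]; ring
    rw [this, map_smul, smul_eq_mul]; ring
  rw [key, Matrix.det_mul, Matrix.det_mul, Matrix.det_transpose, hA, hA', hank]
  simp

end Pool.Agent.Caab
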