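import Pool.Agent.Lib.MP_caab05_ag.Defs
import Pool.Agent.Lib.MP_caab05_ag.Basis

namespace Pool.Agent.Caab

open Finset Filter Topology

namespace ArchDet

open Matrix Polynomial

lemma psd_entry {n : ℕ} {N : Matrix (Fin n) (Fin n) ℝ} (hN : N.PosSemidef) (i j : Fin n) :
    N i j ^ 2 ≤ N i i * N j j := by
  have h := (hN.submatrix ![i, j]).det_nonneg
  have e : N j i = N i j := by simpa using hN.1.apply i j
  rw [det_fin_two] at h
  simp only [submatrix_apply, cons_val_zero, cons_val_one, e] at h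
  nlinarith

lemma psd_det_le {n : ℕ} {N : Matrix (Fin n) (Fin n) ℝ} (hN : N.PosSemidef) :
    N.det ≤ (n.factorial : ℝ) * ∏ i, N i i := by
  have h0 : ∀ i, 0 ≤ N i i := fun i => hN.diag_nonneg
  have hP : 0 ≤ ∏ i, N i i := prod_nonneg fun i _ => h0 i
  rw [det_apply']
  have : ∀ σ : Equiv.Perm (Fin n),
      ((Equiv.Perm.sign σ : ℤ) : ℝ) * ∏ i, N (σ i) i ≤ ∏ i, N i i := fun σ => by
    have h1 : (∏ i, N (σ i) i) ^ 2 ≤ (∏ i, N i i) ^ 2 := by
      rw [← prod_pow, sq (∏ i, N i i)]
      nth_rewrite 1 [← Equiv.prod_comp σ fun i => N i i]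
      rw [← prod_mul_distrib]
      exact prod_le_prod (fun i _ => sq_nonneg _) fun i _ => psd_entry hN _ _
    have h2 := abs_le.1 (abs_le_of_sq_le_sq' h1 hP |> abs_le.2)
    rcases Int.units_eq_one_or (Equiv.Perm.sign σ) with h | h <;> rw [h] <;> simp <;> linarith [h2.1, h2.2]
  refine (sum_le_sum fun σ _ => this σ).trans ?_
  simp [Fintype.card_perm]

lemma det_compare {n : ℕ} {G G' : Matrix (Fin n) (Fin n) ℝ} (hG : G.PosSemidef)
    (hG' : G'.IsHermitian) (r : ℝ) (h : ∀ x, x ⬝ᵥ G *ᵥ x ≤ r * (x ⬝ᵥ G' *ᵥ x)) :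
    G.det ≤ (n.factorial : ℝ) * r ^ n * G'.det := by
  set P : Matrix (Fin n) (Fin n) ℝ := (hG'.eigenvectorUnitary : Matrix (Fin n) (Fin n) ℝ) with hP
  have hN := hG.conjTranspose_mul_mul_same P
  have hdet : (Pᴴ * G * P).det = G.det := by
    have : (Pᴴ * P).det = 1 := by
      rw [show Pᴴ * P = 1 from Unitary.coe_star_mul_self hG'.eigenvectorUnitary, det_one]
    rw [det_mul] at this
    rw [det_mul, det_mul]
    linear_combination G.det * this
  have hdiag : ∀ i, (Pᴴ * G * P) i i ≤ r * hG'.eigenvalues i := fun i => by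
    have e1 := hG'.eigenvalues_eq i
    have e2 := h (hG'.eigenvectorBasis i)
    have e3 : (Pᴴ * G * P) i i = (hG'.eigenvectorBasis i : Fin n → ℝ) ⬝ᵥ G *ᵥ
        (hG'.eigenvectorBasis i : Fin n → ℝ) := by
      rw [Matrix.mul_assoc]
      simp [hP, mul_apply, dotProduct, mulVec]
    rw [e3, e1]
    simpa using e2
  rw [← hdet, hG'.det_eq_prod_eigenvalues, mul_assoc (n.factorial : ℝ)]
  refine (psd_det_le hN).trans (mul_le_mul_of_nonneg_left ?_ (Nat.cast_nonneg _))
  refine (prod_le_prod (fun i _ => hN.diag_nonneg) fun i _ => hdiag i).trans ?_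
  simp [prod_mul_distrib]

lemma quad_hasSum {n : ℕ} {v : ℕ → ℝ} {f : Fin n → ℕ → ℝ} {G : Matrix (Fin n) (Fin n) ℝ}
    (h : ∀ i j, HasSum (fun k => v k * (f i k * f j k)) (G i j)) (x : Fin n → ℝ) :
    HasSum (fun k => v k * (∑ i, x i * f i k) ^ 2) (x ⬝ᵥ G *ᵥ x) := by
  have := hasSum_sum (s := univ) fun i _ =>
    (hasSum_sum (s := univ) fun j _ => (h i j).mul_right (x j)).mul_left (x i)
  simp only [dotProduct, mulVec]
  have e : (fun k => v k * (∑ i, x i * f i k) ^ 2) =
      fun k => ∑ i, x i * ∑ j, v k * (f i k * f j k) * x j := by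
    funext k
    rw [sq, sum_mul_sum, mul_sum]
    refine sum_congr rfl fun i _ => ?_
    rw [mul_sum, mul_sum]
    exact sum_congr rfl fun j _ => by ring
  rw [e]
  exact this

lemma quad_herm {n : ℕ} {v : ℕ → ℝ} {f : Fin n → ℕ → ℝ} {G : Matrix (Fin n) (Fin n) ℝ}
    (h : ∀ i j, HasSum (fun k => v k * (f i k * f j k)) (G i j)) : G.IsHermitian := by
  ext i j
  simp only [conjTranspose_apply, star_trivial]
  refine (h j i).unique ?_
  simpa only [mul_comm (f j _)] using h i j

/-- the summand of the Gauss series -/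
noncomputable def gs (a b d k : ℕ) : ℝ :=
  ((k + a).factorial : ℝ) * ((k + b).factorial : ℝ) / ((k.factorial : ℝ) * ((k + d).factorial : ℝ))

lemma gauss0 (a e : ℕ) : HasSum (gs a 0 (a + 0 + 2 + e))
    ((a.factorial : ℝ) * ((0 : ℕ).factorial : ℝ) * (e.factorial : ℝ) /
      (((0 + e + 1).factorial : ℝ) * ((a + e + 1).factorial : ℝ))) := by
  set t : ℕ → ℝ := fun k => ((k + a).factorial : ℝ) / ((e + 1) * ((k + a + e + 1).factorial : ℝ))
    with ht
  have h1 : ∀ k, gs a 0 (a + 0 + 2 + e) k = t k - t (k + 1) := fun k => by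
    simp only [gs, ht]
    rw [show k + (a + 0 + 2 + e) = (k + a + e + 1) + 1 by ring,
      show k + 1 + a + e + 1 = (k + a + e + 1) + 1 by ring, show k + 1 + a = (k + a) + 1 by ring,
      Nat.factorial_succ (k + a + e + 1), Nat.factorial_succ (k + a), add_zero]
    push_cast
    field_simp
    ring
  have h2 : Tendsto t atTop (𝓝 0) := by
    refine squeeze_zero (fun k => by simp only [ht]; positivity) (fun k => ?_)
      tendsto_one_div_add_atTop_nhds_zero_nat
    simp only [ht]
    rw [div_le_div_iff₀ (by positivity) (by positivity)]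
    have a1 : ((k + a + 1).factorial : ℝ) ≤ (k + a + e + 1).factorial := by
      exact_mod_cast Nat.factorial_le (by omega)
    rw [Nat.factorial_succ] at a1
    push_cast at a1
    have a2 : (0 : ℝ) ≤ (k + a).factorial := Nat.cast_nonneg _
    have a3 : (0 : ℝ) ≤ (k + a + e + 1).factorial := Nat.cast_nonneg _
    have a4 : (0 : ℝ) ≤ a := Nat.cast_nonneg _
    have a5 : (0 : ℝ) ≤ e := Nat.cast_nonneg _
    nlinarith [mul_nonneg a4 a2, mul_nonneg a5 a3]
  rw [hasSum_iff_tendsto_nat_of_nonneg (fun k => by unfold gs; positivity)]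
  simp only [h1, sum_range_sub']
  have h3 : t 0 = (a.factorial : ℝ) * ((0 : ℕ).factorial : ℝ) * (e.factorial : ℝ) /
      (((0 + e + 1).factorial : ℝ) * ((a + e + 1).factorial : ℝ)) := by
    simp only [ht, zero_add, Nat.factorial_zero, Nat.factorial_succ e]
    push_cast
    field_simp
  rw [← h3]
  simpa using h2.const_sub (t 0)

lemma gauss (a b : ℕ) : ∀ e : ℕ, HasSum (gs a b (a + b + 2 + e))
    ((a.factorial : ℝ) * (b.factorial : ℝ) * (e.factorial : ℝ) /
      (((b + e + 1).factorial : ℝ) * ((a + e + 1).factorial : ℝ))) := by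
  induction b with
  | zero => exact gauss0 a
  | succ b ih =>
    intro e
    have h := (ih e).sub ((ih (e + 1)).mul_left ((a : ℝ) + e + 2))
    have e1 : gs a (b + 1) (a + (b + 1) + 2 + e) =
        fun k => gs a b (a + b + 2 + e) k - ((a : ℝ) + e + 2) * gs a b (a + b + 2 + (e + 1)) k := by
      funext k
      simp only [gs]
      rw [show k + (a + (b + 1) + 2 + e) = (k + (a + b + 2 + e)) + 1 by ring,
        show k + (a + b + 2 + (e + 1)) = (k + (a + b + 2 + e)) + 1 by ring,
        show k + (b + 1) = (k + b) + 1 by ring,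
        Nat.factorial_succ (k + (a + b + 2 + e)), Nat.factorial_succ (k + b)]
      push_cast
      field_simp
      ring
    have e2 : (a.factorial : ℝ) * ((b + 1).factorial : ℝ) * (e.factorial : ℝ) /
        (((b + 1 + e + 1).factorial : ℝ) * ((a + e + 1).factorial : ℝ)) =
        (a.factorial : ℝ) * (b.factorial : ℝ) * (e.factorial : ℝ) /
          (((b + e + 1).factorial : ℝ) * ((a + e + 1).factorial : ℝ)) - ((a : ℝ) + e + 2) *
          ((a.factorial : ℝ) * (b.factorial : ℝ) * ((e + 1).factorial : ℝ) /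
            (((b + (e + 1) + 1).factorial : ℝ) * ((a + (e + 1) + 1).factorial : ℝ))) := by
      rw [show b + 1 + e + 1 = (b + e + 1) + 1 by ring, show b + (e + 1) + 1 = (b + e + 1) + 1 by ring,
        show a + (e + 1) + 1 = (a + e + 1) + 1 by ring, Nat.factorial_succ (b + e + 1),
        Nat.factorial_succ (a + e + 1), Nat.factorial_succ b, Nat.factorial_succ e]
      push_cast
      field_simp
      ring
    rw [e1, e2]
    exact h

lemma det_fact (m n : ℕ) : (Matrix.of fun i j : Fin n => ((m + i + j).factorial : ℝ)).det =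
    ∏ i ∈ range n, ((i.factorial : ℝ) * ((m + i).factorial : ℝ)) := by
  have e : (Matrix.of fun i j : Fin n => ((m + i + j).factorial : ℝ)) =
      Matrix.of fun i j : Fin n => ((m + i).factorial : ℝ) *
        (Matrix.of fun i j : Fin n => (ascPochhammer ℝ j).eval (((i : ℕ) : ℝ) + (m + 1))) i j := by
    ext i j
    simp only [of_apply]
    rw [← Nat.factorial_mul_ascFactorial, show ((i : ℕ) : ℝ) + (m + 1) = ((m + i + 1 : ℕ) : ℝ) by
      push_cast; ring, ascPochhammer_nat_eq_natCast_ascFactorial]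
    push_cast
    rfl
  rw [e, det_mul_column, ← det_eval_matrixOfPolynomials_eq_det_vandermonde
    (fun i : Fin n => ((i : ℕ) : ℝ) + (m + 1)) (fun j : Fin n => ascPochhammer ℝ j)
    (fun j => ascPochhammer_natDegree _ _) (fun j => monic_ascPochhammer _ _), det_vandermonde_add,
    prod_mul_distrib, mul_comm, Fin.prod_univ_eq_prod_range (fun i => ((m + i).factorial : ℝ))]
  congr 1
  cases n with
  | zero => simp
  | succ n =>
    rw [det_vandermonde_id_eq_superFactorial, ← Nat.prod_range_succ_factorial]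
    push_cast
    rfl

/-- the polynomial basis adapted to the comparison weight -/
noncomputable def QQ (m i : ℕ) : ℝ[X] := (ascPochhammer ℝ i).comp (X + C ((4 * m + 1 : ℕ) : ℝ))

lemma QQ_monic (m i : ℕ) : (QQ m i).Monic := (monic_ascPochhammer ℝ i).comp_X_add_C _

lemma QQ_deg (m i : ℕ) : (QQ m i).natDegree = i := by
  rw [QQ, natDegree_comp, ascPochhammer_natDegree, natDegree_X_add_C, mul_one]

lemma QQ_eval (m i k : ℕ) :
    ((k + 4 * m).factorial : ℝ) * (QQ m i).eval (k : ℝ) = ((k + (4 * m + i)).factorial : ℝ) := by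
  rw [QQ, eval_comp, eval_add, eval_X, eval_C, ← Nat.cast_add,
    ascPochhammer_nat_eq_natCast_ascFactorial, ← add_assoc k (4 * m) i,
    ← Nat.factorial_mul_ascFactorial (k + 4 * m) i]
  push_cast
  rfl

/-- the comparison Gram matrix -/
noncomputable def GG (m : ℕ) : Matrix (Fin (10 * m)) (Fin (10 * m)) ℝ := Matrix.of fun i j =>
  (((4 * m + i).factorial : ℝ) / ((25 * m - 1 - i).factorial : ℝ)) *
    ((((4 * m + j).factorial : ℝ) / ((25 * m - 1 - j).factorial : ℝ)) *
      ((21 * m - 2 - i - j).factorial : ℝ))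

lemma GG_hasSum (m : ℕ) (i j : Fin (10 * m)) :
    HasSum (fun k : ℕ => wpr m k * ((QQ m i).eval (k : ℝ) * (QQ m j).eval (k : ℝ))) (GG m i j) := by
  have hi := i.2
  have hj := j.2
  have h := gauss (4 * m + i) (4 * m + j) (21 * m - 2 - i - j)
  rw [show 4 * m + i + (4 * m + j) + 2 + (21 * m - 2 - i - j) = 29 * m by omega,
    show 4 * m + j + (21 * m - 2 - i - j) + 1 = 25 * m - 1 - i by omega,
    show 4 * m + i + (21 * m - 2 - i - j) + 1 = 25 * m - 1 - j by omega] at h
  have e1 : (fun k : ℕ => wpr m k * ((QQ m i).eval (k : ℝ) * (QQ m j).eval (k : ℝ))) =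
      gs (4 * m + i) (4 * m + j) (29 * m) := by
    funext k
    simp only [gs, wpr, ← QQ_eval]
    ring
  rw [e1, GG, of_apply]
  have e2 : ∀ a b c d e : ℝ, a / d * (b / e * c) = a * b * c / (d * e) := fun a b c d e => by ring
  rw [e2]
  exact h

lemma GG_det (m : ℕ) : (GG m).det = detpr m := by
  have h1 := det_mul_column (fun i : Fin (10 * m) =>
    ((4 * m + i).factorial : ℝ) / ((25 * m - 1 - i).factorial : ℝ))
    (Matrix.of fun i j : Fin (10 * m) =>
      (((4 * m + j).factorial : ℝ) / ((25 * m - 1 - j).factorial : ℝ)) *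
        ((21 * m - 2 - i - j).factorial : ℝ))
  have h2 := det_mul_row (fun j : Fin (10 * m) =>
    ((4 * m + j).factorial : ℝ) / ((25 * m - 1 - j).factorial : ℝ))
    (Matrix.of fun i j : Fin (10 * m) => ((21 * m - 2 - i - j).factorial : ℝ))
  have h3 : (Matrix.of fun i j : Fin (10 * m) => ((21 * m - 2 - i - j).factorial : ℝ)).det =
      (Matrix.of fun i j : Fin (10 * m) => ((m + i + j).factorial : ℝ)).det := by
    rw [← det_submatrix_equiv_self Fin.revPerm]
    congr 1
    ext i j
    have hi := i.2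
    have hj := j.2
    simp only [submatrix_apply, of_apply, Fin.revPerm_apply, Fin.val_rev]
    congr 2
    omega
  simp only [of_apply] at h1 h2
  rw [GG, h1, h2, h3, det_fact, detpr, Fin.prod_univ_eq_prod_range
    (fun i => ((4 * m + i).factorial : ℝ) / ((25 * m - 1 - i).factorial : ℝ)),
    ← prod_mul_distrib, ← prod_mul_distrib]
  exact prod_congr rfl fun i _ => by ring

/-- the moment functional -/
noncomputable def mom (M : ℕ → ℝ) : ℝ[X] →ₗ[ℝ] ℝ := (basisMonomials ℝ).constr ℝ M

lemma mom_pow (M : ℕ → ℝ) (l : ℕ) : mom M (X ^ l) = M l := by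
  have := (basisMonomials ℝ).constr_basis ℝ M l
  rw [X_pow_eq_monomial]
  exact this

lemma mom_hasSum {w M : ℕ → ℝ} {D : ℕ}
    (hM : ∀ l ≤ D, HasSum (fun k : ℕ => w k * (k : ℝ) ^ l) (M l)) (P : ℝ[X])
    (hP : P.natDegree ≤ D) : HasSum (fun k : ℕ => w k * P.eval (k : ℝ)) (mom M P) := by
  have h := hasSum_sum (s := range (D + 1)) fun l hl =>
    (hM l (by simpa [Nat.lt_succ_iff] using hl)).mul_left (P.coeff l)
  have e1 : (fun k : ℕ => w k * P.eval (k : ℝ)) =
      fun k : ℕ => ∑ l ∈ range (D + 1), P.coeff l * (w k * (k : ℝ) ^ l) := by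
    funext k
    rw [eval_eq_sum_range' (Nat.lt_succ_of_le hP), mul_sum]
    exact sum_congr rfl fun l _ => by ring
  have e2 : mom M P = ∑ l ∈ range (D + 1), P.coeff l * M l := by
    conv_lhs => rw [P.as_sum_range_C_mul_X_pow' (Nat.lt_succ_of_le hP)]
    rw [map_sum]
    exact sum_congr rfl fun l _ => by rw [← smul_eq_C_mul, map_smul, mom_pow, smul_eq_mul]
  rw [e1, e2]
  exact h

lemma exists_ne {n : ℕ} (x : Fin n → ℝ) (hx : x ≠ 0) :
    ∃ k : ℕ, ∑ i, x i * (k : ℝ) ^ (i : ℕ) ≠ 0 := by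
  by_contra h
  push Not at h
  set P : ℝ[X] := ∑ i : Fin n, monomial (i : ℕ) (x i) with hP
  have h0 : P = 0 := by
    refine P.eq_zero_of_infinite_isRoot ((Set.infinite_range_of_injective
      (Nat.cast_injective (R := ℝ))).mono ?_)
    rintro _ ⟨k, rfl⟩
    simp only [Set.mem_ofPred_eq, IsRoot.def, hP, eval_finsetSum, eval_monomial]
    exact h k
  refine hx (funext fun i => ?_)
  have := congrArg (fun Q : ℝ[X] => Q.coeff i) h0
  simpa [hP, finsetSum_coeff, coeff_monomial, Fin.val_inj] using this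

end ArchDet

open ArchDet Matrix Polynomial in
theorem arch_det (m : ℕ) (hm : 1 ≤ m) (w M : ℕ → ℝ) (r : ℝ) (hw : ∀ k, 0 < w k) (hle : ∀ k, w k ≤ r * wpr m k)
    (hM : ∀ l ≤ 20 * m - 2, HasSum (fun k : ℕ => w k * (k : ℝ) ^ l) (M l)) :
    0 < hank M (10 * m) ∧ hank M (10 * m) ≤ ((10 * m).factorial : ℝ) * r ^ (10 * m) * detpr m := by
  constructor
  · have h : ∀ i j : Fin (10 * m), HasSum (fun k : ℕ => w k * ((k : ℝ) ^ (i : ℕ) * (k : ℝ) ^ (j : ℕ)))
        ((Matrix.of fun i j : Fin (10 * m) => M (i + j)) i j) := fun i j => by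
      have hi := i.2
      have hj := j.2
      simpa only [pow_add, of_apply] using hM (i + j) (by omega)
    refine (PosDef.of_dotProduct_mulVec_pos (quad_herm h) fun x hx => ?_).det_pos
    obtain ⟨k, hk⟩ := exists_ne x hx
    exact lt_of_lt_of_le (mul_pos (hw k) (by positivity)) (le_hasSum (quad_hasSum h x) k
      fun k _ => mul_nonneg (hw k).le (sq_nonneg _))
  · have h : ∀ i j : Fin (10 * m),
        HasSum (fun k : ℕ => w k * ((QQ m i).eval (k : ℝ) * (QQ m j).eval (k : ℝ)))
        ((Matrix.of fun i j : Fin (10 * m) => mom M (QQ m i * QQ m j)) i j) := fun i j => by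
      have hi := i.2
      have hj := j.2
      have := mom_hasSum hM (QQ m i * QQ m j)
        (natDegree_mul_le.trans (by rw [QQ_deg, QQ_deg]; omega))
      simpa only [eval_mul, of_apply] using this
    have hb := hank_basis (mom M) (10 * m) (fun i => QQ m i) (fun i => QQ m i)
      (fun i => QQ_monic m i) (fun i => QQ_deg m i) (fun i => QQ_monic m i) (fun i => QQ_deg m i)
    simp only [mom_pow] at hb
    rw [← hb, ← GG_det]
    refine det_compare (PosSemidef.of_dotProduct_mulVec_nonneg (quad_herm h) fun x => ?_)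
      (quad_herm (GG_hasSum m)) r fun x => ?_
    · exact (quad_hasSum h x).nonneg fun k => mul_nonneg (hw k).le (sq_nonneg _)
    · refine hasSum_le (fun k => ?_) (quad_hasSum h x) ((quad_hasSum (GG_hasSum m) x).mul_left r)
      rw [← mul_assoc]
      exact mul_le_mul_of_nonneg_right (hle k) (sq_nonneg _)

end Pool.Agent.Caab
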