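import Pool.Agent.Lib.MP_caab05_ag.Defs

namespace Pool.Agent.Caab

open Finset Filter Topology

namespace ArchNum

noncomputable def lf (N : ℕ) : ℝ := Real.log (N.factorial : ℝ)

noncomputable def Lf (N : ℕ) : ℝ := ∑ j ∈ range N, lf j

theorem lf_succ (N : ℕ) : lf (N + 1) = lf N + Real.log ((N : ℝ) + 1) := by
  unfold lf
  rw [Nat.factorial_succ, Nat.cast_mul, Real.log_mul (by positivity) (by positivity)]
  push_cast; ring

theorem log_succ {x : ℝ} (hx : 1 ≤ x) : ∃ δ : ℝ, Real.log (x + 1) = Real.log x + δ ∧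
    1 ≤ (x + 1) * δ ∧ x * δ ≤ 1 := by
  have h0 : 0 < x := by linarith
  refine ⟨Real.log ((x + 1) / x), by rw [Real.log_div (by linarith) h0.ne']; ring, ?_, ?_⟩
  · have := Real.one_sub_inv_le_log_of_pos (x := (x + 1) / x) (by positivity)
    have e : 1 - ((x + 1) / x)⁻¹ = 1 / (x + 1) := by field_simp; ring
    rw [e, div_le_iff₀ (by linarith)] at this
    linarith
  · have := Real.log_le_sub_one_of_pos (x := (x + 1) / x) (by positivity)
    have e : (x + 1) / x - 1 = 1 / x := by field_simp; ring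
    rw [e, le_div_iff₀ h0] at this
    linarith

theorem lf_bounds (N : ℕ) (hN : 1 ≤ N) : (N : ℝ) * Real.log N - N ≤ lf N ∧
    lf N ≤ N * Real.log N - N + Real.log N + 1 := by
  induction N, hN using Nat.le_induction with
  | base => simp [lf]
  | succ N hN ih =>
    have hx : (1 : ℝ) ≤ N := by exact_mod_cast hN
    obtain ⟨δ, h1, h2, h3⟩ := log_succ hx
    rw [lf_succ]
    push_cast
    rw [h1]
    constructor <;> linarith [ih.1, ih.2]

theorem Lf_bounds (N : ℕ) (hN : 1 ≤ N) :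
    (N : ℝ) ^ 2 / 2 * Real.log N - 3 * N ^ 2 / 4 - N * (Real.log N + 2) ≤ Lf N ∧
    Lf N ≤ (N : ℝ) ^ 2 / 2 * Real.log N - 3 * N ^ 2 / 4 + N * (Real.log N + 2) := by
  induction N, hN using Nat.le_induction with
  | base => simp [Lf, lf]; norm_num
  | succ N hN ih =>
    have hx : (1 : ℝ) ≤ N := by exact_mod_cast hN
    obtain ⟨δ, h1, h2, h3⟩ := log_succ hx
    obtain ⟨k1, k2⟩ := lf_bounds N hN
    have hL : 0 ≤ Real.log N := Real.log_nonneg hx
    have e : Lf (N + 1) = Lf N + lf N := sum_range_succ _ _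
    have hδ : δ ≤ 1 := by nlinarith
    have hδ0 : 0 ≤ δ := by nlinarith
    have p1 : ((N : ℝ) + 1) ^ 2 / 2 * δ ≤ N / 2 + 3 / 2 := by nlinarith
    have p2 : ((N : ℝ) + 1) / 2 ≤ ((N : ℝ) + 1) ^ 2 / 2 * δ := by nlinarith
    have p3 : 0 ≤ ((N : ℝ) + 1) * δ := by linarith
    rw [e]
    push_cast
    rw [h1]
    constructor <;> linarith [ih.1, ih.2]

theorem Lf_mul (c m : ℕ) (hc : 1 ≤ c) (hc' : c ≤ 25) (hm : 1 ≤ m) :
    (c : ℝ) ^ 2 * m ^ 2 / 2 * (Real.log c + Real.log m) - 3 * c ^ 2 * m ^ 2 / 4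
      - c * (m * (Real.log m + 6)) ≤ Lf (c * m) ∧
    Lf (c * m) ≤ (c : ℝ) ^ 2 * m ^ 2 / 2 * (Real.log c + Real.log m) - 3 * c ^ 2 * m ^ 2 / 4
      + c * (m * (Real.log m + 6)) := by
  have h := Lf_bounds (c * m) (Nat.mul_pos hc hm)
  have h1 : (1 : ℝ) ≤ c := by exact_mod_cast hc
  have h2 : (1 : ℝ) ≤ m := by exact_mod_cast hm
  have h3 : (c : ℝ) ≤ 25 := by exact_mod_cast hc'
  have h4 : Real.log c ≤ 4 := by
    have k1 : Real.log c ≤ Real.log (2 ^ 5) := Real.log_le_log (by linarith) (by linarith)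
    rw [Real.log_pow] at k1
    have := Real.log_two_lt_d9
    push_cast at k1
    linarith
  push_cast at h
  rw [Real.log_mul (by linarith) (by linarith)] at h
  have h5 : 0 ≤ (c : ℝ) * m * (4 - Real.log c) := by
    apply mul_nonneg (by positivity) (by linarith)
  constructor <;> linarith [h.1, h.2]

theorem lf_mul (c μ : ℕ) (hc : 1 ≤ c) (hc' : c ≤ 125) (hμ : 1 ≤ μ) :
    (c : ℝ) * μ * (Real.log c + Real.log μ) - c * μ ≤ lf (c * μ) ∧
    lf (c * μ) ≤ (c : ℝ) * μ * (Real.log c + Real.log μ) - c * μ + (Real.log μ + 6) := by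
  have h := lf_bounds (c * μ) (Nat.mul_pos hc hμ)
  have h1 : (1 : ℝ) ≤ c := by exact_mod_cast hc
  have h2 : (1 : ℝ) ≤ μ := by exact_mod_cast hμ
  have h3 : (c : ℝ) ≤ 125 := by exact_mod_cast hc'
  have h4 : Real.log c ≤ 5 := by
    have k1 : Real.log c ≤ Real.log (2 ^ 7) := Real.log_le_log (by linarith) (by linarith)
    rw [Real.log_pow] at k1
    have := Real.log_two_lt_d9
    push_cast at k1
    linarith
  push_cast at h
  rw [Real.log_mul (by linarith) (by linarith)] at h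
  constructor <;> linarith [h.1, h.2]

theorem sum_shift (a n : ℕ) : ∑ i ∈ range n, lf (a + i) = Lf (a + n) - Lf a := by
  unfold Lf
  rw [sum_range_add]; ring

theorem log_detpr (m : ℕ) : Real.log (detpr m) = 2 * (Lf (14 * m) - Lf (4 * m))
    - 2 * (Lf (25 * m) - Lf (15 * m)) + Lf (10 * m) + (Lf (11 * m) - Lf (1 * m)) := by
  unfold detpr
  rw [Real.log_prod (fun i _ => by positivity)]
  have e : ∀ i ∈ range (10 * m), Real.log ((((4 * m + i).factorial : ℝ) /
      ((25 * m - 1 - i).factorial : ℝ)) ^ 2 * (i.factorial : ℝ) * ((m + i).factorial : ℝ)) =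
      2 * lf (4 * m + i) - 2 * lf (15 * m + (10 * m - 1 - i)) + lf i + lf (m + i) := by
    intro i hi
    have : 25 * m - 1 - i = 15 * m + (10 * m - 1 - i) := by have := mem_range.1 hi; omega
    rw [Real.log_mul (by positivity) (by positivity), Real.log_mul (by positivity) (by positivity),
      Real.log_pow, Real.log_div (by positivity) (by positivity), this]
    unfold lf
    push_cast; ring
  rw [sum_congr rfl e, sum_add_distrib, sum_add_distrib, sum_sub_distrib, ← mul_sum, ← mul_sum,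
    sum_range_reflect (fun j => lf (15 * m + j)) (10 * m), sum_shift, sum_shift, sum_shift,
    show 4 * m + 10 * m = 14 * m by ring, show 15 * m + 10 * m = 25 * m by ring,
    show m + 10 * m = 11 * m by ring, one_mul]
  rfl

noncomputable def rho (m k : ℕ) : ℝ :=
  ((k + 9 * m).factorial : ℝ) * ((k + 6 * m).factorial : ℝ) ^ 2 * ((k + 29 * m).factorial : ℝ) /
    (((k + 22 * m).factorial : ℝ) * ((k + 20 * m).factorial : ℝ) * ((k + 4 * m).factorial : ℝ) ^ 2)

theorem rho_pos (m k : ℕ) : 0 < rho m k := by unfold rho; positivity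

theorem wbar_eq (m k : ℕ) : wbar m k = rho m k * wpr m k := by
  unfold wbar rho wpr
  field_simp

theorem rho_succ (m k : ℕ) : rho m (k + 1) *
    (((k : ℝ) + 1 + 22 * m) * (k + 1 + 20 * m) * (k + 1 + 4 * m) ^ 2) =
    rho m k * (((k : ℝ) + 1 + 9 * m) * (k + 1 + 6 * m) ^ 2 * (k + 1 + 29 * m)) := by
  have f : ∀ c : ℕ, ((k + 1 + c * m).factorial : ℝ) =
      ((k : ℝ) + 1 + c * m) * ((k + c * m).factorial : ℝ) := by
    intro c
    rw [show k + 1 + c * m = (k + c * m) + 1 by ring, Nat.factorial_succ]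
    push_cast; ring
  unfold rho
  rw [f, f, f, f, f, f]
  push_cast
  field_simp

theorem rho_le (μ k : ℕ) : rho (3 * μ) k ≤ rho (3 * μ) (38 * μ) := by
  have hD : ∀ k : ℕ, 0 < ((k : ℝ) + 1 + 22 * (3 * μ : ℕ)) * (k + 1 + 20 * (3 * μ : ℕ)) *
      (k + 1 + 4 * (3 * μ : ℕ)) ^ 2 := fun k => by positivity
  have hdiff : ∀ k : ℕ, ((k : ℝ) + 1 + 9 * (3 * μ : ℕ)) * (k + 1 + 6 * (3 * μ : ℕ)) ^ 2 *
      (k + 1 + 29 * (3 * μ : ℕ)) = ((k : ℝ) + 1 + 22 * (3 * μ : ℕ)) * (k + 1 + 20 * (3 * μ : ℕ)) *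
      (k + 1 + 4 * (3 * μ : ℕ)) ^ 2 + 27 * μ ^ 2 * (13 * (k + 1) + 186 * μ) * (38 * μ - (k + 1)) :=
    fun k => by push_cast; ring
  have up : ∀ k, k + 1 ≤ 38 * μ → rho (3 * μ) k ≤ rho (3 * μ) (k + 1) := by
    intro k hk
    have h1 := rho_succ (3 * μ) k
    have h2 : (k : ℝ) + 1 ≤ 38 * μ := by exact_mod_cast hk
    rw [hdiff] at h1
    refine le_of_mul_le_mul_right ?_ (hD k)
    rw [h1]
    refine mul_le_mul_of_nonneg_left (le_add_of_nonneg_right ?_) (rho_pos _ _).le
    exact mul_nonneg (by positivity) (by linarith)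
  have down : ∀ k, 38 * μ ≤ k + 1 → rho (3 * μ) (k + 1) ≤ rho (3 * μ) k := by
    intro k hk
    have h1 := rho_succ (3 * μ) k
    have h2 : (38 : ℝ) * μ ≤ k + 1 := by exact_mod_cast hk
    rw [hdiff] at h1
    refine le_of_mul_le_mul_right ?_ (hD k)
    rw [h1]
    refine mul_le_mul_of_nonneg_left (add_le_of_nonpos_right ?_) (rho_pos _ _).le
    exact mul_nonpos_of_nonneg_of_nonpos (by positivity) (by linarith)
  rcases le_total k (38 * μ) with h | h
  · have : ∀ d k, k + d = 38 * μ → rho (3 * μ) k ≤ rho (3 * μ) (38 * μ) := by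
      intro d
      induction d with
      | zero => intro k hk; rw [← hk]; rfl
      | succ d ih => intro k hk; exact (up k (by omega)).trans (ih (k + 1) (by omega))
    exact this (38 * μ - k) k (by omega)
  · induction k, h using Nat.le_induction with
    | base => rfl
    | succ k hk ih => exact (down k (by omega)).trans ih

theorem log_rho (μ : ℕ) : Real.log (rho (3 * μ) (38 * μ)) = lf (65 * μ) + 2 * lf (56 * μ)
    + lf (125 * μ) - lf (104 * μ) - lf (98 * μ) - 2 * lf (50 * μ) := by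
  unfold rho lf
  rw [Real.log_div (by positivity) (by positivity), Real.log_mul (by positivity) (by positivity),
    Real.log_mul (by positivity) (by positivity), Real.log_mul (by positivity) (by positivity),
    Real.log_mul (by positivity) (by positivity), Real.log_pow, Real.log_pow,
    show 38 * μ + 9 * (3 * μ) = 65 * μ by ring, show 38 * μ + 6 * (3 * μ) = 56 * μ by ring,
    show 38 * μ + 29 * (3 * μ) = 125 * μ by ring, show 38 * μ + 22 * (3 * μ) = 104 * μ by ring,
    show 38 * μ + 20 * (3 * μ) = 98 * μ by ring, show 38 * μ + 4 * (3 * μ) = 50 * μ by ring]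
  push_cast; ring

theorem log_const : 450 * Real.log 3 + 121 * Real.log 11 + 1114 * Real.log 2 ≤
    350 * Real.log 5 + 168 * Real.log 7 + 260 * Real.log 13 := by
  have h : (3 : ℕ) ^ 450 * 11 ^ 121 * 2 ^ 1114 ≤ 5 ^ 350 * 7 ^ 168 * 13 ^ 260 := by decide +kernel
  have h' : (3 : ℝ) ^ 450 * 11 ^ 121 * 2 ^ 1114 ≤ 5 ^ 350 * 7 ^ 168 * 13 ^ 260 := by
    exact_mod_cast h
  have := Real.log_le_log (by positivity) h'
  rw [Real.log_mul (by positivity) (by positivity), Real.log_mul (by positivity) (by positivity),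
    Real.log_mul (by positivity) (by positivity), Real.log_mul (by positivity) (by positivity),
    Real.log_pow, Real.log_pow, Real.log_pow, Real.log_pow, Real.log_pow, Real.log_pow] at this
  exact_mod_cast this

theorem log_mul' (a b c : ℝ) (ha : 0 < a) (hb : 0 < b) (h : c = a * b) :
    Real.log c = Real.log a + Real.log b := by
  rw [h, Real.log_mul ha.ne' hb.ne']

end ArchNum

open ArchNum in
theorem arch_num : ∀ᶠ m : ℕ in atTop, 3 ∣ m → ∃ r : ℝ, 0 < r ∧ (∀ k, wbar m k ≤ r * wpr m k) ∧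
    Real.log (((10 * m).factorial : ℝ) * r ^ (10 * m) * detpr m) ≤
      -110 * (m : ℝ) ^ 2 * Real.log m - 474 * (m : ℝ) ^ 2 := by
  have hlog : ∀ᶠ m : ℕ in atTop, Real.log m ≤ (m : ℝ) / 1000 := by
    have h := (Real.isLittleO_log_id_atTop.comp_tendsto
      (tendsto_natCast_atTop_atTop (R := ℝ))).bound (c := 1 / 1000) (by norm_num)
    filter_upwards [h] with m hm
    simp only [Function.comp, id, Real.norm_eq_abs, Nat.abs_cast] at hm
    linarith [le_abs_self (Real.log m)]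
  filter_upwards [hlog, eventually_ge_atTop 6000] with m hL hm ⟨μ, hμ⟩
  have hμ1 : 1 ≤ μ := by omega
  have hm1 : 1 ≤ m := by omega
  refine ⟨rho (3 * μ) (38 * μ), rho_pos _ _, fun k => ?_, ?_⟩
  · rw [wbar_eq, hμ]
    exact mul_le_mul_of_nonneg_right (rho_le μ k) (by unfold wpr; positivity)
  have hd : 0 < detpr m := by unfold detpr; positivity
  rw [Real.log_mul (by have := rho_pos (3 * μ) (38 * μ); positivity) hd.ne',
    Real.log_mul (by positivity) (by have := rho_pos (3 * μ) (38 * μ); positivity), Real.log_pow,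
    log_rho, log_detpr]
  have a0 := (lf_mul 10 m (by norm_num) (by norm_num) hm1).2
  have a1 := (lf_mul 65 μ (by norm_num) (by norm_num) hμ1).2
  have a2 := (lf_mul 56 μ (by norm_num) (by norm_num) hμ1).2
  have a3 := (lf_mul 125 μ (by norm_num) (by norm_num) hμ1).2
  have a4 := (lf_mul 104 μ (by norm_num) (by norm_num) hμ1).1
  have a5 := (lf_mul 98 μ (by norm_num) (by norm_num) hμ1).1
  have a6 := (lf_mul 50 μ (by norm_num) (by norm_num) hμ1).1
  have b1 := (Lf_mul 14 m (by norm_num) (by norm_num) hm1).2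
  have b2 := (Lf_mul 4 m (by norm_num) (by norm_num) hm1).1
  have b3 := (Lf_mul 25 m (by norm_num) (by norm_num) hm1).1
  have b4 := (Lf_mul 15 m (by norm_num) (by norm_num) hm1).2
  have b5 := (Lf_mul 10 m (by norm_num) (by norm_num) hm1).2
  have b6 := (Lf_mul 11 m (by norm_num) (by norm_num) hm1).2
  have b7 := (Lf_mul 1 m (by norm_num) (by norm_num) hm1).1
  have l4 := log_mul' 2 2 4 (by norm_num) (by norm_num) (by norm_num)
  have l8 := log_mul' 4 2 8 (by norm_num) (by norm_num) (by norm_num)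
  have l10 := log_mul' 2 5 10 (by norm_num) (by norm_num) (by norm_num)
  have l14 := log_mul' 2 7 14 (by norm_num) (by norm_num) (by norm_num)
  have l15 := log_mul' 3 5 15 (by norm_num) (by norm_num) (by norm_num)
  have l25 := log_mul' 5 5 25 (by norm_num) (by norm_num) (by norm_num)
  have l50 := log_mul' 2 25 50 (by norm_num) (by norm_num) (by norm_num)
  have l56 := log_mul' 8 7 56 (by norm_num) (by norm_num) (by norm_num)
  have l65 := log_mul' 5 13 65 (by norm_num) (by norm_num) (by norm_num)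
  have l98 := log_mul' 14 7 98 (by norm_num) (by norm_num) (by norm_num)
  have l104 := log_mul' 8 13 104 (by norm_num) (by norm_num) (by norm_num)
  have l125 := log_mul' 25 5 125 (by norm_num) (by norm_num) (by norm_num)
  have hc := log_const
  have h2 := Real.log_two_gt_d9
  have h2' := Real.log_two_lt_d9
  have h10 : Real.log 10 ≤ 4 := by
    have k1 : Real.log 10 ≤ Real.log (2 ^ 4) := Real.log_le_log (by norm_num) (by norm_num)
    rw [Real.log_pow] at k1
    push_cast at k1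
    linarith
  have hmμ : (m : ℝ) = 3 * μ := by exact_mod_cast hμ
  have hm' : (6000 : ℝ) ≤ m := by exact_mod_cast hm
  have hμ' : (1 : ℝ) ≤ μ := by exact_mod_cast hμ1
  have hLμ : Real.log μ ≤ Real.log m := Real.log_le_log (by linarith) (by linarith)
  have hL0 : 0 ≤ Real.log m := Real.log_nonneg (by linarith)
  push_cast at a0 a1 a2 a3 a4 a5 a6 b1 b2 b3 b4 b5 b6 b7 ⊢
  rw [Real.log_one] at b7
  obtain ⟨L, hLd⟩ : ∃ L, L = Real.log m := ⟨_, rfl⟩
  obtain ⟨L', hLd'⟩ : ∃ L', L' = Real.log μ := ⟨_, rfl⟩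
  rw [← hLd] at a0 b1 b2 b3 b4 b5 b6 b7 hL hLμ hL0 ⊢
  rw [← hLd'] at a1 a2 a3 a4 a5 a6 hLμ
  obtain ⟨Cr, hCr⟩ : ∃ Cr, Cr = 65 * Real.log 65 + 112 * Real.log 56 + 125 * Real.log 125
    - 104 * Real.log 104 - 98 * Real.log 98 - 100 * Real.log 50 := ⟨_, rfl⟩
  obtain ⟨Cd, hCd⟩ : ∃ Cd, Cd = 196 * Real.log 14 - 16 * Real.log 4 - 625 * Real.log 25
    + 225 * Real.log 15 + 50 * Real.log 10 + 121 / 2 * Real.log 11 + 165 := ⟨_, rfl⟩
  have hA : Cd + 10 / 3 * Cr ≤ -474.7 := by
    rw [hCr, hCd]; linarith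
  have r1 : lf (65 * μ) + 2 * lf (56 * μ) + lf (125 * μ) - lf (104 * μ) - lf (98 * μ)
      - 2 * lf (50 * μ) ≤ m / 3 * Cr + 4 * (L + 6) := by
    rw [hCr, hmμ]; linarith
  have r2 : 2 * (Lf (14 * m) - Lf (4 * m)) - 2 * (Lf (25 * m) - Lf (15 * m)) + Lf (10 * m)
      + (Lf (11 * m) - Lf (1 * m)) ≤ -110 * m ^ 2 * L + Cd * m ^ 2 + 138 * (m * (L + 6)) := by
    rw [hCd]; linarith
  have r3 : Real.log ((10 * m).factorial : ℝ) ≤ 11 * (m * (L + 6)) := by
    have : lf (10 * m) = Real.log ((10 * m).factorial : ℝ) := rfl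
    have k1 := mul_le_mul_of_nonneg_left h10 (by linarith : (0 : ℝ) ≤ m)
    have k2 := mul_le_mul_of_nonneg_right (by linarith : (1 : ℝ) ≤ m) hL0
    linarith
  have r4 := mul_le_mul_of_nonneg_left r1 (by linarith : (0 : ℝ) ≤ 10 * m)
  have r5 : (m : ℝ) * (L + 6) ≤ m ^ 2 / 500 := by nlinarith
  have r6 := mul_le_mul_of_nonneg_right hA (sq_nonneg (m : ℝ))
  have r7 := sq_nonneg (m : ℝ)
  linarith

end Pool.Agent.Caab
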