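import Pool.Agent.Lib.MP_caab05_ag.Defs
import Pool.Agent.Shared.PNTAP

set_option autoImplicit false

namespace Pool.Agent.Caab

open Finset Filter Topology

namespace Mertens

theorem log_fact_le (n : ℕ) (hn : 1 ≤ n) :
    Real.log (n.factorial : ℝ) ≤ n * Real.log n - n + Real.log n + 1 := by
  induction n, hn using Nat.le_induction with
  | base => simp
  | succ n hn ih =>
    have hn0 : (0 : ℝ) < n := by exact_mod_cast hn
    rw [Nat.factorial_succ, Nat.cast_mul, Real.log_mul (by positivity) (by positivity)]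
    push_cast
    have h1 := Real.one_sub_inv_le_log_of_pos (x := ((n : ℝ) + 1) / n) (by positivity)
    rw [Real.log_div (by positivity) hn0.ne', inv_div] at h1
    have h2 : 1 - (n : ℝ) / (n + 1) = 1 / (n + 1) := by field_simp; ring
    rw [h2, div_le_iff₀ (by positivity)] at h1
    nlinarith

theorem val_small (p M : ℕ) (hp : p.Prime) (hM : M ≠ 0) :
    (M : ℝ) / ((p : ℝ) - 1) - (Nat.log p M + 1) ≤ (M.factorial.factorization p : ℝ) := by
  have := Fact.mk hp
  have h1 := sub_one_mul_padicValNat_factorial (p := p) M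
  have h2 : (p.digits M).sum ≤ (p.digits M).length • (p - 1) :=
    List.sum_le_card_nsmul _ _ (fun x hx => by
      have := Nat.digits_lt_base hp.one_lt hx
      omega)
  rw [Nat.length_digits p M hp.one_lt hM, smul_eq_mul] at h2
  rw [Nat.factorization_def _ hp]
  have h3 : M ≤ (p - 1) * padicValNat p M.factorial + (Nat.log p M + 1) * (p - 1) := by omega
  have h4 : ((p - 1 : ℕ) : ℝ) = (p : ℝ) - 1 := by
    rw [Nat.cast_sub hp.one_le]; simp
  have h5 : (0 : ℝ) < (p : ℝ) - 1 := by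
    have : (2 : ℝ) ≤ p := by exact_mod_cast hp.two_le
    linarith
  have h6 : (M : ℝ) ≤ ((p : ℝ) - 1) * padicValNat p M.factorial +
      (Nat.log p M + 1) * ((p : ℝ) - 1) := by
    rw [← h4]; exact_mod_cast h3
  rw [sub_le_iff_le_add, div_le_iff₀ h5]
  nlinarith

theorem val_large (p M K : ℕ) (hp : p.Prime) :
    ((Icc 1 K).filter (fun j => p * j ≤ M)).card ≤ M.factorial.factorization p := by
  have h1 : ((Icc 1 K).filter (fun j => p * j ≤ M)).card ≤ M / p := by
    refine le_trans (card_le_card (t := Icc 1 (M / p)) ?_) (by simp)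
    intro j hj
    have := mem_filter.1 hj
    refine mem_Icc.2 ⟨(mem_Icc.1 this.1).1, ?_⟩
    rw [Nat.le_div_iff_mul_le hp.pos, mul_comm]
    exact this.2
  refine h1.trans ?_
  rw [Nat.factorization_factorial hp (b := Nat.log p M + 2) (by omega)]
  have := single_le_sum (f := fun i => M / p ^ i) (s := Ico 1 (Nat.log p M + 2))
    (fun i _ => Nat.zero_le _) (a := 1) (by simp)
  simpa using this

theorem log_fact_eq (M : ℕ) : Real.log (M.factorial : ℝ) =
    ∑ p ∈ Nat.primesLE M, (M.factorial.factorization p : ℝ) * Real.log p := by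
  rw [Real.log_nat_eq_sum_factorization, Finsupp.sum]
  apply sum_subset
  · intro p hp
    rw [Nat.support_factorization, Nat.mem_primeFactors] at hp
    exact Nat.mem_primesLE.2 ⟨(hp.1.dvd_factorial).1 hp.2.1, hp.1⟩
  · intro p _ hp
    rw [Finsupp.notMem_support_iff.1 hp]
    simp

theorem key (K N : ℕ) (hK : 1 ≤ K) (hN : 1 ≤ N) :
    ((K * N : ℕ) : ℝ) * ∑ p ∈ Nat.primesLE N, Real.log p / ((p : ℝ) - 1) ≤
      Real.log ((K * N).factorial : ℝ) + 2 * Chebyshev.theta N +
        2 * √((K * N : ℕ) : ℝ) * Real.log ((K * N : ℕ) : ℝ) -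
        ∑ j ∈ Icc 1 K, (Chebyshev.theta (((K * N : ℕ) : ℝ) / j) - Chebyshev.theta N) := by
  set M := K * N with hM
  have hNM : N ≤ M := Nat.le_mul_of_pos_left _ hK
  have hM1 : 1 ≤ M := hN.trans hNM
  have hsub : Nat.primesLE N ⊆ Nat.primesLE M := fun p hp =>
    Nat.mem_primesLE.2 ⟨(Nat.mem_primesLE.1 hp).1.trans hNM, (Nat.mem_primesLE.1 hp).2⟩
  have hlog : ∀ p : ℕ, 0 ≤ Real.log p := fun p => Real.log_natCast_nonneg p
  rw [log_fact_eq, ← sum_sdiff hsub]
  have hA : (M : ℝ) * ∑ p ∈ Nat.primesLE N, Real.log p / ((p : ℝ) - 1) -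
      ∑ p ∈ Nat.primesLE N, ((Nat.log p M : ℝ) + 1) * Real.log p ≤
      ∑ p ∈ Nat.primesLE N, (M.factorial.factorization p : ℝ) * Real.log p := by
    rw [mul_sum, ← sum_sub_distrib]
    apply sum_le_sum
    intro p hp
    have := mul_le_mul_of_nonneg_right (val_small p M (Nat.mem_primesLE.1 hp).2 (by omega)) (hlog p)
    calc _ = ((M : ℝ) / ((p : ℝ) - 1) - (Nat.log p M + 1)) * Real.log p := by ring
      _ ≤ _ := this
  have hB : ∑ p ∈ Nat.primesLE N, ((Nat.log p M : ℝ) + 1) * Real.log p ≤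
      2 * Chebyshev.theta N + 2 * √(M : ℝ) * Real.log M := by
    have h1 := Chebyshev.psi_sub_theta_le (x := (M : ℝ)) (by exact_mod_cast hM1)
    rw [Chebyshev.psi_eq_sum_mul_log_prime, Chebyshev.theta_eq_sum_primesLE_log,
      ← sum_sub_distrib] at h1
    have h2 : ∑ p ∈ Nat.primesLE N, ((Nat.log p M : ℝ) * Real.log p - Real.log p) ≤
        ∑ p ∈ Nat.primesLE M, ((Nat.log p M : ℝ) * Real.log p - Real.log p) := by
      apply sum_le_sum_of_subset_of_nonneg hsub
      intro p hp _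
      have h3 : 1 ≤ Nat.log p M := Nat.log_pos (Nat.mem_primesLE.1 hp).2.one_lt
        (Nat.mem_primesLE.1 hp).1
      have h4 : (1 : ℝ) ≤ Nat.log p M := by exact_mod_cast h3
      nlinarith [hlog p]
    rw [Chebyshev.theta_eq_sum_primesLE_log, mul_sum]
    have h3 : ∑ p ∈ Nat.primesLE N, ((Nat.log p M : ℝ) + 1) * Real.log p =
        ∑ p ∈ Nat.primesLE N, 2 * Real.log p +
        ∑ p ∈ Nat.primesLE N, ((Nat.log p M : ℝ) * Real.log p - Real.log p) := by
      rw [← sum_add_distrib]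
      exact sum_congr rfl (fun p _ => by ring)
    linarith
  have hC : ∑ j ∈ Icc 1 K, (Chebyshev.theta ((M : ℝ) / j) - Chebyshev.theta N) ≤
      ∑ p ∈ Nat.primesLE M \ Nat.primesLE N, (M.factorial.factorization p : ℝ) * Real.log p := by
    have h1 : ∀ j ∈ Icc 1 K, Chebyshev.theta ((M : ℝ) / j) - Chebyshev.theta N ≤
        ∑ p ∈ Nat.primesLE M \ Nat.primesLE N, if p * j ≤ M then Real.log p else 0 := by
      intro j hj
      have hj1 := (mem_Icc.1 hj).1
      rw [Chebyshev.theta_eq_sum_primesLE, Chebyshev.theta_eq_sum_primesLE_log,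
        Nat.floor_div_eq_div, ← sum_filter, sub_le_iff_le_add, ← sum_union]
      · apply sum_le_sum_of_subset_of_nonneg _ (fun p _ _ => hlog p)
        intro p hp
        have hp' := Nat.mem_primesLE.1 hp
        have h2 : p * j ≤ M := (Nat.le_div_iff_mul_le hj1).1 hp'.1
        by_cases g : p ∈ Nat.primesLE N
        · exact mem_union_right _ g
        · refine mem_union_left _ (mem_filter.2 ⟨mem_sdiff.2 ⟨?_, g⟩, h2⟩)
          exact Nat.mem_primesLE.2 ⟨le_trans (Nat.le_mul_of_pos_right _ hj1) h2, hp'.2⟩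
      · exact disjoint_left.2 (fun p hp => (mem_sdiff.1 (mem_filter.1 hp).1).2)
    refine (sum_le_sum h1).trans ?_
    rw [sum_comm]
    apply sum_le_sum
    intro p hp
    rw [← sum_filter, sum_const, nsmul_eq_mul]
    apply mul_le_mul_of_nonneg_right _ (hlog p)
    exact_mod_cast val_large p M K (Nat.mem_primesLE.1 (mem_sdiff.1 hp).1).2
  linarith

theorem theta_mul (c : ℝ) (hc : 0 < c) :
    Tendsto (fun N : ℕ => Chebyshev.theta (c * N) / N) atTop (𝓝 c) := by
  have h1 : Tendsto (fun N : ℕ => c * (N : ℝ)) atTop atTop :=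
    tendsto_natCast_atTop_atTop.const_mul_atTop hc
  have h2 := (Pool.Agent.Shared.PNTAP.theta_pnt.comp h1).const_mul c
  rw [mul_one] at h2
  refine h2.congr (fun N => ?_)
  simp only [Function.comp]
  by_cases h : (N : ℝ) = 0
  · simp [h]
  · field_simp

theorem small_terms : Tendsto (fun x : ℝ => (2 * √x * Real.log x + Real.log x + 1) / x) atTop
    (𝓝 0) := by
  have h1 : Tendsto (fun x : ℝ => Real.log x / x ^ (1 / 2 : ℝ)) atTop (𝓝 0) :=
    (isLittleO_log_rpow_atTop (r := 1 / 2) (by norm_num)).tendsto_div_nhds_zero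
  have h2 : Tendsto (fun x : ℝ => Real.log x / x) atTop (𝓝 0) :=
    Real.isLittleO_log_id_atTop.tendsto_div_nhds_zero
  have h3 := ((h1.const_mul 2).add h2).add tendsto_inv_atTop_zero
  simp only [mul_zero, add_zero] at h3
  refine h3.congr' ?_
  filter_upwards [eventually_gt_atTop 0] with x hx
  rw [← Real.sqrt_eq_rpow]
  have h4 : 0 < √x := Real.sqrt_pos.2 hx
  have h5 : √x * √x = x := Real.mul_self_sqrt hx.le
  have h6 : Real.log x / √x = √x * Real.log x / x := by
    rw [div_eq_div_iff h4.ne' hx.ne']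
    linear_combination (-Real.log x) * h5
  rw [h6]
  field_simp

end Mertens

open Mertens in
theorem mertens_upper : ∀ᶠ N : ℕ in atTop, ∑ p ∈ (range (N + 1)).filter Nat.Prime, Real.log p / ((p : ℝ) - 1) ≤ Real.log N - 0.55 := by
  have hM : Tendsto (fun N : ℕ => ((128 * N : ℕ) : ℝ)) atTop atTop := by
    push_cast
    exact tendsto_natCast_atTop_atTop.const_mul_atTop (by norm_num)
  have t1 := small_terms.comp hM
  have t2 := theta_mul 1 one_pos
  have t3 : Tendsto (fun N : ℕ => ∑ j ∈ Icc (1 : ℕ) 128,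
      (Chebyshev.theta ((128 / (j : ℝ)) * N) / N - Chebyshev.theta (1 * N) / N)) atTop
      (𝓝 (∑ j ∈ Icc (1 : ℕ) 128, (128 / (j : ℝ) - 1))) := by
    apply tendsto_finsetSum
    intro j hj
    have : (0 : ℝ) < j := by exact_mod_cast (mem_Icc.1 hj).1
    exact (theta_mul _ (by positivity)).sub t2
  have t4 := (t1.add ((t2.const_mul 2).sub t3 |>.div_const 128))
  have hnum : (0 : ℝ) + (2 * 1 - ∑ j ∈ Icc (1 : ℕ) 128, (128 / (j : ℝ) - 1)) / 128 <
      1 - 0.55 - 7 * 0.6931471808 := by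
    have : (∑ j ∈ Icc (1 : ℕ) 128, (128 / (j : ℝ) - 1)) =
        ((∑ j ∈ Icc (1 : ℕ) 128, (128 / (j : ℚ) - 1) : ℚ) : ℝ) := by
      push_cast
      rfl
    rw [this]
    have h2 : (567 : ℚ) ≤ ∑ j ∈ Icc (1 : ℕ) 128, (128 / (j : ℚ) - 1) := by decide +kernel
    have h3 : (567 : ℝ) ≤ ((∑ j ∈ Icc (1 : ℕ) 128, (128 / (j : ℚ) - 1) : ℚ) : ℝ) := by
      exact_mod_cast h2
    linarith
  filter_upwards [t4.eventually (gt_mem_nhds hnum), eventually_ge_atTop 1] with N h1 hN
  have hk := key 128 N (by norm_num) hN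
  have hf := log_fact_le (128 * N) (by omega)
  have hN0 : (0 : ℝ) < N := by exact_mod_cast hN
  have hs : (range (N + 1)).filter Nat.Prime = Nat.primesLE N := by
    ext p
    simp [Nat.mem_primesLE]
  rw [hs]
  have hl : Real.log ((128 * N : ℕ) : ℝ) = 7 * Real.log 2 + Real.log N := by
    push_cast
    rw [Real.log_mul (by norm_num) hN0.ne', show (128 : ℝ) = 2 ^ 7 by norm_num, Real.log_pow]
    norm_num
  have h2 := Real.log_two_lt_d9
  have e1 : ∑ j ∈ Icc (1 : ℕ) 128,
      (Chebyshev.theta ((128 / (j : ℝ)) * N) / N - Chebyshev.theta (1 * N) / N) =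
      (∑ j ∈ Icc (1 : ℕ) 128,
        (Chebyshev.theta (((128 * N : ℕ) : ℝ) / j) - Chebyshev.theta N)) / N := by
    rw [sum_div]
    apply sum_congr rfl
    intro j _
    rw [one_mul, sub_div]
    push_cast
    rw [div_mul_eq_mul_div]
  simp only [Function.comp] at h1
  rw [e1, one_mul] at h1
  set S := ∑ p ∈ Nat.primesLE N, Real.log p / ((p : ℝ) - 1)
  set T := ∑ j ∈ Icc (1 : ℕ) 128,
        (Chebyshev.theta (((128 * N : ℕ) : ℝ) / j) - Chebyshev.theta N)
  set L := Real.log ((128 * N : ℕ) : ℝ)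
  set R := √((128 * N : ℕ) : ℝ)
  have hc : ((128 * N : ℕ) : ℝ) = 128 * N := by push_cast; ring
  rw [hc] at h1 hk hf
  have e2 : (2 * R * L + L + 1) / (128 * (N : ℝ)) + (2 * (Chebyshev.theta N / N) - T / N) / 128 =
      (2 * R * L + L + 1 + 2 * Chebyshev.theta N - T) / (128 * N) := by
    field_simp
    ring
  rw [e2, div_lt_iff₀ (by positivity)] at h1
  have h3 : 128 * (N : ℝ) * S ≤ 128 * N * (Real.log N - 0.55) := by nlinarith
  exact le_of_mul_le_mul_left h3 (by positivity)

end Pool.Agent.Caab
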