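import Pool.Agent.Lib.MP_caab05_ag.MidCert
import Pool.Agent.Lib.MP_caab05_ag.PSum

/-!
The middle range of primes (MP_caab05_ag, job 8).
-/

namespace Pool.Agent.Caab

open Finset Filter Topology

noncomputable def cmid (kb kc : ℤ) : ℝ :=
  if kb = 1 then (if kc = 1 then -183.2 else -136.95) else (if kc = 1 then -415.3 else -147.5)

namespace Mid

section

variable {b4 c3 kb kc : ℤ} (hb : b4 = -1 ∨ b4 = -3) (hc : c3 = -1 ∨ c3 = -2)
  (hkb : kb = 1 ∨ kb = 3) (hkc : kc = 1 ∨ kc = 2) {a : ℕ} (ha : a = 1 ∨ a = 5 ∨ a = 7 ∨ a = 11)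
  (hab : (4 : ℤ) ∣ kb * a + b4) (hac : (3 : ℤ) ∣ kc * a + c3) {v : ℕ → ℕ → ℝ}
  (hv : ∀ m p : ℕ, 1 ≤ m → p.Prime → 30 ≤ p → 300 * m < p ^ 2 → ∀ β γ : ℤ,
    4 * β = kb * p + b4 → 3 * γ = kc * p + c3 →
      ∀ lam : ℤ, lam ≤ 0 → (ebound kb kc β γ p m lam : ℝ) ≤ v m p)

include hb hc hkb hkc ha hab hac hv

lemma row_lower (r : Row) (hr : rowOK kb kc r = true) :
    ∃ F : ℕ → ℝ, Tendsto (fun m : ℕ => F m / (m : ℝ) ^ 2) atTop (𝓝 (rowVal kb kc r : ℝ)) ∧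
      ∀ᶠ m : ℕ in atTop, F m ≤ psum a ((r.1 : ℝ) / r.2.1 * m) ((r.2.2.1 : ℝ) / r.2.2.2.1 * m)
        (fun p => v m p * Real.log p) := by
  obtain ⟨n1, d1, n2, d2, lam, bs⟩ := r
  simp only [rowOK, Bool.and_eq_true, decide_eq_true_eq] at hr
  obtain ⟨⟨⟨⟨⟨⟨hd1, hd2⟩, hlam⟩, h3⟩, h12⟩, -⟩, hok⟩ := hr
  obtain ⟨C, hC⟩ := row_spec hd1 hd2 hlam bs hok
  have hd1' : (0 : ℝ) < d1 := by exact_mod_cast hd1
  have hd2' : (0 : ℝ) < d2 := by exact_mod_cast hd2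
  have hw1 : (3 : ℝ) ≤ (n1 : ℝ) / d1 := by
    rw [le_div_iff₀ hd1']
    exact_mod_cast h3
  have hw12 : (n1 : ℝ) / d1 ≤ (n2 : ℝ) / d2 := by
    rw [div_le_div_iff₀ hd1' hd2']
    exact_mod_cast h12
  set U := cellsU kb kc (d1 + d2) (n1 + n2) lam (0, 0) bs with hU
  set W := cellsV kb kc (d1 + d2) (n1 + n2) lam (0, 0) bs with hW
  refine ⟨fun m : ℕ => psum a ((n1 : ℝ) / d1 * m) ((n2 : ℝ) / d2 * m)
    (fun p => (((120 * lam - U : ℤ) : ℝ) / 12 * m + ((-W : ℤ) : ℝ) / 12 * p - (C : ℝ) / 12) *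
      Real.log p), ?_, ?_⟩
  · have h := psum_tendsto a ha ((n1 : ℝ) / d1) ((n2 : ℝ) / d2) (((120 * lam - U : ℤ) : ℝ) / 12)
      (((-W : ℤ) : ℝ) / 12) ((C : ℝ) / 12) (by linarith) hw12
    convert h using 2
    simp only [rowVal, ← hU, ← hW]
    push_cast
    ring
  · filter_upwards [eventually_ge_atTop 34] with m hm
    unfold psum
    refine sum_le_sum fun p hp => ?_
    simp only [mem_filter, mem_Ioc] at hp
    obtain ⟨⟨hp1, hp2⟩, hpp, hpa⟩ := hp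
    have hm0 : (0 : ℝ) ≤ m := by positivity
    have hlo : (n1 : ℝ) / d1 * m < p := (Nat.floor_lt (by positivity)).1 hp1
    have hhi : (p : ℝ) ≤ (n2 : ℝ) / d2 * m :=
      (Nat.le_floor_iff (mul_nonneg (by linarith) hm0)).1 hp2
    have h3m : 3 * m < p := by
      have : (3 : ℝ) * m < p := lt_of_le_of_lt (mul_le_mul_of_nonneg_right hw1 hm0) hlo
      exact_mod_cast this
    have e1 : n1 * m ≤ d1 * p := by
      rw [div_mul_eq_mul_div, div_lt_iff₀ hd1'] at hlo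
      have : (n1 : ℝ) * m ≤ d1 * p := by linarith
      exact_mod_cast this
    have e2 : d2 * p ≤ n2 * m := by
      rw [div_mul_eq_mul_div, le_div_iff₀ hd2'] at hhi
      have : (d2 : ℝ) * p ≤ n2 * m := by linarith
      exact_mod_cast this
    have hβ : 4 * ((kb * p + b4) / 4) = kb * p + b4 := by
      rcases hkb with rfl | rfl <;> omega
    have hγ : 3 * ((kc * p + c3) / 3) = kc * p + c3 := by
      rcases hkc with rfl | rfl <;> omega
    generalize (kb * p + b4) / 4 = β at hβ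
    generalize (kc * p + c3) / 3 = γ at hγ
    have H : Hyp kb kc β γ p m :=
      ⟨hkb, hkc, by omega, h3m.le, by rcases hb with rfl | rfl <;> linarith,
        by rcases hb with rfl | rfl <;> linarith, by rcases hc with rfl | rfl <;> linarith,
        by rcases hc with rfl | rfl <;> linarith⟩
    have k1 := hC β γ p m H e1 e2
    have k2 := hv m p (by omega) hpp (by omega) (by nlinarith) β γ hβ hγ lam hlam
    have k3 : (((120 * lam - U) * m - W * p - C : ℤ) : ℝ) ≤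
        ((12 * ebound kb kc β γ p m lam : ℤ) : ℝ) := by exact_mod_cast k1
    refine mul_le_mul_of_nonneg_right ?_ (Real.log_natCast_nonneg p)
    push_cast at k3 ⊢
    linarith

lemma chain_lower (rs : List Row) : ∀ n d : ℤ, chainOK kb kc n d rs = true →
    (n : ℝ) / d ≤ 300 ∧ ∃ F : ℕ → ℝ,
      Tendsto (fun m : ℕ => F m / (m : ℝ) ^ 2) atTop (𝓝 (chainVal kb kc rs : ℝ)) ∧
      ∀ᶠ m : ℕ in atTop, F m ≤ psum a ((n : ℝ) / d * m) (300 * m)
        (fun p => v m p * Real.log p) := by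
  induction rs with
  | nil =>
    intro n d h
    simp only [chainOK, Bool.and_eq_true, decide_eq_true_eq] at h
    obtain ⟨rfl, rfl⟩ := h
    refine ⟨by norm_num, fun _ => 0, by simp [chainVal], Eventually.of_forall fun m => ?_⟩
    simp [psum]
  | cons r rs ih =>
    intro n d h
    simp only [chainOK, Bool.and_eq_true, decide_eq_true_eq] at h
    obtain ⟨⟨⟨rfl, rfl⟩, hr⟩, hrs⟩ := h
    obtain ⟨hle, F2, t2, e2⟩ := ih _ _ hrs
    obtain ⟨F1, t1, e1⟩ := row_lower hb hc hkb hkc ha hab hac hv r hr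
    have hw12 : (r.1 : ℝ) / r.2.1 ≤ (r.2.2.1 : ℝ) / r.2.2.2.1 := by
      obtain ⟨n1, d1, n2, d2, lam, bs⟩ := r
      simp only [rowOK, Bool.and_eq_true, decide_eq_true_eq] at hr
      obtain ⟨⟨⟨⟨⟨⟨hd1, hd2⟩, -⟩, -⟩, h12⟩, -⟩, -⟩ := hr
      have hd1' : (0 : ℝ) < d1 := by exact_mod_cast hd1
      have hd2' : (0 : ℝ) < d2 := by exact_mod_cast hd2
      show (n1 : ℝ) / d1 ≤ (n2 : ℝ) / d2
      rw [div_le_div_iff₀ hd1' hd2']
      exact_mod_cast h12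
    refine ⟨hw12.trans hle, fun m => F1 m + F2 m, ?_, ?_⟩
    · have := t1.add t2
      simp only [chainVal, Rat.cast_add]
      refine this.congr fun m => ?_
      rw [add_div]
    · filter_upwards [e1, e2] with m h1 h2
      have hm0 : (0 : ℝ) ≤ m := by positivity
      rw [psum_add a _ ((r.2.2.1 : ℝ) / r.2.2.2.1 * m) _ (mul_le_mul_of_nonneg_right hw12 hm0)
        (mul_le_mul_of_nonneg_right hle hm0)]
      exact add_le_add h1 h2

lemma final (rs : List Row) (hok : chainOK kb kc 3 1 rs = true) (c : ℝ)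
    (hlt : c < (chainVal kb kc rs : ℝ)) :
    ∀ᶠ m : ℕ in atTop, c * (m : ℝ) ^ 2 ≤ psum a (3 * m) (300 * m)
      (fun p => v m p * Real.log p) := by
  obtain ⟨-, F, t, e⟩ := chain_lower hb hc hkb hkc ha hab hac hv rs 3 1 hok
  filter_upwards [e, t.eventually (lt_mem_nhds hlt), eventually_ge_atTop 1] with m h1 h2 h3
  have hm : (0 : ℝ) < (m : ℝ) ^ 2 := by
    have : (0 : ℝ) < m := by exact_mod_cast h3
    positivity
  rw [lt_div_iff₀ hm] at h2
  have e3 : (((3 : ℤ) : ℝ) / ((1 : ℤ) : ℝ)) = 3 := by norm_num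
  rw [e3] at h1
  linarith

end

end Mid

theorem mid (b4 c3 kb kc : ℤ) (hb : b4 = -1 ∨ b4 = -3) (hc : c3 = -1 ∨ c3 = -2)
    (hkb : kb = 1 ∨ kb = 3) (hkc : kc = 1 ∨ kc = 2)
    (a : ℕ) (ha : a = 1 ∨ a = 5 ∨ a = 7 ∨ a = 11) (hab : (4 : ℤ) ∣ kb * a + b4)
    (hac : (3 : ℤ) ∣ kc * a + c3) (v : ℕ → ℕ → ℝ)
    (hv : ∀ m p : ℕ, 1 ≤ m → p.Prime → 30 ≤ p → 300 * m < p ^ 2 → ∀ β γ : ℤ,
      4 * β = kb * p + b4 → 3 * γ = kc * p + c3 →
      ∀ lam : ℤ, lam ≤ 0 → (ebound kb kc β γ p m lam : ℝ) ≤ v m p) :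
    ∀ᶠ m : ℕ in atTop, cmid kb kc * (m : ℝ) ^ 2 ≤
      psum a (3 * m) (300 * m) (fun p => v m p * Real.log p) := by
  have key := @Mid.final b4 c3 kb kc hb hc hkb hkc a ha hab hac v hv
  rcases hkb with rfl | rfl <;> rcases hkc with rfl | rfl
  · refine key _ Mid.ok11 _ ?_
    have h : (((-1832 / 10 : ℚ)) : ℝ) < _ := Rat.cast_lt.2 Mid.val11
    refine lt_of_le_of_lt (le_of_eq ?_) h
    norm_num [cmid]
  · refine key _ Mid.ok12 _ ?_
    have h : (((-13695 / 100 : ℚ)) : ℝ) < _ := Rat.cast_lt.2 Mid.val12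
    refine lt_of_le_of_lt (le_of_eq ?_) h
    norm_num [cmid]
  · refine key _ Mid.ok31 _ ?_
    have h : (((-4153 / 10 : ℚ)) : ℝ) < _ := Rat.cast_lt.2 Mid.val31
    refine lt_of_le_of_lt (le_of_eq ?_) h
    norm_num [cmid]
  · refine key _ Mid.ok32 _ ?_
    have h : (((-1475 / 10 : ℚ)) : ℝ) < _ := Rat.cast_lt.2 Mid.val32
    refine lt_of_le_of_lt (le_of_eq ?_) h
    norm_num [cmid]

end Pool.Agent.Caab
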