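import Pool.Agent.Lib.MP_caab05_ag.Expand

/-! The determinant at small primes and at very large primes. -/

namespace Pool.Agent.Caab

open Finset Filter Topology

namespace Small

theorem cop {p : ℕ} (hp : p.Prime) (h5 : 5 ≤ p) : Nat.Coprime 12 p := by
  rw [Nat.coprime_comm, Nat.Prime.coprime_iff_not_dvd hp]
  intro h
  have := Nat.le_of_dvd (by norm_num) h
  interval_cases p <;> first | omega | exact absurd hp (by norm_num)

theorem ints {b c : ℚ} (hb : b = -1 / 4 ∨ b = -3 / 4) (hc : c = -1 / 3 ∨ c = -2 / 3) {m : ℕ}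
    {y : ℚ} (hy : y ∈ SS b c m) : ∃ B C Y : ℤ, 12 * b = B ∧ 12 * c = C ∧ 12 * y = Y ∧
      -9 ≤ B ∧ B ≤ -3 ∧ -8 ≤ C ∧ C ≤ -4 ∧ -264 * (m : ℤ) - 9 ≤ Y ∧ Y ≤ -15 := by
  obtain ⟨B, hB, hB1, hB2⟩ : ∃ B : ℤ, 12 * b = B ∧ -9 ≤ B ∧ B ≤ -3 := by
    rcases hb with rfl | rfl
    · exact ⟨-3, by norm_num, by norm_num, by norm_num⟩
    · exact ⟨-9, by norm_num, by norm_num, by norm_num⟩
  obtain ⟨C, hC, hC1, hC2⟩ : ∃ C : ℤ, 12 * c = C ∧ -8 ≤ C ∧ C ≤ -4 := by
    rcases hc with rfl | rfl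
    · exact ⟨-4, by norm_num, by norm_num, by norm_num⟩
    · exact ⟨-8, by norm_num, by norm_num, by norm_num⟩
  rcases mem_SS.1 hy with ⟨j, hj, rfl⟩ | ⟨j, hj, rfl⟩
  · exact ⟨B, C, C - 12 - 12 * j, hB, hC, by push_cast; linarith, hB1, hB2, hC1, hC2, by omega,
      by omega⟩
  · exact ⟨B, C, B - 12 - 12 * j, hB, hC, by push_cast; linarith, hB1, hB2, hC1, hC2, by omega,
      by omega⟩

theorem rv_nonneg {p : ℕ} [Fact p.Prime] (hd : Nat.Coprime 12 p) {a : ℚ} {a' : ℤ}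
    (ha : ((12 : ℕ) : ℚ) * a = a') (N : ℕ) : 0 ≤ rv p a N := by
  refine sum_nonneg fun i _ => ?_
  rw [val_of_mul_eq hd (z := a' + 12 * (i : ℕ)) (by push_cast at ha ⊢; rw [← ha]; ring)]
  positivity

theorem rv_nonpos {p : ℕ} [Fact p.Prime] (hd : Nat.Coprime 12 p) {a : ℚ} {a' : ℤ}
    (ha : ((12 : ℕ) : ℚ) * a = a') (N : ℕ) (hL : ∀ i < N, |a' + 12 * (i : ℕ)| < (p : ℤ)) :
    rv p a N ≤ 0 := by
  refine sum_nonpos fun i hi => ?_
  rw [val_of_mul_eq hd (z := a' + 12 * (i : ℕ)) (by push_cast at ha ⊢; rw [← ha]; ring)]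
  have := valInt_le_card (p := p) (a' + 12 * (i : ℕ)) 0 (by simpa using hL i (mem_range.1 hi))
  simpa using this

theorem term_small {b c : ℚ} (hb : b = -1 / 4 ∨ b = -3 / 4) (hc : c = -1 / 3 ∨ c = -2 / 3)
    {p : ℕ} [hp : Fact p.Prime] (h5 : 5 ≤ p) {m : ℕ} (hm : 1 ≤ m) {L : ℕ}
    (hL : 300 * m < p ^ (L + 1)) {s ε : ℕ} (hs : s < 22 * m) (hε : ε ≤ 1) {y : ℚ}
    (hy : y ∈ SS b c m) :
    V p (FF b c m s ε y / ∏ z ∈ (SS b c m).erase y, (y - z))
      ((-21 * m - 2) / ((p : ℝ) - 1) - 10 * L - 11) := by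
  by_cases h1 : rf (y + 1 - b) s = 0
  · rw [FF_eq_zero (Or.inl h1), zero_div]; exact V.zero _
  by_cases h2 : rf (y + 1 - c) s = 0
  · rw [FF_eq_zero (Or.inr h2), zero_div]; exact V.zero _
  have hP := par_of hb hc
  have hd := cop hp.out h5
  obtain ⟨B, C, Y, hB, hC, hY, b1, b2, c1, c2, y1, y2⟩ := ints hb hc hy
  have hL' : 300 * (m : ℤ) < (p : ℤ) ^ (L + 1) := by exact_mod_cast hL
  have e1 : ((12 : ℕ) : ℚ) * (y + 1) = (Y + 12 : ℤ) := by push_cast; linarith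
  have e2 : ((12 : ℕ) : ℚ) * (y + b) = (Y + B : ℤ) := by push_cast; linarith
  have e3 : ((12 : ℕ) : ℚ) * (y + c) = (Y + C : ℤ) := by push_cast; linarith
  have e4 : ((12 : ℕ) : ℚ) * (y + 1 - b) = (Y + 12 - B : ℤ) := by push_cast; linarith
  have e5 : ((12 : ℕ) : ℚ) * (y + 1 - c) = (Y + 12 - C : ℤ) := by push_cast; linarith
  have e6 : ((12 : ℕ) : ℚ) * (y + 1 + s) = (Y + 12 + 12 * s : ℤ) := by push_cast; linarith
  have n1 := rv_ge hd e1 (9 * m) L (by omega) (rf_ne_zero (hP.add_one_ne hy) _)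
  have n2 := rv_ge hd e2 (6 * m) L (by omega) (rf_ne_zero (hP.add_b_ne hy) _)
  have n3 := rv_ge hd e3 (6 * m) L (by omega) (rf_ne_zero (hP.add_c_ne hy) _)
  have n4 := rv_ge hd e4 s L (by omega) h1
  have n5 := rv_ge hd e5 s L (by omega) h2
  have d1 := rv_le hd e2 (s + 1) L fun i hi => by rw [abs_lt]; push_cast; omega
  have d2 := rv_le hd e3 (s + 1) L fun i hi => by rw [abs_lt]; push_cast; omega
  have d3 := rv_le hd e5 (22 * m) L fun i hi => by rw [abs_lt]; push_cast; omega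
  have d4 := rv_le hd e4 (20 * m) L fun i hi => by rw [abs_lt]; push_cast; omega
  have d5 := rv_le hd e6 1 L fun i hi => by rw [abs_lt]; push_cast; omega
  have h5' : (5 : ℝ) ≤ p := by exact_mod_cast h5
  have hq : 1 / ((p : ℝ) - 1) ≤ 1 := by rw [div_le_one (by linarith)]; linarith
  have d6 : (ε : ℝ) * (padicValRat p (y + 1 + s) : ℝ) ≤ 1 + L := by
    have h0 : (padicValRat p (y + 1 + s) : ℝ) ≤ 1 + L := by
      simp only [rv, sum_range_one, Nat.cast_zero, add_zero, Nat.cast_one] at d5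
      linarith
    interval_cases ε
    · simp only [Nat.cast_zero, zero_mul]; positivity
    · simpa using h0
  refine V.of_le ?_
  rw [val_term hP hy h1 h2]
  push_cast at n1 n2 n3 n4 n5 d1 d2 d3 d4 ⊢
  simp only [div_eq_mul_inv] at n1 n2 n3 n4 n5 d1 d2 d3 d4 ⊢
  nlinarith

theorem term_big {b c : ℚ} (hb : b = -1 / 4 ∨ b = -3 / 4) (hc : c = -1 / 3 ∨ c = -2 / 3)
    {p : ℕ} [hp : Fact p.Prime] {m : ℕ} (hm : 1 ≤ m) (hL : 300 * m < p) {s ε : ℕ}
    (hs : s < 22 * m) {y : ℚ} (hy : y ∈ SS b c m) :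
    V p (FF b c m s ε y / ∏ z ∈ (SS b c m).erase y, (y - z)) 0 := by
  by_cases h1 : rf (y + 1 - b) s = 0
  · rw [FF_eq_zero (Or.inl h1), zero_div]; exact V.zero _
  by_cases h2 : rf (y + 1 - c) s = 0
  · rw [FF_eq_zero (Or.inr h2), zero_div]; exact V.zero _
  have hP := par_of hb hc
  have hd := cop hp.out (by omega)
  obtain ⟨B, C, Y, hB, hC, hY, b1, b2, c1, c2, y1, y2⟩ := ints hb hc hy
  have e1 : ((12 : ℕ) : ℚ) * (y + 1) = (Y + 12 : ℤ) := by push_cast; linarith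
  have e2 : ((12 : ℕ) : ℚ) * (y + b) = (Y + B : ℤ) := by push_cast; linarith
  have e3 : ((12 : ℕ) : ℚ) * (y + c) = (Y + C : ℤ) := by push_cast; linarith
  have e4 : ((12 : ℕ) : ℚ) * (y + 1 - b) = (Y + 12 - B : ℤ) := by push_cast; linarith
  have e5 : ((12 : ℕ) : ℚ) * (y + 1 - c) = (Y + 12 - C : ℤ) := by push_cast; linarith
  have e6 : ((12 : ℕ) : ℚ) * (y + 1 + s) = (Y + 12 + 12 * s : ℤ) := by push_cast; linarith
  have n1 := rv_nonneg hd e1 (9 * m)
  have n2 := rv_nonneg hd e2 (6 * m)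
  have n3 := rv_nonneg hd e3 (6 * m)
  have n4 := rv_nonneg hd e4 s
  have n5 := rv_nonneg hd e5 s
  have d1 := rv_nonpos hd e2 (s + 1) fun i hi => by rw [abs_lt]; omega
  have d2 := rv_nonpos hd e3 (s + 1) fun i hi => by rw [abs_lt]; omega
  have d3 := rv_nonpos hd e5 (22 * m) fun i hi => by rw [abs_lt]; omega
  have d4 := rv_nonpos hd e4 (20 * m) fun i hi => by rw [abs_lt]; omega
  have d5 := rv_nonpos hd e6 1 fun i hi => by rw [abs_lt]; omega
  have d6 : (ε : ℤ) * padicValRat p (y + 1 + s) ≤ 0 := by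
    simp only [rv, sum_range_one, Nat.cast_zero, add_zero] at d5
    exact mul_nonpos_of_nonneg_of_nonpos (by positivity) d5
  refine V.of_le ?_
  rw [val_term hP hy h1 h2]
  exact_mod_cast (by omega)

theorem sum_id (n : ℕ) : ∑ i ∈ range n, (i : ℝ) = n * (n - 1) / 2 := by
  induction n with
  | zero => simp
  | succ n ih => rw [sum_range_succ, ih]; push_cast; ring

end Small

theorem small (b c : ℚ) (hb : b = -1 / 4 ∨ b = -3 / 4) (hc : c = -1 / 3 ∨ c = -2 / 3) (p : ℕ) (hp : p.Prime) (h5 : 5 ≤ p)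
    (m : ℕ) (hm : 1 ≤ m) (a1 a2 : ℤ) (L : ℕ) (hL : 300 * m < p ^ (L + 1)) :
    V p (DD b c a1 a2 m) (-110 * (m : ℝ) ^ 2 / ((p : ℝ) - 1) - 200 * m * (L + 1)) := by
  haveI := Fact.mk hp
  have hd := Small.cop hp h5
  have h := V_DD (p := p) (b := b) (c := c) (a1 := a1) (a2 := a2) (m := m) (fun i => rfP 0 i)
    (fun i _ => rfP_monic _ _) (fun i _ => rfP_natDegree _ _)
    (fun i => ((-21 * m - 2) / 2 + i) * ((p : ℝ) - 1)⁻¹ - 6 * L - 15 / 2) (by
      intro i hi j hj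
      refine V_LL a1 a2 fun s hs ε hε => V.sum fun y hy => ?_
      obtain ⟨B, C, Y, -, -, hY, -⟩ := Small.ints hb hc hy
      have e0 : ((12 : ℕ) : ℚ) * (y + 0) = Y := by push_cast; linarith
      have t := (Small.term_small hb hc h5 hm hL hs hε hy).mul
        ((V_rf hd e0 i L (by omega)).mul (V_rf hd e0 j L (by omega)))
      simp only [rfP_eval]
      rw [mul_div_right_comm]
      refine t.mono (le_of_eq ?_)
      simp only [div_eq_mul_inv]
      ring)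
  refine h.mono ?_
  have h5' : (5 : ℝ) ≤ p := by exact_mod_cast h5
  have hq : ((p : ℝ) - 1)⁻¹ ≤ 1 := inv_le_one_of_one_le₀ (by linarith)
  have hm' : (0 : ℝ) ≤ m := by positivity
  have hL' : (0 : ℝ) ≤ L := by positivity
  simp only [sum_sub_distrib, ← sum_mul, sum_add_distrib, sum_const, card_range, nsmul_eq_mul,
    Small.sum_id, div_eq_mul_inv]
  push_cast
  nlinarith [mul_nonneg hm' hL', mul_le_mul_of_nonneg_left hq hm']

theorem big (b c : ℚ) (hb : b = -1 / 4 ∨ b = -3 / 4) (hc : c = -1 / 3 ∨ c = -2 / 3) (p : ℕ) (hp : p.Prime)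
    (m : ℕ) (hm : 1 ≤ m) (hpm : 300 * m < p) (a1 a2 : ℤ) : V p (DD b c a1 a2 m) 0 := by
  haveI := Fact.mk hp
  have hd := Small.cop hp (by omega)
  have h := V_DD (p := p) (b := b) (c := c) (a1 := a1) (a2 := a2) (m := m) (fun i => rfP 0 i)
    (fun i _ => rfP_monic _ _) (fun i _ => rfP_natDegree _ _) (fun _ => 0) (by
      intro i _ j _
      refine V_LL a1 a2 fun s hs ε _ => V.sum fun y hy => ?_
      obtain ⟨B, C, Y, -, -, hY, -⟩ := Small.ints hb hc hy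
      have e0 : ((12 : ℕ) : ℚ) * (y + 0) = Y := by push_cast; linarith
      have hr : ∀ N : ℕ, V p (rf (y + 0) N) 0 := fun N => V.of_ne fun hne => by
        rw [val_rf hne]
        exact_mod_cast Small.rv_nonneg hd e0 N
      simp only [rfP_eval, add_zero (0 : ℝ)]
      rw [mul_div_right_comm]
      exact (Small.term_big hb hc hm hpm hs hy).mul0 ((hr i).mul0 (hr j)))
  simpa using h

end Pool.Agent.Caab
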