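import Pool.Agent.Lib.MP_caab05_ag.LargeMain
import Pool.Agent.Lib.MP_caab05_ag.Small
import Pool.Agent.Lib.MP_caab05_ag.Tail
import Pool.Agent.Lib.MP_caab05_ag.Mid
import Pool.Agent.Lib.MP_caab05_ag.Mertens

/-! The contribution of the primes `p ≥ 5` to the logarithm of the determinant. -/

namespace Pool.Agent.Caab

open Finset Filter Topology

namespace Arith

theorem log_ge_sum (q : ℚ) (hq : 0 < q) (N : ℕ) (h : ∀ p : ℕ, p.Prime → N < p → V p q 0) :
    ∑ p ∈ (range (N + 1)).filter Nat.Prime, (padicValRat p q : ℝ) * Real.log p ≤ Real.log q := by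
  classical
  set T := (range (N + 1)).filter Nat.Prime ∪ (q.num.natAbs.primeFactors ∪ q.den.primeFactors)
    with hT
  have hprime : ∀ p ∈ T, p.Prime := by
    intro p hp
    simp only [hT, mem_union, mem_filter] at hp
    rcases hp with hp | hp | hp
    · exact hp.2
    · exact Nat.prime_of_mem_primeFactors hp
    · exact Nat.prime_of_mem_primeFactors hp
  have key : ∀ n : ℕ, n.primeFactors ⊆ T →
      Real.log n = ∑ p ∈ T, (padicValNat p n : ℝ) * Real.log p := by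
    intro n hn
    rw [Real.log_nat_eq_sum_factorization, Finsupp.sum_of_support_subset _
      (by simpa using hn) _ (by simp)]
    exact sum_congr rfl fun p hp => by rw [Nat.factorization_def n (hprime p hp)]
  have h1 : Real.log q = ∑ p ∈ T, (padicValRat p q : ℝ) * Real.log p := by
    have hn : 0 < q.num := Rat.num_pos.2 hq
    have e : (q : ℝ) = (q.num.natAbs : ℝ) / q.den := by
      rw [Nat.cast_natAbs, abs_of_pos hn]
      exact_mod_cast (Rat.num_div_den q).symm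
    rw [e, Real.log_div (by simpa using hq.ne') (by simpa using q.den_ne_zero),
      key _ (subset_union_left.trans subset_union_right),
      key _ (subset_union_right.trans subset_union_right), ← sum_sub_distrib]
    refine sum_congr rfl fun p _ => ?_
    rw [padicValRat, padicValInt, Int.cast_sub, Int.cast_natCast, Int.cast_natCast]
    ring
  rw [h1]
  refine sum_le_sum_of_subset_of_nonneg subset_union_left fun p hp hp' => ?_
  have h2 : N < p := by
    by_contra hc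
    exact hp' (mem_filter.2 ⟨mem_range.2 (by omega), hprime p hp⟩)
  exact mul_nonneg ((h p (hprime p hp) h2).le hq.ne') (Real.log_natCast_nonneg p)

theorem split_primes (N : ℕ) (hN : 3 ≤ N) (f : ℕ → ℝ) :
    ∑ p ∈ (range (N + 1)).filter Nat.Prime, f p =
      f 2 + f 3 + (psum 1 0 N f + psum 5 0 N f + psum 7 0 N f + psum 11 0 N f) := by
  have h2 : f 2 = ∑ p ∈ range (N + 1), if p = 2 then f p else 0 := by
    rw [sum_ite_eq', if_pos (mem_range.2 (by omega))]
  have h3 : f 3 = ∑ p ∈ range (N + 1), if p = 3 then f p else 0 := by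
    rw [sum_ite_eq', if_pos (mem_range.2 (by omega))]
  have h4 : ∀ a, psum a 0 N f = ∑ p ∈ range (N + 1), if p.Prime ∧ p % 12 = a then f p else 0 := by
    intro a
    rw [psum, Nat.floor_zero, Nat.floor_natCast, ← sum_filter]
    refine sum_congr ?_ fun _ _ => rfl
    ext p
    simp only [mem_filter, mem_Ioc, mem_range]
    constructor
    · rintro ⟨h1, h⟩
      exact ⟨by omega, h⟩
    · rintro ⟨h1, h⟩
      exact ⟨⟨h.1.pos, by omega⟩, h⟩
  rw [h2, h3, h4, h4, h4, h4, sum_filter]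
  simp only [← sum_add_distrib]
  refine sum_congr rfl fun p _ => ?_
  by_cases hp : p.Prime
  · by_cases e2 : p = 2
    · subst e2; simp [hp]
    by_cases e3 : p = 3
    · subst e3; simp [hp]
    have a2 : ¬ 2 ∣ p := fun h => e2 ((Nat.prime_dvd_prime_iff_eq Nat.prime_two hp).1 h).symm
    have a3 : ¬ 3 ∣ p := fun h => e3 ((Nat.prime_dvd_prime_iff_eq Nat.prime_three hp).1 h).symm
    have : p % 12 = 1 ∨ p % 12 = 5 ∨ p % 12 = 7 ∨ p % 12 = 11 := by omega
    rcases this with h | h | h | h <;> simp [hp, e2, e3, h]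
  · have e2 : p ≠ 2 := fun h => hp (h ▸ Nat.prime_two)
    have e3 : p ≠ 3 := fun h => hp (h ▸ Nat.prime_three)
    simp [hp, e2, e3]

theorem ebound_nonpos (kb kc β γ : ℤ) (p m : ℕ) (lam : ℤ) (h : lam ≤ 0) :
    ebound kb kc β γ p m lam ≤ 0 := by
  have h1 : 0 ≤ ∑ x ∈ range p, hh (lam - PhiX kb kc β γ p m x) := sum_nonneg fun x _ => by
    unfold hh
    split_ifs
    · exact le_rfl
    · positivity
  have h2 : lam * (10 * m) ≤ 0 := mul_nonpos_of_nonpos_of_nonneg h (by positivity)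
  unfold ebound
  linarith

theorem err_small : ∀ᶠ m : ℕ in atTop,
    ((Nat.sqrt (300 * m) : ℝ) + 1) * (400 * m * Real.log (300 * m)) ≤ (m : ℝ) ^ 2 := by
  have h1 : Tendsto (fun x : ℝ => Real.log x / x ^ (1 / 2 : ℝ)) atTop (𝓝 0) :=
    (isLittleO_log_rpow_atTop (r := 1 / 2) (by norm_num)).tendsto_div_nhds_zero
  have h2 : Tendsto (fun m : ℕ => (300 : ℝ) * m) atTop atTop :=
    tendsto_natCast_atTop_atTop.const_mul_atTop (by norm_num)
  filter_upwards [(h1.comp h2).eventually (gt_mem_nhds (show (0 : ℝ) < 1 / 240000 by norm_num)),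
    eventually_ge_atTop 1] with m hm h1m
  have hm1 : (1 : ℝ) ≤ m := by exact_mod_cast h1m
  simp only [Function.comp, ← Real.sqrt_eq_rpow] at hm
  set s := √(300 * (m : ℝ)) with hs
  have hs2 : s * s = 300 * m := Real.mul_self_sqrt (by positivity)
  have hs1 : 1 ≤ s := Real.one_le_sqrt.2 (by linarith)
  have hs0 : 0 < s := by linarith
  rw [div_lt_iff₀ hs0] at hm
  have h3 : (Nat.sqrt (300 * m) : ℝ) ≤ s := by
    have := Real.nat_sqrt_le_real_sqrt (a := 300 * m)
    push_cast at this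
    exact this
  have h4 : 0 ≤ Real.log (300 * m) := Real.log_nonneg (by linarith)
  calc ((Nat.sqrt (300 * m) : ℝ) + 1) * (400 * m * Real.log (300 * m))
      ≤ (2 * s) * (400 * m * (1 / 240000 * s)) := by gcongr; linarith
    _ = (m : ℝ) ^ 2 := by linear_combination (1 / 300 * m) * hs2

theorem kap_le (kb kc : ℤ) : kap kb kc ≤ 0 := by
  unfold kap
  split_ifs <;> norm_num

/-- the primes of one residue class -/
theorem cls_bound (b c : ℚ) (b4 c3 kb kc : ℤ) (hb : b4 = -1 ∨ b4 = -3) (hc : c3 = -1 ∨ c3 = -2)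
    (hbb : b = b4 / 4) (hcc : c = c3 / 3) (a : ℕ) (ha : a = 1 ∨ a = 5 ∨ a = 7 ∨ a = 11)
    (hk : (kb = 1 ∨ kb = 3) ∧ (kc = 1 ∨ kc = 2) ∧ (4 : ℤ) ∣ kb * a + b4 ∧ (3 : ℤ) ∣ kc * a + c3)
    (a1 a2 : ℤ) :
    ∀ᶠ m : ℕ in atTop, DD b c a1 a2 m ≠ 0 →
      -110 * (m : ℝ) ^ 2 * psum a 0 ((3 * m : ℕ) : ℝ) (fun p => Real.log p / ((p : ℝ) - 1)) +
        (7.5 * kap kb kc + cmid kb kc - 3.5) * (m : ℝ) ^ 2 ≤
      psum a 0 ((300 * m : ℕ) : ℝ)
        (fun p => (padicValRat p (DD b c a1 a2 m) : ℝ) * Real.log p) := by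
  obtain ⟨hkb, hkc, hab, hac⟩ := hk
  have hb' : b = -1 / 4 ∨ b = -3 / 4 := by rcases hb with rfl | rfl <;> simp [hbb]
  have hc' : c = -1 / 3 ∨ c = -2 / 3 := by rcases hc with rfl | rfl <;> simp [hcc]
  have hmid := mid b4 c3 kb kc hb hc hkb hkc a ha hab hac
    (fun m p => (padicValRat p (DD b c a1 a2 m) : ℝ))
    (fun m p hm hp h30 hpm β γ hβ hγ lam hlam => by
      rcases large b c b4 c3 kb kc β γ hb hc hbb hcc hkb hkc p m hp h30 hm hpm hβ hγ a1 a2 lam hlam
        with h | h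
      · rw [h, padicValRat.zero]
        exact_mod_cast ebound_nonpos kb kc β γ p m lam hlam
      · exact h)
  have hlim := psum_tendsto a ha 0 3 (10 * (kap kb kc - 0.01)) (-13 / 8) 0 le_rfl (by norm_num)
  have hev := hlim.eventually (lt_mem_nhds (show 7.5 * kap kb kc - 2.5 <
    10 * (kap kb kc - 0.01) * (3 - 0) / 4 + -13 / 8 * (3 ^ 2 - 0 ^ 2) / 8 by linarith))
  filter_upwards [hmid, hev, err_small, eventually_ge_atTop 1000] with m h1 h2 h3 hm hD
  have hm1 : (1000 : ℝ) ≤ m := by exact_mod_cast hm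
  rw [lt_div_iff₀ (by positivity), zero_mul] at h2
  push_cast
  rw [psum_add a 0 (3 * m) (300 * m) (by positivity) (by linarith)]
  have hfl : ⌊(3 : ℝ) * m⌋₊ = 3 * m := by
    rw [show (3 : ℝ) * m = ((3 * m : ℕ) : ℝ) by push_cast; ring, Nat.floor_natCast]
  have hlog : 0 ≤ Real.log (300 * m) := Real.log_nonneg (by linarith)
  have key : ∀ p ∈ (Ioc ⌊(0 : ℝ)⌋₊ ⌊(3 : ℝ) * m⌋₊).filter (fun p : ℕ => p.Prime ∧ p % 12 = a),
      -110 * (m : ℝ) ^ 2 * (Real.log p / ((p : ℝ) - 1)) +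
        (10 * (kap kb kc - 0.01) * m + -13 / 8 * p - 0) * Real.log p -
        (if p ≤ Nat.sqrt (300 * m) then 400 * m * Real.log (300 * m) else 0) ≤
      (padicValRat p (DD b c a1 a2 m) : ℝ) * Real.log p := by
    intro p hp
    rw [mem_filter, mem_Ioc, hfl] at hp
    obtain ⟨⟨-, hp3⟩, hp, hpa⟩ := hp
    have hlp : 0 ≤ Real.log p := Real.log_natCast_nonneg p
    have h5 : 5 ≤ p := by
      have := hp.two_le
      have h4 : p ≠ 4 := by rintro rfl; exact absurd hp (by decide)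
      omega
    have hp0 : (0 : ℝ) < p := by exact_mod_cast hp.pos
    split_ifs with hs
    · have hs' : p * p ≤ 300 * m := Nat.le_sqrt.1 hs
      have hL := (small b c hb' hc' p hp h5 m (by omega) a1 a2 (Nat.log p (300 * m))
        (Nat.lt_pow_succ_log_self hp.one_lt _)).le hD
      have e1 : (Nat.log p (300 * m) : ℝ) * Real.log p ≤ Real.log (300 * m) := by
        rw [← Real.log_pow]
        refine Real.log_le_log (by positivity) ?_
        exact_mod_cast Nat.pow_log_le_self p (by omega : 300 * m ≠ 0)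
      have e2 : Real.log p ≤ Real.log (300 * m) := by
        refine Real.log_le_log hp0 ?_
        exact_mod_cast (by omega : p ≤ 300 * m)
      have e3 := mul_le_mul_of_nonneg_right hL hlp
      have e4 : (10 * (kap kb kc - 0.01) * m + -13 / 8 * p - 0) * Real.log p ≤ 0 := by
        refine mul_nonpos_of_nonpos_of_nonneg ?_ hlp
        have := kap_le kb kc
        nlinarith
      have e5 : (-110 * (m : ℝ) ^ 2 / ((p : ℝ) - 1) - 200 * m * ((Nat.log p (300 * m) : ℝ) + 1)) *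
          Real.log p = -110 * (m : ℝ) ^ 2 * (Real.log p / ((p : ℝ) - 1)) -
            200 * m * ((Nat.log p (300 * m) : ℝ) * Real.log p + Real.log p) := by ring
      have e6 : 200 * (m : ℝ) * ((Nat.log p (300 * m) : ℝ) * Real.log p + Real.log p) ≤
          200 * m * (Real.log (300 * m) + Real.log (300 * m)) := by gcongr
      linarith
    · have hs' : 300 * m < p ^ 2 := by
        rw [sq]
        by_contra hcon
        exact hs (Nat.le_sqrt.2 (by omega))
      have h30 : 30 ≤ p := by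
        by_contra hcon
        have : p ^ 2 ≤ 30 ^ 2 := Nat.pow_le_pow_left (by omega) 2
        omega
      obtain ⟨β, hβ⟩ : ∃ β : ℤ, 4 * β = kb * p + b4 :=
        ⟨(kb * p + b4) / 4, by rcases hkb with rfl | rfl <;> omega⟩
      obtain ⟨γ, hγ⟩ : ∃ γ : ℤ, 3 * γ = kc * p + c3 :=
        ⟨(kc * p + c3) / 3, by rcases hkc with rfl | rfl <;> omega⟩
      obtain ⟨lam, hlam, ht⟩ := tail b4 c3 kb kc β γ hb hc hkb hkc p m hm hs' hp3 hβ hγ
      have hL := (large b c b4 c3 kb kc β γ hb hc hbb hcc hkb hkc p m hp h30 (by omega) hs' hβ hγ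
        a1 a2 lam hlam).le hD
      have e3 := mul_le_mul_of_nonneg_right (ht.trans hL) hlp
      refine le_trans (le_of_eq ?_) e3
      ring
  have h4 := sum_le_sum key
  rw [sum_sub_distrib, sum_add_distrib, ← mul_sum] at h4
  have h5 : ∑ p ∈ (Ioc ⌊(0 : ℝ)⌋₊ ⌊(3 : ℝ) * m⌋₊).filter (fun p : ℕ => p.Prime ∧ p % 12 = a),
      (if p ≤ Nat.sqrt (300 * m) then 400 * m * Real.log (300 * m) else 0) ≤ (m : ℝ) ^ 2 := by
    rw [← sum_filter, sum_const, nsmul_eq_mul]
    refine le_trans (mul_le_mul_of_nonneg_right ?_ (by positivity)) h3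
    have : (((Ioc ⌊(0 : ℝ)⌋₊ ⌊(3 : ℝ) * m⌋₊).filter (fun p : ℕ => p.Prime ∧ p % 12 = a)).filter
        fun p => p ≤ Nat.sqrt (300 * m)) ⊆ range (Nat.sqrt (300 * m) + 1) := fun p hp =>
      mem_range.2 (Nat.lt_succ_of_le (mem_filter.1 hp).2)
    have := card_le_card this
    rw [card_range] at this
    exact_mod_cast this
  have h6 : -110 * (m : ℝ) ^ 2 * psum a 0 (3 * m) (fun p => Real.log p / ((p : ℝ) - 1)) +
      psum a 0 (3 * m) (fun p => (10 * (kap kb kc - 0.01) * m + -13 / 8 * p - 0) * Real.log p) -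
      (m : ℝ) ^ 2 ≤
      psum a 0 (3 * m) (fun p => (padicValRat p (DD b c a1 a2 m) : ℝ) * Real.log p) :=
    le_trans (sub_le_sub_left h5 _) h4
  have h7 : (7.5 * kap kb kc + cmid kb kc - 3.5) * (m : ℝ) ^ 2 =
      (7.5 * kap kb kc - 2.5) * (m : ℝ) ^ 2 + cmid kb kc * (m : ℝ) ^ 2 - (m : ℝ) ^ 2 := by
    norm_num; ring
  rw [h7]
  generalize (7.5 * kap kb kc - 2.5) * (m : ℝ) ^ 2 = A at *
  linarith

theorem classes (b4 c3 : ℤ) (hb : b4 = -1 ∨ b4 = -3) (hc : c3 = -1 ∨ c3 = -2) :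
    ∃ kb kc : ℕ → ℤ, (∀ a : ℕ, a = 1 ∨ a = 5 ∨ a = 7 ∨ a = 11 →
      (kb a = 1 ∨ kb a = 3) ∧ (kc a = 1 ∨ kc a = 2) ∧ (4 : ℤ) ∣ kb a * a + b4 ∧
        (3 : ℤ) ∣ kc a * a + c3) ∧
      7.5 * kap (kb 1) (kc 1) + cmid (kb 1) (kc 1) + (7.5 * kap (kb 5) (kc 5) + cmid (kb 5) (kc 5)) +
        (7.5 * kap (kb 7) (kc 7) + cmid (kb 7) (kc 7)) +
        (7.5 * kap (kb 11) (kc 11) + cmid (kb 11) (kc 11)) = -920.45 := by
  refine ⟨fun a => if (4 : ℤ) ∣ a + b4 then 1 else 3, fun a => if (3 : ℤ) ∣ a + c3 then 1 else 2,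
    ?_, ?_⟩
  · intro a ha
    rcases hb with rfl | rfl <;> rcases hc with rfl | rfl <;> rcases ha with rfl | rfl | rfl | rfl <;>
      decide
  · rcases hb with rfl | rfl <;> rcases hc with rfl | rfl <;> norm_num [kap, cmid]

end Arith

open Arith in
/-- lower bound for the logarithm of the determinant, given the primes 2 and 3 -/
theorem arith (b c : ℚ) (hb' : b = -1 / 4 ∨ b = -3 / 4) (hc' : c = -1 / 3 ∨ c = -2 / 3)
    (a1 a2 : ℤ) : ∀ᶠ m : ℕ in atTop, 0 < DD b c a1 a2 m →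
      V 2 (DD b c a1 a2 m) (267.7 * (m : ℝ) ^ 2) → V 3 (DD b c a1 a2 m) (184.9 * (m : ℝ) ^ 2) →
      -110 * (m : ℝ) ^ 2 * Real.log m - 471 * (m : ℝ) ^ 2 ≤ Real.log (DD b c a1 a2 m) := by
  obtain ⟨b4, hb, hbb⟩ : ∃ b4 : ℤ, (b4 = -1 ∨ b4 = -3) ∧ b = b4 / 4 := by
    rcases hb' with rfl | rfl
    · exact ⟨-1, by simp, by simp⟩
    · exact ⟨-3, by simp, by simp⟩
  obtain ⟨c3, hc, hcc⟩ : ∃ c3 : ℤ, (c3 = -1 ∨ c3 = -2) ∧ c = c3 / 3 := by
    rcases hc' with rfl | rfl
    · exact ⟨-1, by simp, by simp⟩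
    · exact ⟨-2, by simp, by simp⟩
  obtain ⟨kb, kc, hk, hsum⟩ := classes b4 c3 hb hc
  have h3m : Tendsto (fun m : ℕ => 3 * m) atTop atTop := tendsto_id.const_mul_atTop' (by norm_num)
  filter_upwards [cls_bound b c b4 c3 _ _ hb hc hbb hcc 1 (by simp) (hk 1 (by simp)) a1 a2,
    cls_bound b c b4 c3 _ _ hb hc hbb hcc 5 (by simp) (hk 5 (by simp)) a1 a2,
    cls_bound b c b4 c3 _ _ hb hc hbb hcc 7 (by simp) (hk 7 (by simp)) a1 a2,
    cls_bound b c b4 c3 _ _ hb hc hbb hcc 11 (by simp) (hk 11 (by simp)) a1 a2,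
    h3m.eventually mertens_upper, eventually_ge_atTop 1] with m g1 g5 g7 g11 hM hm hD h2 h3
  have h0 := log_ge_sum _ hD (300 * m) fun p hp hpm => big b c hb' hc' p hp m hm hpm a1 a2
  rw [split_primes _ (by omega)] at h0 hM
  have g1 := g1 hD.ne'
  have g5 := g5 hD.ne'
  have g7 := g7 hD.ne'
  have g11 := g11 hD.ne'
  have hm1 : (1 : ℝ) ≤ m := by exact_mod_cast hm
  have l2 := Real.log_two_gt_d9
  have l3 := Real.log_three_gt_d9
  have v2 := mul_le_mul_of_nonneg_right (h2.le hD.ne') (Real.log_natCast_nonneg 2)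
  have v3 := mul_le_mul_of_nonneg_right (h3.le hD.ne') (Real.log_natCast_nonneg 3)
  have e3 : Real.log ((3 * m : ℕ) : ℝ) = Real.log 3 + Real.log m := by
    push_cast
    exact Real.log_mul (by norm_num) (by positivity)
  rw [e3] at hM
  have hM' := mul_le_mul_of_nonneg_left hM (show 0 ≤ 110 * (m : ℝ) ^ 2 by positivity)
  have hs' : (7.5 * kap (kb 1) (kc 1) + cmid (kb 1) (kc 1) +
      (7.5 * kap (kb 5) (kc 5) + cmid (kb 5) (kc 5)) +
      (7.5 * kap (kb 7) (kc 7) + cmid (kb 7) (kc 7)) +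
      (7.5 * kap (kb 11) (kc 11) + cmid (kb 11) (kc 11))) * (m : ℝ) ^ 2 =
      -920.45 * (m : ℝ) ^ 2 := by rw [hsum]
  have q0 : 0 ≤ (m : ℝ) ^ 2 := by positivity
  have q2 := mul_le_mul_of_nonneg_left l2.le q0
  have q3 := mul_le_mul_of_nonneg_left l3.le q0
  norm_num at hM' v2 v3 h0 g1 g5 g7 g11 hs' q2 q3 ⊢
  linarith

end Pool.Agent.Caab
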