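import Mathlib

/-!
Definitions for the irrationality of `B(x,x) B(y,y) / B(x+y,x+y)` (MP_caab05_ag).
-/

namespace Pool.Agent.Caab

open Finset

/-- rising factorial `a (a+1) ... (a+N-1)` -/
def rf {K : Type*} [CommRing K] (a : K) (N : ℕ) : K := ∏ i ∈ range N, (a + (i : K))

/-- the terms of the well-poised series -/
noncomputable def tt (b c : ℝ) (k : ℕ) : ℝ := rf b k * rf c k / (rf (1 - b) k * rf (1 - c) k)

/-- the positive weight -/
noncomputable def ww (b c : ℝ) (m k : ℕ) : ℝ :=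
  rf ((k : ℝ) + 1) (9 * m) * rf b (k + 6 * m) * rf c (k + 6 * m) /
    (rf (1 - c) (k + 22 * m) * rf (1 - b) (k + 20 * m))

/-- majorant of the weight -/
noncomputable def wbar (m k : ℕ) : ℝ :=
  ((k + 9 * m).factorial : ℝ) * ((k + 6 * m).factorial : ℝ) * ((k + 6 * m).factorial : ℝ) /
    ((k.factorial : ℝ) * ((k + 22 * m).factorial : ℝ) * ((k + 20 * m).factorial : ℝ))

/-- comparison weight with an explicit Hankel determinant -/
noncomputable def wpr (m k : ℕ) : ℝ :=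
  ((k + 4 * m).factorial : ℝ) * ((k + 4 * m).factorial : ℝ) /
    ((k.factorial : ℝ) * ((k + 29 * m).factorial : ℝ))

/-- the explicit Hankel determinant of the comparison weight -/
noncomputable def detpr (m : ℕ) : ℝ :=
  ∏ i ∈ range (10 * m), ((((4 * m + i).factorial : ℝ) / ((25 * m - 1 - i).factorial : ℝ)) ^ 2 *
    (i.factorial : ℝ) * ((m + i).factorial : ℝ))

/-- Hankel determinant of a moment sequence -/
def hank {K : Type*} [CommRing K] (M : ℕ → K) (n : ℕ) : K :=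
  (Matrix.of fun i j : Fin n => M (i + j)).det

/-- the zeros of `y ↦ rf (y + 1 - a) N` -/
def Sset (a : ℚ) (N : ℕ) : Finset ℚ := (range N).image (fun j : ℕ => a - 1 - (j : ℚ))

def SS (b c : ℚ) (m : ℕ) : Finset ℚ := Sset c (22 * m) ∪ Sset b (20 * m)

def ZZ (b c : ℚ) (m : ℕ) (y : ℚ) : ℚ :=
  rf (y + 1) (9 * m) * rf (y + b) (6 * m) * rf (y + c) (6 * m)

def piS (b c : ℚ) (s : ℕ) (y : ℚ) : ℚ :=
  rf (y + 1 - b) s * rf (y + 1 - c) s / (rf (y + b) (s + 1) * rf (y + c) (s + 1))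

def XX (b c : ℚ) (m : ℕ) (η : ℚ → ℚ) (y : ℚ) : ℚ :=
  ∑ s ∈ range (22 * m), piS b c s y * η (y + s)

/-- divided difference of `f` on the finite set `Y` -/
def dd (f : ℚ → ℚ) (Y : Finset ℚ) : ℚ := ∑ y ∈ Y, f y / ∏ z ∈ Y.erase y, (y - z)

/-- the rational linear functional -/
def LL (b c : ℚ) (m : ℕ) (η R : ℚ → ℚ) : ℚ :=
  dd (fun y => ZZ b c m y * XX b c m η y * R y) (SS b c m)

def etaF (a1 a2 : ℚ) : ℚ → ℚ := fun y => a1 + a2 / (y + 1)

/-- the rational Hankel determinant -/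
def DD (b c a1 a2 : ℚ) (m : ℕ) : ℚ :=
  hank (fun l => LL b c m (etaF a1 a2) (fun y => y ^ l)) (10 * m)

/-- `q` has `p`-adic valuation at least `r` -/
def V (p : ℕ) (q : ℚ) (r : ℝ) : Prop := q = 0 ∨ r ≤ (padicValRat p q : ℝ)

/-- valuation of a run, a vanishing factor counting zero -/
def rv (p : ℕ) (a : ℚ) (N : ℕ) : ℤ := ∑ i ∈ range N, padicValRat p (a + (i : ℚ))

def hh (t : ℤ) : ℤ := if t < 0 then 0 else (t + 1) ^ 2 / 4

def ind (a b : ℤ) : ℤ := if a ≤ b then 1 else 0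

def phiStep (kb kc fb fc eb ec base θ r : ℤ) : ℤ :=
  if min (fb - ind (12 - 3 * kb) θ) (fc - ind (12 - 4 * kc) θ) + 1 ≤
      max (eb - ind (3 * kb) θ) (ec - ind (4 * kc) θ) then
    min r (base - 1 - ind (12 - 3 * kb) θ - ind (12 - 4 * kc) θ + ind (3 * kb) θ + ind (4 * kc) θ)
  else r

def Phi (kb kc a1 fb fc eb ec : ℤ) : ℤ :=
  phiStep kb kc fb fc eb ec (a1 + fb + fc - eb - ec) 0
    (phiStep kb kc fb fc eb ec (a1 + fb + fc - eb - ec) 3
      (phiStep kb kc fb fc eb ec (a1 + fb + fc - eb - ec) 4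
        (phiStep kb kc fb fc eb ec (a1 + fb + fc - eb - ec) 8
          (phiStep kb kc fb fc eb ec (a1 + fb + fc - eb - ec) 9
            (if min a1 (min fb fc) + 1 ≤ max eb ec then min 0 (a1 + fb + fc - eb - ec - 2)
              else 0)))))

/-- the `p`-adic potential on the residue class of `x` -/
def PhiX (kb kc β γ : ℤ) (p m x : ℕ) : ℤ :=
  Phi kb kc (((x : ℤ) + 9 * m) / p) (((x : ℤ) + β + 6 * m - 1) / p) (((x : ℤ) + γ + 6 * m - 1) / p)
    (((x : ℤ) - β + 20 * m) / p) (((x : ℤ) - γ + 22 * m) / p)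

/-- the lower bound for the valuation of the determinant at a large prime -/
def ebound (kb kc β γ : ℤ) (p m : ℕ) (lam : ℤ) : ℤ :=
  lam * (10 * m) - ∑ x ∈ range p, hh (lam - PhiX kb kc β γ p m x)

/-- sum over the primes `p ≡ a (mod 12)` with `lo < p ≤ hi` -/
noncomputable def psum (a : ℕ) (lo hi : ℝ) (f : ℕ → ℝ) : ℝ :=
  ∑ p ∈ (Ioc ⌊lo⌋₊ ⌊hi⌋₊).filter (fun p : ℕ => p.Prime ∧ p % 12 = a), f p

end Pool.Agent.Caab
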