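import Pool.Agent.Lib.MP_caab05_ag.Defs

/-!
The well-poised bilateral sum of Dougall, in the case needed for MP_caab05_ag.
-/

namespace Pool.Agent.Caab

open Finset Filter Topology

namespace Dougall

noncomputable def rr (b : ℝ) (k : ℕ) : ℝ := rf b k / rf (1 - b) k

lemma rf_succ (a : ℝ) (k : ℕ) : rf a (k + 1) = rf a k * (a + k) := by
  unfold rf; rw [prod_range_succ]

lemma rr_zero (b : ℝ) : rr b 0 = 1 := by simp [rr, rf]

lemma rr_succ (b : ℝ) (k : ℕ) : rr b (k + 1) = rr b k * ((b + k) / (1 - b + k)) := by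
  unfold rr; rw [rf_succ, rf_succ, mul_div_mul_comm]

lemma tt_eq (b c : ℝ) (k : ℕ) : tt b c k = rr b k * rr c k := by
  unfold tt rr; rw [mul_div_mul_comm]

lemma abs_add_le' {b : ℝ} (hb : b ≤ 0) (k : ℕ) : |b + k| ≤ k - b := by
  have : (0 : ℝ) ≤ k := Nat.cast_nonneg k
  rw [abs_le]; constructor <;> linarith

lemma abs_rr_succ {b : ℝ} (hb : b ≤ 0) (k : ℕ) :
    |rr b (k + 1)| * (1 - b + k) = |rr b k| * |b + k| := by
  have h0 : (0 : ℝ) ≤ k := Nat.cast_nonneg k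
  have hp : 0 < 1 - b + k := by linarith
  rw [rr_succ, abs_mul, abs_div, abs_of_pos hp]
  field_simp

lemma abs_rr_le_one {b : ℝ} (hb : b ≤ 0) (k : ℕ) : |rr b k| ≤ 1 := by
  induction k with
  | zero => simp [rr_zero]
  | succ k ih =>
    have h0 : (0 : ℝ) ≤ k := Nat.cast_nonneg k
    have hp : 0 < 1 - b + k := by linarith
    have h1 := abs_rr_succ hb k
    have h2 := abs_add_le' hb k
    have h3 : |rr b k| * |b + k| ≤ 1 * (1 - b + k) :=
      mul_le_mul ih (by linarith) (abs_nonneg _) zero_le_one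
    rw [← h1] at h3
    exact le_of_mul_le_mul_right h3 hp

lemma abs_rr_mul_le {b : ℝ} (hb : b ≤ 0) (k : ℕ) : |rr b k| * (k - b) ≤ -b := by
  induction k with
  | zero => simp [rr_zero]
  | succ k ih =>
    have h1 := abs_rr_succ hb k
    have h2 := abs_add_le' hb k
    have h3 : |rr b k| * |b + k| ≤ |rr b k| * (k - b) :=
      mul_le_mul_of_nonneg_left h2 (abs_nonneg _)
    have h4 : ((k + 1 : ℕ) : ℝ) - b = 1 - b + k := by push_cast; ring
    rw [h4]; linarith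

lemma tendsto_rr {b : ℝ} (hb : b ≤ 0) : Tendsto (rr b) atTop (𝓝 0) := by
  have h : Tendsto (fun k : ℕ => -b / (k : ℝ)) atTop (𝓝 0) :=
    tendsto_const_div_atTop_nhds_zero_nat (-b)
  refine squeeze_zero_norm' ?_ h
  filter_upwards [eventually_ge_atTop 1] with k hk
  have hk' : (0 : ℝ) < k := by exact_mod_cast hk
  rw [Real.norm_eq_abs, le_div_iff₀ hk']
  have h1 := abs_rr_mul_le hb k
  have h2 : |rr b k| * k ≤ |rr b k| * (k - b) :=
    mul_le_mul_of_nonneg_left (by linarith) (abs_nonneg _)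
  linarith

lemma summable_abs_rr {c : ℝ} (hc1 : -1 < c) (hc0 : c < 0) : Summable (fun k => |rr c k|) := by
  rw [← summable_nat_add_iff 1]
  have key : ∀ K : ℕ, (-2 * c) * ∑ k ∈ range K, |rr c (k + 1)| +
      |rr c (K + 1)| * (((K + 1 : ℕ) : ℝ) - c) ≤ -c := by
    intro K
    induction K with
    | zero => simpa using abs_rr_mul_le hc0.le 1
    | succ K ih =>
      have h1 := abs_rr_succ hc0.le (K + 1)
      have h0 : (0 : ℝ) ≤ K := Nat.cast_nonneg K
      have h2 : |c + ((K + 1 : ℕ) : ℝ)| = c + ((K + 1 : ℕ) : ℝ) := by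
        apply abs_of_nonneg; push_cast; linarith
      rw [h2] at h1
      have h4 : ((K + 1 + 1 : ℕ) : ℝ) - c = 1 - c + ((K + 1 : ℕ) : ℝ) := by push_cast; ring
      rw [sum_range_succ, h4, h1]
      nlinarith
  refine summable_of_sum_range_le (c := 1) (fun k => abs_nonneg _) (fun K => ?_)
  have h1 := key K
  have h0 : (0 : ℝ) ≤ K := Nat.cast_nonneg K
  have h2 : 0 ≤ |rr c (K + 1)| * (((K + 1 : ℕ) : ℝ) - c) := by
    apply mul_nonneg (abs_nonneg _); push_cast; linarith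
  have h3 : 0 ≤ ∑ k ∈ range K, |rr c (k + 1)| := sum_nonneg fun _ _ => abs_nonneg _
  nlinarith

lemma norm_tt_le {b : ℝ} (hb : b ≤ 0) (c : ℝ) (k : ℕ) : ‖tt b c k‖ ≤ |rr c k| := by
  rw [Real.norm_eq_abs, tt_eq, abs_mul]
  exact mul_le_of_le_one_left (abs_nonneg _) (abs_rr_le_one hb k)

lemma summable_tt {b c : ℝ} (hb : b ≤ 0) (hc1 : -1 < c) (hc0 : c < 0) : Summable (tt b c) :=
  Summable.of_norm_bounded (summable_abs_rr hc1 hc0) (norm_tt_le hb c)

lemma rr_shift {b : ℝ} (hb : b ≤ 0) (k : ℕ) :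
    rr b k * (1 - b) ^ 2 = -(rr (b - 1) k * (k + b - 1) * (k + 1 - b)) := by
  induction k with
  | zero => simp [rr_zero]; ring
  | succ k ih =>
    have h0 : (0 : ℝ) ≤ k := Nat.cast_nonneg k
    have hp : 1 - b + k ≠ 0 := by linarith
    have hq : 1 - (b - 1) + k ≠ 0 := by linarith
    rw [rr_succ, rr_succ, mul_right_comm, ih]
    push_cast
    field_simp
    ring

/-- the certificate of the contiguous relation -/
noncomputable def GG (b c : ℝ) (k : ℕ) : ℝ :=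
  -(rr (b - 1) k * (k + 1 - b) * (2 * k - 1)) * (rr c k * (k - c)) / (2 * (1 - b))

lemma contig_term {b c : ℝ} (hb : b ≤ 0) (hc : c ≤ 0) (k : ℕ) :
    tt (b - 1) c k * ((1 - 2 * b) * (1 - b - c)) - tt b c k * ((1 - b) * (1 - 2 * b - 2 * c)) =
      GG b c (k + 1) - GG b c k := by
  have h0 : (0 : ℝ) ≤ k := Nat.cast_nonneg k
  have hp : 1 - b ≠ 0 := by linarith
  have hq : 1 - (b - 1) + k ≠ 0 := by linarith
  have hr : 1 - c + k ≠ 0 := by linarith
  have h1 : rr b k = -(rr (b - 1) k * (k + b - 1) * (k + 1 - b)) / (1 - b) ^ 2 := by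
    rw [← rr_shift hb k]; field_simp
  unfold GG
  rw [tt_eq, tt_eq, h1, rr_succ, rr_succ]
  push_cast
  field_simp
  ring

lemma tendsto_GG {b c : ℝ} (hb : b ≤ 0) (hc : c ≤ 0) : Tendsto (GG b c) atTop (𝓝 0) := by
  have hp : 0 < 1 - b := by linarith
  have h1 : Tendsto (fun k : ℕ => |rr b k| * (2 * (1 - b) * (-c))) atTop (𝓝 0) := by
    have := ((tendsto_rr hb).abs).mul_const (2 * (1 - b) * (-c))
    simpa using this
  refine squeeze_zero_norm' ?_ h1
  obtain ⟨N, hN⟩ := exists_nat_ge (2 * (1 - b))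
  filter_upwards [eventually_ge_atTop N] with k hk
  have hk' : (N : ℝ) ≤ k := by exact_mod_cast hk
  have hk2 : 2 * (1 - b) ≤ k := hN.trans hk'
  have ha : 0 < (k : ℝ) + b - 1 := by linarith
  have h2 : rr (b - 1) k * (k + 1 - b) = -(rr b k * (1 - b) ^ 2) / (k + b - 1) := by
    rw [rr_shift hb k]; field_simp
  have h3 := abs_rr_mul_le hc k
  have h4 : GG b c k = rr b k * (1 - b) / 2 * ((2 * k - 1) / (k + b - 1)) * (rr c k * (k - c)) := by
    unfold GG
    rw [h2]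
    field_simp
  have h5 : |(2 * (k : ℝ) - 1) / (k + b - 1)| ≤ 4 := by
    rw [abs_of_nonneg (div_nonneg (by linarith) ha.le), div_le_iff₀ ha]
    linarith
  have h6 : |rr c k * (k - c)| ≤ -c := by
    rw [abs_mul, abs_of_nonneg (show (0 : ℝ) ≤ k - c by linarith)]
    exact h3
  rw [Real.norm_eq_abs, h4, abs_mul, abs_mul, abs_div, abs_mul, abs_of_pos hp,
    abs_of_pos (show (0 : ℝ) < 2 by norm_num)]
  have h7 : 0 ≤ |rr b k| * (1 - b) / 2 := by positivity
  calc |rr b k| * (1 - b) / 2 * |(2 * (k : ℝ) - 1) / (k + b - 1)| * |rr c k * (k - c)|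
      ≤ |rr b k| * (1 - b) / 2 * 4 * (-c) := by
        apply mul_le_mul (mul_le_mul_of_nonneg_left h5 h7) h6 (abs_nonneg _)
        positivity
    _ = |rr b k| * (2 * (1 - b) * (-c)) := by ring

noncomputable def HH (b c : ℝ) : ℝ := 2 * ∑' k, tt b c k - 1

lemma contig_H {b c : ℝ} (hb : b ≤ 0) (hc1 : -1 < c) (hc0 : c < 0) :
    HH (b - 1) c * ((1 - 2 * b) * (1 - b - c)) = HH b c * ((1 - b) * (1 - 2 * b - 2 * c)) := by
  have hp : 1 - b ≠ 0 := by linarith
  have s1 := (summable_tt (b := b - 1) (by linarith) hc1 hc0).hasSum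
  have s2 := (summable_tt hb hc1 hc0).hasSum
  have s3 := ((s1.mul_right ((1 - 2 * b) * (1 - b - c))).sub
    (s2.mul_right ((1 - b) * (1 - 2 * b - 2 * c)))).tendsto_sum_nat
  have s4 : Tendsto (fun K : ℕ => GG b c K - GG b c 0) atTop (𝓝 (0 - GG b c 0)) :=
    (tendsto_GG hb hc0.le).sub_const _
  have s5 : (fun K : ℕ => ∑ k ∈ range K, (tt (b - 1) c k * ((1 - 2 * b) * (1 - b - c)) -
      tt b c k * ((1 - b) * (1 - 2 * b - 2 * c)))) = fun K : ℕ => GG b c K - GG b c 0 := by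
    funext K
    rw [← sum_range_sub (GG b c)]
    exact sum_congr rfl fun k _ => contig_term hb hc0.le k
  rw [s5] at s3
  have s6 := tendsto_nhds_unique s3 s4
  have s7 : GG b c 0 = -c / 2 := by
    unfold GG
    simp only [rr_zero, Nat.cast_zero]
    field_simp
    ring
  rw [s7] at s6
  unfold HH
  linear_combination 2 * s6

noncomputable def xi (b c : ℝ) : ℝ :=
  Real.Gamma (1 - b) ^ 2 * Real.Gamma (1 - c) ^ 2 * Real.Gamma (1 - 2 * b - 2 * c) /
    (Real.Gamma (1 - 2 * b) * Real.Gamma (1 - 2 * c) * Real.Gamma (1 - b - c) ^ 2)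

lemma xi_pos {b c : ℝ} (hb : b ≤ 0) (hc : c ≤ 0) : 0 < xi b c := by
  have h1 := Real.Gamma_pos_of_pos (s := 1 - b) (by linarith)
  have h2 := Real.Gamma_pos_of_pos (s := 1 - c) (by linarith)
  have h3 := Real.Gamma_pos_of_pos (s := 1 - 2 * b - 2 * c) (by linarith)
  have h4 := Real.Gamma_pos_of_pos (s := 1 - 2 * b) (by linarith)
  have h5 := Real.Gamma_pos_of_pos (s := 1 - 2 * c) (by linarith)
  have h6 := Real.Gamma_pos_of_pos (s := 1 - b - c) (by linarith)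
  unfold xi
  positivity

lemma contig_xi {b c : ℝ} (hb : b ≤ 0) (hc : c ≤ 0) :
    xi (b - 1) c * ((1 - 2 * b) * (1 - b - c)) = xi b c * ((1 - b) * (1 - 2 * b - 2 * c)) := by
  have h4 := (Real.Gamma_pos_of_pos (s := 1 - 2 * b) (by linarith)).ne'
  have h5 := (Real.Gamma_pos_of_pos (s := 1 - 2 * c) (by linarith)).ne'
  have h6 := (Real.Gamma_pos_of_pos (s := 1 - b - c) (by linarith)).ne'
  have n1 : 1 - b ≠ 0 := by linarith
  have n2 : 1 - 2 * b ≠ 0 := by linarith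
  have n3 : 1 - b - c ≠ 0 := by linarith
  have n4 : 1 - 2 * b - 2 * c ≠ 0 := by linarith
  have n5 : 1 - 2 * b + 1 ≠ 0 := by linarith
  have n6 : 1 - 2 * b - 2 * c + 1 ≠ 0 := by linarith
  have e1 : Real.Gamma (1 - (b - 1)) = (1 - b) * Real.Gamma (1 - b) := by
    rw [← Real.Gamma_add_one n1]; congr 1; ring
  have e2 : Real.Gamma (1 - (b - 1) - c) = (1 - b - c) * Real.Gamma (1 - b - c) := by
    rw [← Real.Gamma_add_one n3]; congr 1; ring
  have e3 : Real.Gamma (1 - 2 * (b - 1)) =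
      (1 - 2 * b + 1) * ((1 - 2 * b) * Real.Gamma (1 - 2 * b)) := by
    rw [← Real.Gamma_add_one n2, ← Real.Gamma_add_one n5]; congr 1; ring
  have e4 : Real.Gamma (1 - 2 * (b - 1) - 2 * c) =
      (1 - 2 * b - 2 * c + 1) * ((1 - 2 * b - 2 * c) * Real.Gamma (1 - 2 * b - 2 * c)) := by
    rw [← Real.Gamma_add_one n4, ← Real.Gamma_add_one n6]; congr 1; ring
  have e5 : 1 - 2 * b + 1 = 2 * (1 - b) := by ring
  have e6 : 1 - 2 * b - 2 * c + 1 = 2 * (1 - b - c) := by ring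
  unfold xi
  rw [e1, e2, e3, e4, e5, e6]
  generalize Real.Gamma (1 - 2 * b) = G1 at *
  generalize Real.Gamma (1 - 2 * c) = G2 at *
  generalize Real.Gamma (1 - b - c) = G3 at *
  generalize Real.Gamma (1 - 2 * b - 2 * c) = G4 at *
  generalize 1 - 2 * b - 2 * c = u at *
  generalize 1 - 2 * b = v at *
  field_simp

lemma ratio_step {b c : ℝ} (hb : b ≤ 0) (hc1 : -1 < c) (hc0 : c < 0) :
    HH (b - 1) c / xi (b - 1) c = HH b c / xi b c := by
  have h1 := contig_H hb hc1 hc0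
  have h2 := contig_xi hb hc0.le
  have h3 := (xi_pos hb hc0.le).ne'
  have h4 := (xi_pos (b := b - 1) (by linarith) hc0.le).ne'
  have h5 : (1 - 2 * b) * (1 - b - c) ≠ 0 := by
    apply mul_ne_zero <;> linarith
  rw [div_eq_div_iff h4 h3]
  apply mul_right_cancel₀ h5
  linear_combination xi b c * h1 - HH b c * h2

lemma ratio_shift {b c : ℝ} (hb : b ≤ 0) (hc1 : -1 < c) (hc0 : c < 0) (m : ℕ) :
    HH (b - m) c / xi (b - m) c = HH b c / xi b c := by
  induction m with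
  | zero => simp
  | succ m ih =>
    have h0 : (0 : ℝ) ≤ m := Nat.cast_nonneg m
    have e : b - ((m + 1 : ℕ) : ℝ) = b - m - 1 := by push_cast; ring
    rw [e, ratio_step (by linarith) hc1 hc0, ih]

lemma tendsto_rr_shift {b : ℝ} (hb : b ≤ 0) (k : ℕ) :
    Tendsto (fun m : ℕ => rr (b - m) k) atTop (𝓝 ((-1) ^ k)) := by
  induction k with
  | zero => simp [rr_zero]
  | succ k ih =>
    have h0 : (0 : ℝ) ≤ k := Nat.cast_nonneg k
    have h1 : Tendsto (fun m : ℕ => (1 + 2 * (k : ℝ)) / (1 - b + k + m)) atTop (𝓝 0) := by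
      apply Tendsto.div_atTop tendsto_const_nhds
      exact tendsto_atTop_add_const_left _ _ tendsto_natCast_atTop_atTop
    have h2 : Tendsto (fun m : ℕ => rr (b - m) k * (-1 + (1 + 2 * (k : ℝ)) / (1 - b + k + m)))
        atTop (𝓝 ((-1) ^ k * (-1 + 0))) := ih.mul (h1.const_add _)
    have h3 : ((-1 : ℝ)) ^ k * (-1 + 0) = (-1) ^ (k + 1) := by ring
    rw [h3] at h2
    refine h2.congr fun m => ?_
    have hm : (0 : ℝ) ≤ m := Nat.cast_nonneg m
    have n1 : 1 - b + k + m ≠ 0 := by linarith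
    have n2 : 1 - (b - m) + k ≠ 0 := by linarith
    rw [rr_succ]
    congr 1
    field_simp
    ring

lemma tendsto_H {b c : ℝ} (hb : b ≤ 0) (hc1 : -1 < c) (hc0 : c < 0) :
    Tendsto (fun m : ℕ => HH (b - m) c) atTop (𝓝 (2 * ∑' k, (-1) ^ k * rr c k - 1)) := by
  unfold HH
  refine Tendsto.sub_const (Tendsto.const_mul _ ?_) _
  refine tendsto_tsum_of_dominated_convergence (summable_abs_rr hc1 hc0) (fun k => ?_) ?_
  · simp only [tt_eq]
    exact (tendsto_rr_shift hb k).mul_const _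
  · refine Eventually.of_forall fun m k => norm_tt_le ?_ c k
    have hm : (0 : ℝ) ≤ m := Nat.cast_nonneg m
    linarith

lemma Gamma_add_nat {s : ℝ} (hs : 0 < s) (n : ℕ) :
    Real.Gamma (s + n) = Real.Gamma s * ∏ j ∈ range n, (s + j) := by
  induction n with
  | zero => simp
  | succ n ih =>
    have h0 : (0 : ℝ) ≤ n := Nat.cast_nonneg n
    have e : s + ((n + 1 : ℕ) : ℝ) = s + n + 1 := by push_cast; ring
    rw [e, Real.Gamma_add_one (by linarith), ih, prod_range_succ]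
    ring

noncomputable def AA (s : ℝ) (n : ℕ) : ℝ :=
  Real.Gamma (s + n + 1) / ((n : ℝ) ^ s * n.factorial)

lemma tendsto_AA {s : ℝ} (hs : 0 < s) : Tendsto (AA s) atTop (𝓝 1) := by
  have hG := (Real.Gamma_pos_of_pos hs).ne'
  have h1 : Tendsto (fun n => Real.Gamma s / Real.GammaSeq s n) atTop
      (𝓝 (Real.Gamma s / Real.Gamma s)) :=
    tendsto_const_nhds.div (Real.GammaSeq_tendsto_Gamma s) hG
  rw [div_self hG] at h1
  refine h1.congr fun n => ?_
  have e : s + n + 1 = s + ((n + 1 : ℕ) : ℝ) := by push_cast; ring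
  unfold AA Real.GammaSeq
  rw [e, Gamma_add_nat hs, div_div_eq_mul_div]

lemma tendsto_xi {b c : ℝ} (hb : b ≤ 0) (hc : c ≤ 0) :
    Tendsto (fun m : ℕ => xi (b - m) c) atTop
      (𝓝 (Real.Gamma (1 - c) ^ 2 / Real.Gamma (1 - 2 * c) * 2 ^ (-2 * c))) := by
  rw [← tendsto_add_atTop_iff_nat 1]
  have d2 : Tendsto (fun n : ℕ => 2 * n) atTop atTop :=
    tendsto_atTop_mono (fun n => by simp only [id]; omega) tendsto_id
  have a1 := tendsto_AA (s := 1 - b) (by linarith)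
  have a2 := tendsto_AA (s := 1 - b - c) (by linarith)
  have a3 := (tendsto_AA (s := 2 - 2 * b - 2 * c) (by linarith)).comp d2
  have a4 := (tendsto_AA (s := 2 - 2 * b) (by linarith)).comp d2
  have h := (((a1.pow 2).mul a3).div (a4.mul (a2.pow 2)) (by norm_num)).const_mul
    (Real.Gamma (1 - c) ^ 2 / Real.Gamma (1 - 2 * c) * 2 ^ (-2 * c))
  have e0 : Real.Gamma (1 - c) ^ 2 / Real.Gamma (1 - 2 * c) * 2 ^ (-2 * c) *
      ((1 : ℝ) ^ 2 * 1 / (1 * 1 ^ 2)) =
      Real.Gamma (1 - c) ^ 2 / Real.Gamma (1 - 2 * c) * 2 ^ (-2 * c) := by norm_num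
  rw [e0] at h
  refine h.congr' ?_
  filter_upwards [eventually_ge_atTop 1] with n hn
  have hn' : (0 : ℝ) < n := by exact_mod_cast hn
  have e1 : 1 - (b - ((n + 1 : ℕ) : ℝ)) = 1 - b + n + 1 := by push_cast; ring
  have e2 : 1 - b + n + 1 - c = 1 - b - c + n + 1 := by ring
  have e3 : 1 - 2 * (b - ((n + 1 : ℕ) : ℝ)) = 2 - 2 * b + ((2 * n : ℕ) : ℝ) + 1 := by
    push_cast; ring
  have e4 : 2 - 2 * b + ((2 * n : ℕ) : ℝ) + 1 - 2 * c =
      2 - 2 * b - 2 * c + ((2 * n : ℕ) : ℝ) + 1 := by ring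
  have p1 : (n : ℝ) ^ (1 - b - c) = (n : ℝ) ^ (1 - b) * (n : ℝ) ^ (-c) := by
    rw [← Real.rpow_add hn']; congr 1
  have p2 : ((2 * n : ℕ) : ℝ) ^ (2 - 2 * b - 2 * c) =
      ((2 * n : ℕ) : ℝ) ^ (2 - 2 * b) * (2 ^ (-2 * c) * ((n : ℝ) ^ (-c)) ^ 2) := by
    have q1 : ((n : ℝ) ^ (-c)) ^ 2 = (n : ℝ) ^ (-2 * c) := by
      rw [sq, ← Real.rpow_add hn']; congr 1; ring
    have q2 : (0 : ℝ) < ((2 * n : ℕ) : ℝ) := by push_cast; linarith
    rw [q1, ← Real.mul_rpow (by norm_num) hn'.le]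
    have q3 : (2 * (n : ℝ)) = ((2 * n : ℕ) : ℝ) := by push_cast; ring
    rw [q3, ← Real.rpow_add q2]; congr 1; ring
  have g1 := (Real.Gamma_pos_of_pos (s := 1 - 2 * c) (by linarith)).ne'
  have g2 := (Real.Gamma_pos_of_pos (s := 1 - b - c + n + 1) (by linarith)).ne'
  have q2 : (0 : ℝ) < ((2 * n : ℕ) : ℝ) := by push_cast; linarith
  have g3 := (Real.Gamma_pos_of_pos (s := 2 - 2 * b + ((2 * n : ℕ) : ℝ) + 1) (by linarith)).ne'
  have r1 := (Real.rpow_pos_of_pos hn' (1 - b)).ne'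
  have r2 := (Real.rpow_pos_of_pos hn' (-c)).ne'
  have r3 := (Real.rpow_pos_of_pos q2 (2 - 2 * b)).ne'
  have r4 := (Real.rpow_pos_of_pos (show (0 : ℝ) < 2 by norm_num) (-2 * c)).ne'
  have f1 : ((n.factorial : ℕ) : ℝ) ≠ 0 := by exact_mod_cast n.factorial_ne_zero
  have f2 : (((2 * n).factorial : ℕ) : ℝ) ≠ 0 := by exact_mod_cast (2 * n).factorial_ne_zero
  simp only [Pi.div_apply, Function.comp_apply]
  unfold xi AA
  rw [e1, e2, e3, e4, p1, p2]
  field_simp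

lemma HH_zero (c : ℝ) : HH 0 c = 1 := by
  unfold HH
  rw [tsum_eq_single 0]
  · simp [tt, rf]; norm_num
  · intro k hk
    obtain ⟨j, rfl⟩ := Nat.exists_eq_succ_of_ne_zero hk
    have : rf (0 : ℝ) (j + 1) = 0 := by
      unfold rf; rw [prod_range_succ']; simp
    unfold tt
    rw [this]; simp

lemma xi_zero {c : ℝ} (hc : c ≤ 0) : xi 0 c = 1 := by
  have g1 := (Real.Gamma_pos_of_pos (s := 1 - 2 * c) (by linarith)).ne'
  have g2 := (Real.Gamma_pos_of_pos (s := 1 - c) (by linarith)).ne'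
  unfold xi
  simp only [sub_zero, mul_zero, Real.Gamma_one]
  generalize Real.Gamma (1 - 2 * c) = G2 at *
  field_simp

lemma HH_eq_xi {b c : ℝ} (hb : b ≤ 0) (hc1 : -1 < c) (hc0 : c < 0) : HH b c = xi b c := by
  have hL : Real.Gamma (1 - c) ^ 2 / Real.Gamma (1 - 2 * c) * 2 ^ (-2 * c) ≠ 0 := by
    have g1 := Real.Gamma_pos_of_pos (s := 1 - 2 * c) (by linarith)
    have g2 := Real.Gamma_pos_of_pos (s := 1 - c) (by linarith)
    positivity
  have key : ∀ b : ℝ, b ≤ 0 → HH b c / xi b c = (2 * ∑' k, (-1) ^ k * rr c k - 1) /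
      (Real.Gamma (1 - c) ^ 2 / Real.Gamma (1 - 2 * c) * 2 ^ (-2 * c)) := by
    intro b hb
    have h := (tendsto_H hb hc1 hc0).div (tendsto_xi hb hc0.le) hL
    have h2 : ((fun m : ℕ => HH (b - m) c) / fun m : ℕ => xi (b - m) c) =
        fun _ => HH b c / xi b c := by
      funext m
      exact ratio_shift hb hc1 hc0 m
    rw [h2] at h
    exact tendsto_nhds_unique tendsto_const_nhds h
  have h1 := key b hb
  rw [← key 0 le_rfl, HH_zero, xi_zero hc0.le, div_one,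
    div_eq_one_iff_eq (xi_pos hb hc0.le).ne'] at h1
  exact h1

end Dougall

theorem dougall (b c : ℝ) (hb1 : -1 < b) (hb0 : b < 0) (hc1 : -1 < c) (hc0 : c < 0) :
    HasSum (tt b c) ((1 + Real.Gamma (1 - b) ^ 2 * Real.Gamma (1 - c) ^ 2 * Real.Gamma (1 - 2 * b - 2 * c) /
      (Real.Gamma (1 - 2 * b) * Real.Gamma (1 - 2 * c) * Real.Gamma (1 - b - c) ^ 2)) / 2) := by
  have _h0 := hb1
  have h1 := Dougall.HH_eq_xi hb0.le hc1 hc0
  have h2 := (Dougall.summable_tt hb0.le hc1 hc0).hasSum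
  unfold Dougall.HH Dougall.xi at h1
  rw [← h1]
  convert h2 using 1
  ring

end Pool.Agent.Caab
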