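import Pool.Agent.Lib.MP_caab05_ag.Tools

/-! Factorial series expansion of `XX`, used at the primes 2 and 3. -/

namespace Pool.Agent.Caab

open Finset

/-- coefficients of the factorial series -/
def aco (g h a1 a2 : ℚ) : ℕ → ℚ
  | 0 => a1 / (2 * g + 2 * h - 1)
  | j + 1 => (a2 * rf g j + (j + g + h) * (j + 2 * g) * aco g h a1 a2 j) /
      (j + 1 + (2 * g + 2 * h - 1))

/-- the remainder of the factorial series -/
def errF (g h a1 a2 : ℚ) (J : ℕ) (y : ℚ) : ℚ :=
  a2 * rf g J / (rf (y + g + 1) J * (y + 1)) +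
    (J + g + h) * (J + 2 * g) * aco g h a1 a2 J / rf (y + g + 1) (J + 1)

theorem etaF_expand {g h : ℚ} (a1 a2 : ℚ) (hα : ∀ j : ℕ, (j : ℚ) + (2 * g + 2 * h - 1) ≠ 0)
    {y : ℚ} (hy : ∀ z : ℤ, y + g ≠ z) (hy1 : y + 1 ≠ 0) (J : ℕ) :
    etaF a1 a2 y = (y + g) * (y + h) * (∑ j ∈ range (J + 1), aco g h a1 a2 j / rf (y + g) (j + 1)) -
      (y + 1 - g) * (y + 1 - h) * (∑ j ∈ range (J + 1), aco g h a1 a2 j / rf (y + 1 + g) (j + 1)) +
      errF g h a1 a2 J y := by
  have n0 : y + g ≠ 0 := by simpa using hy 0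
  have hy' : ∀ z : ℤ, y + g + 1 ≠ z := fun z e => hy (z - 1) (by push_cast; linarith)
  have e1 : y + 1 + g = y + g + 1 := by ring
  rw [e1]
  induction J with
  | zero =>
    have n1 := hα 0
    have n2 : y + g + 1 ≠ 0 := by simpa using hy' 0
    simp only [Nat.cast_zero, zero_add] at n1
    have hA : a1 = aco g h a1 a2 0 * (2 * g + 2 * h - 1) := by rw [aco, div_mul_cancel₀ _ n1]
    simp only [etaF, errF, zero_add, sum_range_one, rf_succ, rf_zero, Nat.cast_zero, add_zero,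
      one_mul, mul_one]
    generalize aco g h a1 a2 0 = A at hA
    rw [hA]
    field_simp
    ring
  | succ J ih =>
    rw [ih, sum_range_succ _ (J + 1), sum_range_succ _ (J + 1)]
    have n1 := hα (J + 1)
    push_cast at n1
    have n2 := rf_ne_zero hy' J
    have n3 : y + g + 1 + J ≠ 0 := fun e => hy' (-(J : ℤ)) (by push_cast; linarith)
    have n4 : y + g + 1 + (J + 1) ≠ 0 := fun e => hy' (-(J : ℤ) - 1) (by push_cast; linarith)
    have hA : a2 * rf g J = aco g h a1 a2 (J + 1) * (J + 1 + (2 * g + 2 * h - 1)) -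
        (J + g + h) * (J + 2 * g) * aco g h a1 a2 J := by
      rw [aco, div_mul_cancel₀ _ n1]; ring
    simp only [errF]
    rw [rf_succ' (y + g) (J + 1), rf_succ (y + g + 1) (J + 1), rf_succ (y + g + 1) J, rf_succ g J,
      ← mul_assoc a2, hA]
    push_cast
    field_simp
    ring

theorem XX_expand {b c g h : ℚ} (hP : Par b c) (hgh : (g = b ∧ h = c) ∨ (g = c ∧ h = b))
    (a1 a2 : ℚ) (hα : ∀ j : ℕ, (j : ℚ) + (2 * g + 2 * h - 1) ≠ 0) {m : ℕ} {y : ℚ}
    (hy : y ∈ SS b c m) (J : ℕ) :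
    XX b c m (etaF a1 a2) y = ∑ j ∈ range (J + 1), aco g h a1 a2 j / rf (y + g) (j + 1) +
      XX b c m (errF g h a1 a2 J) y := by
  rw [← hP.tele hy (fun y => ∑ j ∈ range (J + 1), aco g h a1 a2 j / rf (y + g) (j + 1))]
  simp only [XX, ← sum_add_distrib, ← mul_add]
  refine sum_congr rfl fun s _ => ?_
  have h1 : ∀ z : ℤ, y + g ≠ z := by
    rcases hgh with ⟨rfl, -⟩ | ⟨rfl, -⟩
    · exact hP.add_b_ne hy
    · exact hP.add_c_ne hy
  rw [etaF_expand (h := h) a1 a2 hα (y := y + s) (fun z e => h1 (z - s) (by push_cast; linarith))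
    (fun e => hP.add_one_ne hy (-(s : ℤ)) (by push_cast; linarith)) J]
  rcases hgh with ⟨rfl, rfl⟩ | ⟨rfl, rfl⟩
  · rfl
  · congr 1; ring

theorem V_rf {p : ℕ} [Fact p.Prime] {d : ℕ} (hd : Nat.Coprime d p) {a : ℚ} {a' : ℤ}
    (ha : (d : ℚ) * a = a') (N L : ℕ) (hN : N ≤ p ^ (L + 1)) :
    V p (rf a N) (N / ((p : ℝ) - 1) - L - 2) :=
  V.of_ne fun hne => by rw [val_rf hne]; exact rv_ge hd ha N L hN hne

theorem V_aco {p : ℕ} [hp : Fact p.Prime] {d : ℕ} (hd : Nat.Coprime d p) {g h : ℚ} {g' : ℤ}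
    (hg : (d : ℚ) * g = g') (a1 a2 : ℤ) {σ : ℝ} (hσ : 0 ≤ σ)
    (hα : ∀ j : ℕ, padicValRat p ((j : ℚ) + (2 * g + 2 * h - 1)) = -1)
    (hγ : ∀ j : ℕ, V p ((j : ℚ) + g + h) (-1 - σ)) (L j : ℕ) (hj : j ≤ p ^ (L + 1)) :
    V p (aco g h a1 a2 j) (j / ((p : ℝ) - 1) - σ * j - 2 * L - 5) := by
  have h2 : (2 : ℝ) ≤ p := by exact_mod_cast hp.out.two_le
  have hL : (0 : ℝ) ≤ L := by positivity
  have key : ∀ i k : ℕ, i + k ≤ p ^ (L + 1) → V p (aco g h a1 a2 i * rf (i + 2 * g) k)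
      ((i + k) / ((p : ℝ) - 1) - σ * i - 2 * L - 5) := by
    intro i
    induction i with
    | zero =>
      intro k hk
      have h0 := hα 0
      simp only [Nat.cast_zero, zero_add] at h0 hk ⊢
      have h1 := ((V.int (p := p) a1).div (q' := 2 * g + 2 * h - 1) (s := -1) (by simp [h0])).mul
        (V_rf hd (a := 2 * g) (a' := 2 * g') (by push_cast; linear_combination 2 * hg) k L hk)
      exact h1.mono (by linarith)
    | succ i ih =>
      intro k hk
      have h0 := hα (i + 1)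
      push_cast at h0 ⊢
      have e : aco g h a1 a2 (i + 1) * rf (i + 1 + 2 * g) k =
          (a2 * (rf g i * rf (i + 1 + 2 * g) k) +
            (i + g + h) * (aco g h a1 a2 i * rf (i + 2 * g) (k + 1))) /
            (i + 1 + (2 * g + 2 * h - 1)) := by
        rw [aco, rf_succ', add_right_comm (i : ℚ) (2 * g) 1]; ring
      rw [e]
      have t1 := (V.int (p := p) a2).zero_mul' ((V_rf hd hg i L (by omega)).mul
        (V_rf hd (a := i + 1 + 2 * g) (a' := d * (i + 1) + 2 * g')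
          (by push_cast; linear_combination 2 * hg) k L (by omega)))
      have t2 := (hγ i).mul (ih (k + 1) (by omega))
      push_cast at t2
      have e2 : ((i : ℝ) + 1 + k) / ((p : ℝ) - 1) = i / ((p : ℝ) - 1) + k / ((p : ℝ) - 1) +
          1 / ((p : ℝ) - 1) := by ring
      have e3 : ((i : ℝ) + (k + 1)) / ((p : ℝ) - 1) = ((i : ℝ) + 1 + k) / ((p : ℝ) - 1) := by ring
      have e4 : 1 / ((p : ℝ) - 1) ≤ 1 := by rw [div_le_one (by linarith)]; linarith
      have e5 : 0 ≤ σ * (i + 1) := by positivity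
      have := ((t1.mono (s := ((i : ℝ) + 1 + k) / ((p : ℝ) - 1) - σ * (i + 1) - 2 * L - 6)
        (by linarith)).add (t2.mono (by rw [e3]; linarith))).div
        (q' := i + 1 + (2 * g + 2 * h - 1)) (s := -1) (by rw [h0]; simp)
      exact this.mono (by linarith)
  simpa using key j 0 (by simpa using hj)

end Pool.Agent.Caab
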