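import Pool.Agent.Lib.MP_caab05_ag.Defs

/-! Moments of the weight `ww` are values of the rational functional `LL`. -/

open Finset Filter Topology

namespace Pool.Agent.Caab

namespace Identity

theorem rf_succ {K : Type*} [CommRing K] (a : K) (N : ℕ) : rf a (N + 1) = rf a N * (a + N) := by
  unfold rf; rw [prod_range_succ]

theorem rf_succ' {K : Type*} [CommRing K] (a : K) (N : ℕ) :
    rf a (N + 1) = a * rf (a + 1) N := by
  unfold rf
  rw [prod_range_succ', mul_comm]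
  congr 1
  · simp
  · refine prod_congr rfl fun i _ => ?_
    push_cast; ring

theorem rf_add {K : Type*} [CommRing K] (a : K) (k N : ℕ) :
    rf a (k + N) = rf a k * rf (a + k) N := by
  unfold rf
  rw [prod_range_add]
  congr 1
  refine prod_congr rfl fun i _ => ?_
  push_cast; ring

theorem rf_cast (a : ℚ) (N : ℕ) : ((rf a N : ℚ) : ℝ) = rf (a : ℝ) N := by
  unfold rf; push_cast; rfl

theorem rf_pos {a : ℝ} (ha : 0 < a) (N : ℕ) : 0 < rf a N :=
  prod_pos fun i _ => by positivity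

theorem rf_one (N : ℕ) : rf (1 : ℝ) N = N.factorial := by
  induction N with
  | zero => simp [rf]
  | succ N ih => rw [rf_succ, ih, Nat.factorial_succ]; push_cast; ring

theorem fact_le_rf {a : ℝ} (ha : 1 ≤ a) (N : ℕ) : (N.factorial : ℝ) ≤ rf a N := by
  rw [← rf_one]
  exact prod_le_prod (fun i _ => by positivity) fun i _ => by linarith

theorem rf_neg {b : ℝ} (hb1 : -1 < b) (hb0 : b < 0) (N : ℕ) : rf b (N + 1) < 0 := by
  rw [rf_succ']
  exact mul_neg_of_neg_of_pos hb0 (rf_pos (by linarith) N)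

theorem abs_rf_le {b a : ℝ} (hb1 : -1 < b) (hb0 : b < 0) (ha : b + 1 ≤ a) (N : ℕ) :
    |rf b (N + 1)| ≤ rf a N := by
  have h1 : 0 < rf (b + 1) N := rf_pos (by linarith) N
  have h2 : rf (b + 1) N ≤ rf a N :=
    prod_le_prod (fun i _ => by have : (0 : ℝ) ≤ i := Nat.cast_nonneg i; linarith)
      fun i _ => by linarith
  rw [rf_succ', abs_mul, abs_of_pos h1, abs_of_neg hb0]
  nlinarith

theorem abs_rf_le_fact {b : ℝ} (hb1 : -1 < b) (hb0 : b < 0) (N : ℕ) :
    |rf b (N + 1)| ≤ ((N + 1).factorial : ℝ) := by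
  refine (abs_rf_le hb1 hb0 (by linarith : b + 1 ≤ 1) N).trans ?_
  rw [rf_one]
  exact_mod_cast Nat.factorial_le (Nat.le_succ N)

theorem ratio_le {b : ℝ} (hb1 : -1 < b) (hb0 : b < 0) (k : ℕ) :
    |rf b (k + 1)| / rf (1 - b) (k + 1) ≤ 1 / ((k : ℝ) + 1) := by
  have h1 : 0 < rf (1 - b) k := rf_pos (by linarith) k
  have h2 := abs_rf_le hb1 hb0 (by linarith : b + 1 ≤ 1 - b) k
  have hk : (0 : ℝ) ≤ k := Nat.cast_nonneg k
  rw [div_le_div_iff₀ (rf_pos (by linarith) _) (by positivity), rf_succ (1 - b)]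
  have h3 : 0 ≤ |rf b (k + 1)| := abs_nonneg _
  nlinarith

theorem abs_tt_le {b c : ℝ} (hb1 : -1 < b) (hb0 : b < 0) (hc1 : -1 < c) (hc0 : c < 0) (k : ℕ) :
    |tt b c (k + 1)| ≤ 1 / ((k : ℝ) + 1) * (1 / ((k : ℝ) + 1)) := by
  have h1 : 0 < rf (1 - b) (k + 1) := rf_pos (by linarith) _
  have h2 : 0 < rf (1 - c) (k + 1) := rf_pos (by linarith) _
  unfold tt
  rw [abs_div, abs_mul, abs_of_pos (mul_pos h1 h2), mul_div_mul_comm]
  exact mul_le_mul (ratio_le hb1 hb0 k) (ratio_le hc1 hc0 k) (by positivity) (by positivity)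

theorem tt_succ {b c : ℝ} (hb0 : b < 0) (hc0 : c < 0) (k : ℕ) :
    tt b c (k + 1) * ((k + 1 - b) * (k + 1 - c)) = tt b c k * ((k + b) * (k + c)) := by
  have h1 : 0 < rf (1 - b) k := rf_pos (by linarith) _
  have h2 : 0 < rf (1 - c) k := rf_pos (by linarith) _
  have hk : (0 : ℝ) ≤ k := Nat.cast_nonneg k
  have h3 : 0 < 1 - b + k := by linarith
  have h4 : 0 < 1 - c + k := by linarith
  unfold tt
  simp only [rf_succ]
  field_simp
  ring

/-- the Stieltjes type transform of the series -/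
noncomputable def TT (b c y : ℝ) : ℝ := ∑' k : ℕ, tt b c k / ((k : ℝ) - y)

theorem hasSum_TT {b c Λ y : ℝ} (hΛ : HasSum (tt b c) Λ) (hy : y < 0) :
    HasSum (fun k : ℕ => tt b c k / ((k : ℝ) - y)) (TT b c y) := by
  refine Summable.hasSum ?_
  refine Summable.of_norm_bounded (hΛ.summable.abs.div_const (-y)) fun k => ?_
  have hk : (0 : ℝ) ≤ k := Nat.cast_nonneg k
  rw [Real.norm_eq_abs, abs_div, abs_of_pos (by linarith : 0 < (k : ℝ) - y)]
  exact div_le_div_of_nonneg_left (abs_nonneg _) (by linarith) (by linarith)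

theorem tele_lim {b c y : ℝ} (hb1 : -1 < b) (hb0 : b < 0) (hc1 : -1 < c) (hc0 : c < 0)
    (hy : y + 1 < 0) :
    Tendsto (fun k : ℕ => tt b c k * ((k - b) * (k - c)) / ((k : ℝ) - (y + 1))) atTop (𝓝 0) := by
  rw [← tendsto_add_atTop_iff_nat 1]
  have h0 : Tendsto (fun k : ℕ => 4 * (1 / ((k : ℝ) + 1))) atTop (𝓝 0) := by
    simpa using tendsto_one_div_add_atTop_nhds_zero_nat.const_mul (4 : ℝ)
  refine squeeze_zero_norm (fun k => ?_) h0
  have hk : (0 : ℝ) ≤ k := Nat.cast_nonneg k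
  have h1 := abs_tt_le hb1 hb0 hc1 hc0 k
  push_cast
  have h2 : 0 < (k : ℝ) + 1 - (y + 1) := by linarith
  have h3 : 0 < ((k : ℝ) + 1 - b) * (k + 1 - c) := mul_pos (by linarith) (by linarith)
  have h4 : ((k : ℝ) + 1 - b) * (k + 1 - c) ≤ (2 * (k + 1)) * (2 * (k + 1)) :=
    mul_le_mul (by linarith) (by linarith) (by linarith) (by linarith)
  rw [Real.norm_eq_abs, abs_div, abs_mul, abs_of_pos h2, abs_of_pos h3]
  have h5 : |tt b c (k + 1)| * (((k : ℝ) + 1 - b) * (k + 1 - c)) ≤ 4 := by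
    refine (mul_le_mul h1 h4 h3.le (by positivity)).trans (le_of_eq ?_)
    field_simp
    ring
  rw [mul_one_div]
  exact div_le_div₀ (by norm_num) h5 (by linarith) (by linarith)

theorem TT_rec {b c Λ y : ℝ} (hb1 : -1 < b) (hb0 : b < 0) (hc1 : -1 < c) (hc0 : c < 0)
    (hΛ : HasSum (tt b c) Λ) (hy : y + 1 < 0) :
    (y + b) * (y + c) * TT b c y = (y + 1 - b) * (y + 1 - c) * TT b c (y + 1) +
      (-(2 * b + 2 * c - 1) * Λ + b * c / (y + 1)) := by
  set a : ℕ → ℝ := fun k => tt b c k * ((k - b) * (k - c)) / ((k : ℝ) - (y + 1)) with ha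
  have h1 := (((hasSum_TT hΛ (by linarith : y < 0)).mul_left ((y + b) * (y + c))).sub
    ((hasSum_TT hΛ hy).mul_left ((y + 1 - b) * (y + 1 - c)))).add
      (hΛ.mul_left (2 * b + 2 * c - 1))
  have h2 : ∀ k : ℕ, (y + b) * (y + c) * (tt b c k / ((k : ℝ) - y)) -
      (y + 1 - b) * (y + 1 - c) * (tt b c k / ((k : ℝ) - (y + 1))) +
        (2 * b + 2 * c - 1) * tt b c k = a (k + 1) - a k := by
    intro k
    have hk : (0 : ℝ) ≤ k := Nat.cast_nonneg k
    have h3 : (k : ℝ) - y ≠ 0 := by linarith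
    have h4 : (k : ℝ) - (y + 1) ≠ 0 := by linarith
    have h5 : (k : ℝ) + 1 - (y + 1) = k - y := by ring
    simp only [ha]
    push_cast
    rw [tt_succ hb0 hc0, h5]
    field_simp
    ring
  simp only [h2] at h1
  have h6 := h1.tendsto_sum_nat
  simp only [sum_range_sub] at h6
  have h7 := tendsto_nhds_unique h6 ((tele_lim hb1 hb0 hc1 hc0 hy).sub_const (a 0))
  have h8 : a 0 = -(b * c / (y + 1)) := by
    simp only [ha, tt, rf, range_zero, prod_empty, Nat.cast_zero, zero_sub, div_neg]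
    ring
  rw [h8] at h7
  linarith

theorem piS_zero (b c y : ℚ) : piS b c 0 y = 1 / ((y + b) * (y + c)) := by
  simp [piS, rf]

theorem piS_succ (b c y : ℚ) (s : ℕ) :
    piS b c (s + 1) y =
      (y + 1 - b) * (y + 1 - c) / ((y + b) * (y + c)) * piS b c s (y + 1) := by
  unfold piS
  rw [rf_succ' (y + 1 - b), rf_succ' (y + 1 - c), rf_succ' (y + b) (s + 1),
    rf_succ' (y + c) (s + 1), div_mul_div_comm]
  have e1 : y + 1 - b + 1 = y + 1 + 1 - b := by ring
  have e2 : y + 1 - c + 1 = y + 1 + 1 - c := by ring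
  have e3 : y + b + 1 = y + 1 + b := by ring
  have e4 : y + c + 1 = y + 1 + c := by ring
  rw [e1, e2, e3, e4]
  congr 1 <;> ring

theorem TT_eq {b c Λ : ℚ} (hb1 : -1 < b) (hb0 : b < 0) (hc1 : -1 < c) (hc0 : c < 0)
    (hΛ : HasSum (tt (b : ℝ) (c : ℝ)) (Λ : ℝ)) {a : ℚ} (ha : a = b ∨ a = c) (j : ℕ) :
    ∀ N : ℕ, j < N → ∀ y : ℚ, y = a - 1 - j → TT b c y =
      ((∑ s ∈ range N, piS b c s y * etaF (-(2 * b + 2 * c - 1) * Λ) (b * c) (y + s) : ℚ) : ℝ) := by
  have ha0 : a < 0 := by rcases ha with rfl | rfl <;> assumption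
  have key : ∀ (N : ℕ) (y : ℚ), y + 1 < 0 →
      ((y + 1 - b) * (y + 1 - c) = 0 ∨ TT b c ((y + 1 : ℚ) : ℝ) = ((∑ s ∈ range N,
        piS b c s (y + 1) * etaF (-(2 * b + 2 * c - 1) * Λ) (b * c) (y + 1 + s) : ℚ) : ℝ)) →
      TT b c y = ((∑ s ∈ range (N + 1),
        piS b c s y * etaF (-(2 * b + 2 * c - 1) * Λ) (b * c) (y + s) : ℚ) : ℝ) := by
    intro N y hy h
    have hr := TT_rec (b := b) (c := c) (y := y) (by exact_mod_cast hb1) (by exact_mod_cast hb0)
      (by exact_mod_cast hc1) (by exact_mod_cast hc0) hΛ (by exact_mod_cast hy)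
    have hU : ((y : ℝ) + b) * (y + c) ≠ 0 := by
      have : (y + b) * (y + c) ≠ 0 := mul_ne_zero (by linarith) (by linarith)
      exact_mod_cast this
    have hs : ∑ s ∈ range (N + 1),
        piS b c s y * etaF (-(2 * b + 2 * c - 1) * Λ) (b * c) (y + s) =
        ((y + 1 - b) * (y + 1 - c) * (∑ s ∈ range N,
          piS b c s (y + 1) * etaF (-(2 * b + 2 * c - 1) * Λ) (b * c) (y + 1 + s)) +
          (-(2 * b + 2 * c - 1) * Λ + b * c / (y + 1))) / ((y + b) * (y + c)) := by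
      rw [sum_range_succ', add_div, mul_sum, sum_div, piS_zero]
      congr 1
      · refine sum_congr rfl fun s _ => ?_
        have e : y + ((s + 1 : ℕ) : ℚ) = y + 1 + s := by push_cast; ring
        rw [piS_succ, e]
        ring
      · simp only [etaF, Nat.cast_zero, add_zero]
        ring
    rw [hs]
    generalize (∑ s ∈ range N,
      piS b c s (y + 1) * etaF (-(2 * b + 2 * c - 1) * Λ) (b * c) (y + 1 + s)) = S at h ⊢
    push_cast
    rw [eq_div_iff hU, mul_comm, hr]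
    rcases h with h | h
    · have h' : ((y : ℝ) + 1 - b) * (y + 1 - c) = 0 := by exact_mod_cast h
      rw [h', zero_mul, zero_mul]
    · push_cast at h
      rw [h]
  induction j with
  | zero =>
    intro N hN y hy
    obtain ⟨N, rfl⟩ : ∃ N', N = N' + 1 := ⟨N - 1, by omega⟩
    have e : y + 1 = a := by rw [hy]; simp
    refine key N y (by linarith) (Or.inl ?_)
    rw [e]
    rcases ha with rfl | rfl <;> simp
  | succ j ih =>
    intro N hN y hy
    obtain ⟨N, rfl⟩ : ∃ N', N = N' + 1 := ⟨N - 1, by omega⟩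
    have hj : (0 : ℚ) ≤ j := Nat.cast_nonneg j
    have e : y + 1 = a - 1 - j := by rw [hy]; push_cast; ring
    exact key N y (by linarith) (Or.inr (ih N (by omega) (y + 1) e))

theorem Sset_inj (a : ℚ) : Function.Injective fun j : ℕ => a - 1 - (j : ℚ) := by
  intro i j h
  have : (i : ℚ) = j := by simp only at h; linarith
  exact_mod_cast this

theorem prod_Sset (a x : ℚ) (N : ℕ) : ∏ y ∈ Sset a N, (x - y) = rf (x + 1 - a) N := by
  unfold Sset rf
  rw [prod_image (Sset_inj a).injOn]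
  exact prod_congr rfl fun i _ => by ring

theorem card_Sset (a : ℚ) (N : ℕ) : (Sset a N).card = N := by
  unfold Sset
  rw [card_image_of_injective _ (Sset_inj a), card_range]

theorem disj_Sset {b c : ℚ} (hb : b = -1 / 4 ∨ b = -3 / 4) (hc : c = -1 / 3 ∨ c = -2 / 3)
    (N M : ℕ) : Disjoint (Sset c N) (Sset b M) := by
  rw [disjoint_left]
  intro y h1 h2
  obtain ⟨i, -, hi⟩ := mem_image.1 h1
  obtain ⟨j, -, hj⟩ := mem_image.1 h2
  rcases hb with rfl | rfl <;> rcases hc with rfl | rfl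
  · have : 12 * (i : ℚ) + 1 = 12 * j := by linarith
    have : 12 * i + 1 = 12 * j := by exact_mod_cast this
    omega
  · have : 12 * (i : ℚ) + 5 = 12 * j := by linarith
    have : 12 * i + 5 = 12 * j := by exact_mod_cast this
    omega
  · have : 12 * (i : ℚ) = 12 * j + 5 := by linarith
    have : 12 * i = 12 * j + 5 := by exact_mod_cast this
    omega
  · have : 12 * (i : ℚ) = 12 * j + 1 := by linarith
    have : 12 * i = 12 * j + 1 := by exact_mod_cast this
    omega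

open Polynomial in
theorem pfrac (S : Finset ℚ) (P : ℚ[X]) (hP : P.natDegree < S.card) (x : ℚ)
    (hx : ∀ y ∈ S, x ≠ y) :
    P.eval x / ∏ y ∈ S, (x - y) =
      ∑ y ∈ S, P.eval y / (∏ z ∈ S.erase y, (y - z)) * (1 / (x - y)) := by
  have h1 : P = Lagrange.interpolate S id fun i => P.eval (id i) :=
    Lagrange.eq_interpolate (Set.injOn_id _)
      (lt_of_le_of_lt degree_le_natDegree (by exact_mod_cast hP))
  have h2 := Lagrange.eval_interpolate_not_at_node (s := S) (v := id) (x := x)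
    (fun i => P.eval (id i)) hx
  rw [← h1, Lagrange.eval_nodal] at h2
  have h3 : ∏ y ∈ S, (x - y) ≠ 0 := prod_ne_zero_iff.2 fun y hy => sub_ne_zero.2 (hx y hy)
  rw [div_eq_iff h3, h2, mul_comm]
  congr 1
  refine sum_congr rfl fun y _ => ?_
  simp only [Lagrange.nodalWeight, id, prod_inv_distrib]
  ring

open Polynomial in
theorem exists_rf_poly (a : ℚ) (N : ℕ) :
    ∃ P : ℚ[X], P.natDegree ≤ N ∧ ∀ y, P.eval y = rf (y + a) N := by
  induction N with
  | zero => exact ⟨1, by simp, fun y => by simp [rf]⟩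
  | succ N ih =>
    obtain ⟨P, h1, h2⟩ := ih
    refine ⟨P * (X + C (a + N)), ?_, fun y => ?_⟩
    · refine natDegree_mul_le.trans ?_
      rw [natDegree_X_add_C]
      omega
    · rw [eval_mul, h2, rf_succ, eval_add, eval_X, eval_C, add_assoc]

open Polynomial in
theorem exists_ZZ_poly (b c : ℚ) (m l : ℕ) :
    ∃ P : ℚ[X], P.natDegree ≤ 21 * m + l ∧ ∀ y, P.eval y = ZZ b c m y * y ^ l := by
  obtain ⟨P1, h1, e1⟩ := exists_rf_poly 1 (9 * m)
  obtain ⟨P2, h2, e2⟩ := exists_rf_poly b (6 * m)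
  obtain ⟨P3, h3, e3⟩ := exists_rf_poly c (6 * m)
  refine ⟨P1 * P2 * P3 * X ^ l, ?_, fun y => ?_⟩
  · have a1 : (P1 * P2).natDegree ≤ P1.natDegree + P2.natDegree := natDegree_mul_le
    have a2 : (P1 * P2 * P3).natDegree ≤ (P1 * P2).natDegree + P3.natDegree := natDegree_mul_le
    have a3 : (P1 * P2 * P3 * X ^ l).natDegree ≤
        (P1 * P2 * P3).natDegree + (X ^ l : ℚ[X]).natDegree := natDegree_mul_le
    rw [natDegree_X_pow] at a3
    omega
  · simp only [eval_mul, e1, e2, e3, eval_pow, eval_X, ZZ]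

end Identity

open Identity

theorem ww_pos (b c : ℝ) (hb1 : -1 < b) (hb0 : b < 0) (hc1 : -1 < c) (hc0 : c < 0) (m : ℕ)
    (hm : 1 ≤ m) (k : ℕ) : 0 < ww b c m k := by
  obtain ⟨N, hN⟩ : ∃ N, k + 6 * m = N + 1 := ⟨k + 6 * m - 1, by omega⟩
  unfold ww
  rw [hN, mul_assoc]
  exact div_pos (mul_pos (rf_pos (by positivity) _)
    (mul_pos_of_neg_of_neg (rf_neg hb1 hb0 N) (rf_neg hc1 hc0 N)))
    (mul_pos (rf_pos (by linarith) _) (rf_pos (by linarith) _))

theorem ww_le_wbar (b c : ℝ) (hb1 : -1 < b) (hb0 : b < 0) (hc1 : -1 < c) (hc0 : c < 0) (m : ℕ)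
    (hm : 1 ≤ m) (k : ℕ) : ww b c m k ≤ wbar m k := by
  obtain ⟨N, hN⟩ : ∃ N, k + 6 * m = N + 1 := ⟨k + 6 * m - 1, by omega⟩
  have h1 : rf ((k : ℝ) + 1) (9 * m) = ((k + 9 * m).factorial : ℝ) / k.factorial := by
    have := rf_add (1 : ℝ) k (9 * m)
    rw [rf_one, rf_one, add_comm (1 : ℝ)] at this
    rw [this]
    field_simp
  have h2 : rf b (N + 1) * rf c (N + 1) ≤ ((N + 1).factorial : ℝ) * ((N + 1).factorial : ℝ) := by
    refine (le_abs_self _).trans ?_
    rw [abs_mul]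
    exact mul_le_mul (abs_rf_le_fact hb1 hb0 N) (abs_rf_le_fact hc1 hc0 N) (abs_nonneg _)
      (by positivity)
  have h3 : (((k + 22 * m).factorial : ℝ)) * ((k + 20 * m).factorial : ℝ) ≤
      rf (1 - c) (k + 22 * m) * rf (1 - b) (k + 20 * m) :=
    mul_le_mul (fact_le_rf (by linarith) _) (fact_le_rf (by linarith) _) (by positivity)
      (rf_pos (by linarith) _).le
  unfold ww wbar
  rw [hN, h1, mul_assoc]
  refine (div_le_div₀ (by positivity) (mul_le_mul_of_nonneg_left h2 (by positivity))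
    (by positivity) h3).trans (le_of_eq ?_)
  field_simp

theorem identity (b c : ℚ) (hb : b = -1 / 4 ∨ b = -3 / 4) (hc : c = -1 / 3 ∨ c = -2 / 3) (m : ℕ)
    (hm : 1 ≤ m) (Λ : ℚ) (hΛ : HasSum (tt (b : ℝ) (c : ℝ)) (Λ : ℝ)) (l : ℕ)
    (hl : l ≤ 20 * m - 2) :
    HasSum (fun k : ℕ => ww (b : ℝ) (c : ℝ) m k * (k : ℝ) ^ l)
      ((LL b c m (etaF (-(2 * b + 2 * c - 1) * Λ) (b * c)) (fun y => y ^ l) : ℚ) : ℝ) := by
  have hb1 : -1 < b := by rcases hb with rfl | rfl <;> norm_num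
  have hb0 : b < 0 := by rcases hb with rfl | rfl <;> norm_num
  have hc1 : -1 < c := by rcases hc with rfl | rfl <;> norm_num
  have hc0 : c < 0 := by rcases hc with rfl | rfl <;> norm_num
  have hd := disj_Sset hb hc (22 * m) (20 * m)
  have hmem : ∀ y ∈ SS b c m, ∃ a : ℚ, (a = b ∨ a = c) ∧ ∃ j : ℕ, j < 22 * m ∧ y = a - 1 - j := by
    intro y hy
    rcases mem_union.1 hy with h | h
    · obtain ⟨j, hj, rfl⟩ := mem_image.1 h
      exact ⟨c, Or.inr rfl, j, mem_range.1 hj, rfl⟩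
    · obtain ⟨j, hj, rfl⟩ := mem_image.1 h
      exact ⟨b, Or.inl rfl, j, by have := mem_range.1 hj; omega, rfl⟩
  have hneg : ∀ y ∈ SS b c m, y < 0 := by
    intro y hy
    obtain ⟨a, ha, j, -, rfl⟩ := hmem y hy
    have hj : (0 : ℚ) ≤ j := Nat.cast_nonneg j
    rcases ha with rfl | rfl <;> linarith
  obtain ⟨P, hP, eP⟩ := exists_ZZ_poly b c m l
  have hcard : P.natDegree < (SS b c m).card := by
    unfold SS
    rw [card_union_of_disjoint hd, card_Sset, card_Sset]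
    omega
  set co : ℚ → ℚ := fun y => ZZ b c m y * y ^ l / ∏ z ∈ (SS b c m).erase y, (y - z) with hco
  have hterm : ∀ k : ℕ, ww (b : ℝ) (c : ℝ) m k * (k : ℝ) ^ l =
      ∑ y ∈ SS b c m, (co y : ℝ) * (tt (b : ℝ) (c : ℝ) k / ((k : ℝ) - (y : ℝ))) := by
    intro k
    have hk : (0 : ℚ) ≤ k := Nat.cast_nonneg k
    have h1 := pfrac (SS b c m) P hcard k fun y hy => by have := hneg y hy; linarith
    simp only [eP] at h1
    have h2 : ∏ y ∈ SS b c m, ((k : ℚ) - y) =
        rf ((k : ℚ) + 1 - c) (22 * m) * rf ((k : ℚ) + 1 - b) (20 * m) := by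
      unfold SS
      rw [prod_union hd, prod_Sset, prod_Sset]
    rw [h2] at h1
    have h3 := congrArg (fun q : ℚ => tt (b : ℝ) (c : ℝ) k * (q : ℝ)) h1
    simp only [Rat.cast_sum, mul_sum] at h3
    refine Eq.trans ?_ (h3.trans (sum_congr rfl fun y _ => ?_))
    · unfold ww tt ZZ
      simp only [Rat.cast_div, Rat.cast_mul, rf_cast, rf_add]
      push_cast
      have e1 : (b : ℝ) + k = k + b := by ring
      have e2 : (c : ℝ) + k = k + c := by ring
      have e3 : 1 - (b : ℝ) + k = k + 1 - b := by ring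
      have e4 : 1 - (c : ℝ) + k = k + 1 - c := by ring
      rw [e1, e2, e3, e4]
      ring
    · simp only [hco]
      push_cast
      ring
  simp only [hterm]
  have hsum := hasSum_sum (s := SS b c m)
    (f := fun (y : ℚ) (k : ℕ) => (co y : ℝ) * (tt (b : ℝ) (c : ℝ) k / ((k : ℝ) - (y : ℝ))))
    (a := fun y : ℚ => (co y : ℝ) * TT b c y)
    fun y hy => (hasSum_TT hΛ (by exact_mod_cast hneg y hy)).mul_left _
  refine Eq.subst (motive := fun t : ℝ => HasSum _ t) ?_ hsum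
  unfold LL dd
  rw [Rat.cast_sum]
  refine sum_congr rfl fun y hy => ?_
  obtain ⟨a, ha, j, hj, hy'⟩ := hmem y hy
  rw [TT_eq hb1 hb0 hc1 hc0 hΛ ha j (22 * m) hj y hy', ← Rat.cast_mul]
  congr 1
  simp only [hco, XX]
  ring

end Pool.Agent.Caab
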