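import Pool.Agent.Lib.MP_caab05_ag.Expand

/-! The 3-adic valuation of the determinant. -/

namespace Pool.Agent.Caab

open Finset Filter Topology

namespace Three

/-- denominators dividing four -/
def I4 (u : ℚ) : Prop := ∃ z : ℤ, 4 * u = z

/-- denominators dividing twelve, exactly divisible by three -/
def T3 (u : ℚ) : Prop := ∃ z : ℤ, 12 * u = z ∧ ¬ (3 : ℤ) ∣ z

lemma I4.int (z : ℤ) : I4 z := ⟨4 * z, by push_cast; ring⟩

lemma I4.nat (z : ℕ) : I4 z := ⟨4 * z, by push_cast; ring⟩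

lemma I4.one : I4 1 := ⟨4, by norm_num⟩

lemma I4.zero : I4 0 := ⟨0, by norm_num⟩

lemma I4.add {u v : ℚ} (hu : I4 u) (hv : I4 v) : I4 (u + v) := by
  obtain ⟨z, hz⟩ := hu
  obtain ⟨w, hw⟩ := hv
  exact ⟨z + w, by push_cast; linarith⟩

lemma I4.sub {u v : ℚ} (hu : I4 u) (hv : I4 v) : I4 (u - v) := by
  obtain ⟨z, hz⟩ := hu
  obtain ⟨w, hw⟩ := hv
  exact ⟨z - w, by push_cast; linarith⟩

lemma T3.add {u v : ℚ} (hu : T3 u) (hv : I4 v) : T3 (u + v) := by
  obtain ⟨z, hz, h3⟩ := hu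
  obtain ⟨w, hw⟩ := hv
  exact ⟨z + 3 * w, by push_cast; linarith, by omega⟩

lemma T3.sub {u v : ℚ} (hu : T3 u) (hv : I4 v) : T3 (u - v) := by
  obtain ⟨z, hz, h3⟩ := hu
  obtain ⟨w, hw⟩ := hv
  exact ⟨z - 3 * w, by push_cast; linarith, by omega⟩

lemma I4.addT {u v : ℚ} (hu : I4 u) (hv : T3 v) : T3 (u + v) := by
  rw [add_comm]; exact hv.add hu

lemma I4.subT {u v : ℚ} (hu : I4 u) (hv : T3 v) : T3 (u - v) := by
  obtain ⟨z, hz, h3⟩ := hv
  obtain ⟨w, hw⟩ := hu
  exact ⟨3 * w - z, by push_cast; linarith, by omega⟩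

lemma T3.two {u : ℚ} (hu : T3 u) : T3 (u + u) := by
  obtain ⟨z, hz, h3⟩ := hu
  exact ⟨z + z, by push_cast; linarith, by omega⟩

lemma T3.of_eq {u v : ℚ} (hu : T3 u) (h : u = v) : T3 v := h ▸ hu

lemma T3.ne {u : ℚ} (hu : T3 u) : u ≠ 0 := by
  obtain ⟨z, hz, h3⟩ := hu
  rintro rfl
  have : z = 0 := by exact_mod_cast (by linarith : (z : ℚ) = 0)
  omega

lemma T3.val {u : ℚ} (hu : T3 u) : padicValRat 3 u = -1 := by
  have hne := hu.ne
  obtain ⟨z, hz, h3⟩ := hu
  have h1 := val_of_mul_eq (p := 3) (d := 4) (by norm_num) (u := 3 * u) (z := z)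
    (by push_cast; linarith)
  rw [padicValRat.mul (by norm_num) hne, padicValInt.eq_zero_of_not_dvd (by exact_mod_cast h3)] at h1
  have h2 : padicValRat 3 (3 : ℚ) = 1 := by
    simpa using padicValRat.self (p := 3) (by norm_num)
  rw [h2] at h1
  push_cast at h1
  omega

lemma T3.V {u : ℚ} (hu : T3 u) : V 3 u (-1) := V.of_le (by rw [hu.val]; norm_num)

lemma T3.rv_eq {u : ℚ} (hu : T3 u) (N : ℕ) : rv 3 u N = -N := by
  rw [rv, sum_congr rfl fun i _ => (hu.add (I4.nat i)).val]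
  simp

lemma T3.rf_ne {u : ℚ} (hu : T3 u) (N : ℕ) : rf u N ≠ 0 :=
  prod_ne_zero_iff.2 fun i _ => (hu.add (I4.nat i)).ne

lemma T3.val_rf {u : ℚ} (hu : T3 u) (N : ℕ) : padicValRat 3 (rf u N) = -N := by
  rw [Caab.val_rf (hu.rf_ne N), hu.rv_eq]

lemma T3.V_rf {u : ℚ} (hu : T3 u) (N : ℕ) : Caab.V 3 (rf u N) (-N) :=
  Caab.V.of_le (by rw [hu.val_rf]; simp)

lemma I4.V {u : ℚ} (hu : I4 u) : V 3 u 0 := by
  obtain ⟨z, hz⟩ := hu
  refine V.of_le ?_
  rw [val_of_mul_eq (p := 3) (d := 4) (by norm_num) (by exact_mod_cast hz)]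
  positivity

lemma I4.V_rf0 {u : ℚ} (hu : I4 u) (N : ℕ) : Caab.V 3 (rf u N) 0 :=
  Caab.V.prod0 fun i _ => (hu.add (I4.nat i)).V

variable {m L : ℕ}

lemma I4.V_rf {u : ℚ} (hu : I4 u) (hL : 2000 * m < 3 ^ (L + 1)) {N : ℕ} (hN : N ≤ 2000 * m) :
    Caab.V 3 (rf u N) (N / 2 - L - 2) := by
  obtain ⟨z, hz⟩ := hu
  have := Caab.V_rf (p := 3) (d := 4) (by norm_num) (a := u) (a' := z) (by exact_mod_cast hz) N L
    (by omega)
  norm_num at this
  exact this

lemma I4.rv_le {u : ℚ} (hu : I4 u) (hL : 2000 * m < 3 ^ (L + 1)) {N : ℕ} (hN : N ≤ 240 * m)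
    (h1 : -(250 * (m : ℚ)) ≤ u) (h2 : u ≤ 250 * m) : (rv 3 u N : ℝ) ≤ N / 2 + L := by
  obtain ⟨z, hz⟩ := hu
  have a1 : -(1000 * (m : ℤ)) ≤ z := by exact_mod_cast (by linarith : -(1000 * (m : ℚ)) ≤ z)
  have a2 : z ≤ 1000 * (m : ℤ) := by exact_mod_cast (by linarith : (z : ℚ) ≤ 1000 * (m : ℚ))
  have := Caab.rv_le (p := 3) (d := 4) (by norm_num) (a := u) (a' := z) (by exact_mod_cast hz) N L
    (fun i hi => by
      have h3 : ((2000 * m : ℕ) : ℤ) < ((3 ^ (L + 1) : ℕ) : ℤ) := by exact_mod_cast hL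
      push_cast at h3 ⊢
      rw [abs_lt]
      constructor <;> omega)
  norm_num at this
  exact this

variable {b c : ℚ}

/-- the numerator at a 3-integral point -/
lemma V_num (hb : I4 b) (hc : T3 c) (hL : 2000 * m < 3 ^ (L + 1)) {y : ℚ} (hy : I4 y) :
    V 3 (ZZ b c m y) (3 / 2 * m - 2 * L - 4) := by
  have := (((hy.add I4.one).V_rf hL (N := 9 * m) (by omega)).mul
    ((hy.add hb).V_rf hL (N := 6 * m) (by omega))).mul ((hy.addT hc).V_rf (6 * m))
  refine this.mono ?_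
  push_cast
  linarith

lemma V_R (hL : 2000 * m < 3 ^ (L + 1)) {y : ℚ} (hy : I4 y) {i j : ℕ} (hi : i < 10 * m)
    (hj : j < 10 * m) : V 3 (rf (y + 0) i * rf (y + 0) j) ((i + j) / 2 - 2 * L - 4) := by
  have := ((hy.add I4.zero).V_rf hL (N := i) (by omega)).mul
    ((hy.add I4.zero).V_rf hL (N := j) (by omega))
  refine this.mono ?_
  linarith

lemma part_b (hP : Par b c) (hb : I4 b) (hb1 : -1 ≤ b) (hb0 : b ≤ 0) (hc : T3 c) (hm : 1 ≤ m)
    (hL : 2000 * m < 3 ^ (L + 1)) (a1 a2 : ℤ) {i j : ℕ} (hi : i < 10 * m) (hj : j < 10 * m)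
    {y : ℚ} (hy : y ∈ Sset b (20 * m)) :
    V 3 (ZZ b c m y * XX b c m (etaF a1 a2) y * (rf (y + 0) i * rf (y + 0) j) /
      ∏ z ∈ (SS b c m).erase y, (y - z)) (27 / 2 * m + (i + j) / 2 - 14 * (L + 1)) := by
  have hS : y ∈ SS b c m := mem_union_right _ hy
  obtain ⟨t, ht, rfl⟩ := mem_Sset.1 hy
  set y := b - 1 - (t : ℚ) with hyy
  have hI : I4 y := (hb.sub I4.one).sub (I4.nat t)
  have ht' : (t : ℚ) ≤ 20 * m := by exact_mod_cast ht.le
  have ht0 : (0 : ℚ) ≤ t := Nat.cast_nonneg _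
  have hm' : (1 : ℚ) ≤ m := by exact_mod_cast hm
  have hX : V 3 (XX b c m (etaF a1 a2) y) (-3 * L - 3) := by
    refine V.sum fun s hs => ?_
    have hs' := mem_range.1 hs
    have hs'' : (s : ℚ) ≤ 22 * m := by exact_mod_cast hs'.le
    have hs0 : (0 : ℚ) ≤ s := Nat.cast_nonneg _
    have n1 := rf_ne_zero (hP.add_b_ne hS) (s + 1)
    have h1 : V 3 (piS b c s y) (-2 * L - 2) := by
      have := ((((hI.add I4.one).sub hb).V_rf hL (N := s) (by omega)).mul
        (((hI.add I4.one).subT hc).V_rf s)).div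
        (q' := rf (y + b) (s + 1) * rf (y + c) (s + 1)) (s := ((s + 1 : ℕ) : ℝ) / 2 + L - (s + 1)) (by
          rw [padicValRat.mul n1 ((hI.addT hc).rf_ne _), val_rf n1, (hI.addT hc).val_rf]
          have := (hI.add hb).rv_le hL (N := s + 1) (by omega) (by linarith) (by linarith)
          push_cast at this ⊢
          linarith)
      refine this.mono ?_
      push_cast
      linarith
    have h2 : V 3 (etaF a1 a2 (y + s)) (-L - 1) := by
      have h3 := ((hI.add (I4.nat s)).add I4.one).rv_le hL (N := 1) (by omega) (by linarith)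
        (by linarith)
      simp only [rv, range_one, sum_singleton, Nat.cast_zero, add_zero, Nat.cast_one] at h3
      have hL0 : (0 : ℝ) ≤ L := Nat.cast_nonneg _
      exact ((V.int a1).mono (by linarith)).add (((V.int a2).div h3).mono (by linarith))
    exact (h1.mul h2).mono (by linarith)
  have := (((V_num hb hc hL hI).mul hX).mul (V_R hL hI hi hj)).div
    (q' := ∏ z ∈ (SS b c m).erase y, (y - z)) (s := -12 * m + L) (by
      rw [val_prod_erase, hP.sum_val_SS, ((hI.add I4.one).subT hc).rv_eq]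
      have := ((hI.add I4.one).sub hb).rv_le hL (N := 20 * m) (by omega) (by linarith) (by linarith)
      push_cast at this ⊢
      linarith)
  refine this.mono ?_
  have hL0 : (0 : ℝ) ≤ L := Nat.cast_nonneg _
  linarith

lemma aco_V (hb : I4 b) (hc : T3 c) (hL : 2000 * m < 3 ^ (L + 1)) (a1 a2 : ℤ) {k : ℕ}
    (hk : k ≤ 200 * m) : V 3 (aco b c a1 a2 k) (k / 2 - 2 * L - 5) := by
  have hb' := hb
  obtain ⟨z, hz⟩ := hb'
  have := V_aco (p := 3) (d := 4) (by norm_num) (g := b) (h := c) (g' := z) (by exact_mod_cast hz)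
    a1 a2 (σ := 0) le_rfl
    (fun j => ((((hc.two.add hb).add hb).sub I4.one).add (I4.nat j)).of_eq (by ring) |>.val)
    (fun j => by simpa using (((I4.nat j).add hb).addT hc).V) L k (by omega)
  norm_num at this
  exact this

lemma part_err (hP : Par b c) (hb : I4 b) (hc : T3 c) (hm : 1 ≤ m)
    (hL : 2000 * m < 3 ^ (L + 1)) (a1 a2 : ℤ) {i j : ℕ} (hi : i < 10 * m) (hj : j < 10 * m)
    {y : ℚ} (hy : y ∈ Sset c (22 * m)) :
    V 3 (ZZ b c m y * XX b c m (errF b c a1 a2 (200 * m)) y * (rf (y + 0) i * rf (y + 0) j) /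
      ∏ z ∈ (SS b c m).erase y, (y - z)) (27 / 2 * m + (i + j) / 2 - 14 * (L + 1)) := by
  obtain ⟨t, ht, rfl⟩ := mem_Sset.1 hy
  set y := c - 1 - (t : ℚ) with hyy
  have hT : T3 y := (hc.sub I4.one).sub (I4.nat t)
  have hT2 : T3 (y + c) := ((hc.two.sub I4.one).sub (I4.nat t)).of_eq (by rw [hyy]; ring)
  have hI : I4 (y + 1 - c) := by
    rw [show y + 1 - c = 0 - t by rw [hyy]; ring]
    exact I4.zero.sub (I4.nat t)
  have ht' : (t : ℚ) ≤ 22 * m := by exact_mod_cast ht.le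
  have ht0 : (0 : ℚ) ≤ t := Nat.cast_nonneg _
  have hm' : (1 : ℚ) ≤ m := by exact_mod_cast hm
  have hL0 : (0 : ℝ) ≤ L := Nat.cast_nonneg _
  have hm0 : (0 : ℝ) ≤ m := Nat.cast_nonneg _
  have hZ : V 3 (ZZ b c m y) (-21 * m) := by
    have := (((hT.add I4.one).V_rf (9 * m)).mul ((hT.add hb).V_rf (6 * m))).mul (hT2.V_rf (6 * m))
    refine this.mono ?_
    push_cast
    linarith
  have hX : V 3 (XX b c m (errF b c a1 a2 (200 * m)) y) (200 * m - 2 * L - 5) := by
    refine V.sum fun s hs => ?_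
    have hs0 : (0 : ℝ) ≤ s := Nat.cast_nonneg _
    have h1 : V 3 (piS b c s y) 0 := by
      have := ((((hT.add I4.one).sub hb).V_rf s).mul (hI.V_rf0 s)).div
        (q' := rf (y + b) (s + 1) * rf (y + c) (s + 1)) (s := -2 * (s + 1)) (by
          rw [padicValRat.mul ((hT.add hb).rf_ne _) (hT2.rf_ne _), (hT.add hb).val_rf, hT2.val_rf]
          push_cast
          linarith)
      exact this.mono (by linarith)
    have hTs : T3 (y + s) := hT.add (I4.nat s)
    have hT3 : T3 (y + s + b + 1) := (hTs.add hb).add I4.one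
    have h2 : V 3 (errF b c a1 a2 (200 * m) (y + s)) (200 * m - 2 * L - 5) := by
      have e1 := ((V.int a2).mul (hb.V_rf0 (200 * m))).div
        (q' := rf (y + s + b + 1) (200 * m) * (y + s + 1)) (s := -(200 * m) - 1) (by
          rw [padicValRat.mul (hT3.rf_ne _) (hTs.add I4.one).ne, hT3.val_rf, (hTs.add I4.one).val]
          push_cast
          linarith)
      have e2 := ((((((I4.nat (200 * m)).add hb).addT hc).V).mul
        (((I4.nat (200 * m)).add (hb.add hb)).V)).mul (aco_V hb hc hL a1 a2 le_rfl)).div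
        (q' := rf (y + s + b + 1) (200 * m + 1)) (s := -(200 * m) - 1) (by
          rw [hT3.val_rf]
          push_cast
          linarith)
      rw [← two_mul b] at e2
      refine (e1.mono (by linarith)).add (e2.mono ?_)
      push_cast
      linarith
    exact h1.zero_mul' h2
  have hR := ((hT.add I4.zero).V_rf i).mul ((hT.add I4.zero).V_rf j)
  have := ((hZ.mul hX).mul hR).div
    (q' := ∏ z ∈ (SS b c m).erase y, (y - z)) (s := -9 * m + L) (by
      rw [val_prod_erase, hP.sum_val_SS, ((hT.add I4.one).sub hb).rv_eq]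
      have := hI.rv_le hL (N := 22 * m) (by omega) (by rw [hyy]; linarith) (by rw [hyy]; linarith)
      push_cast at this ⊢
      linarith)
  refine this.mono ?_
  have hi' : (i : ℝ) ≤ 10 * m := by exact_mod_cast hi.le
  have hj' : (j : ℝ) ≤ 10 * m := by exact_mod_cast hj.le
  linarith

lemma part_main (hP : Par b c) (hb : I4 b) (hb1 : -1 ≤ b) (hb0 : b ≤ 0) (hc : T3 c) (hm : 1 ≤ m)
    (hL : 2000 * m < 3 ^ (L + 1)) {i j : ℕ} (hi : i < 10 * m) (hj : j < 10 * m) {k : ℕ}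
    (hk : k ≤ 200 * m) :
    V 3 (∑ y ∈ Sset c (22 * m), ZZ b c m y * (rf (y + 0) i * rf (y + 0) j) /
      (rf (y + b) (k + 1) * ∏ z ∈ (SS b c m).erase y, (y - z)))
      (27 / 2 * m + (i + j) / 2 - (k + 1) / 2 - 6 * L - 8) := by
  set T := Sset (1 - b) (k + 1) with hT
  have d1 : Disjoint (Sset c (22 * m)) T :=
    disjoint_Sset (fun z e => hP.hbc (z + 1) (by push_cast; linarith)) _ _
  have d2 : Disjoint (Sset b (20 * m)) T :=
    disjoint_Sset (fun z e => hP.hbb (z + 1) (by push_cast; linarith)) _ _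
  have d3 : Disjoint (SS b c m) T := disjoint_union_left.2 ⟨d1, d2⟩
  have d4 : Disjoint (Sset c (22 * m)) (Sset b (20 * m) ∪ T) :=
    disjoint_union_right.2 ⟨hP.disj m, d1⟩
  have h0 := dd_poly_eq_zero (rfP 1 (9 * m) * rfP b (6 * m) * rfP c (6 * m) * (rfP 0 i * rfP 0 j))
    (SS b c m ∪ T) (by
      rw [card_union_of_disjoint d3, hP.card_SS, card_Sset]
      have a1 := Polynomial.natDegree_mul_le (p := rfP 1 (9 * m) * rfP b (6 * m) * rfP c (6 * m))
        (q := rfP 0 i * rfP 0 j)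
      have a2 := Polynomial.natDegree_mul_le (p := rfP 1 (9 * m) * rfP b (6 * m))
        (q := rfP c (6 * m))
      have a3 := Polynomial.natDegree_mul_le (p := rfP 1 (9 * m)) (q := rfP b (6 * m))
      have a4 := Polynomial.natDegree_mul_le (p := rfP 0 i) (q := rfP 0 j)
      simp only [rfP_natDegree] at a2 a3 a4
      omega)
  simp only [Polynomial.eval_mul, rfP_eval] at h0
  have hU : SS b c m ∪ T = Sset c (22 * m) ∪ (Sset b (20 * m) ∪ T) := union_assoc _ _ _
  rw [dd] at h0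
  nth_rewrite 1 [hU] at h0
  rw [sum_union d4] at h0
  have e : ∑ y ∈ Sset c (22 * m), ZZ b c m y * (rf (y + 0) i * rf (y + 0) j) /
      (rf (y + b) (k + 1) * ∏ z ∈ (SS b c m).erase y, (y - z)) =
      -∑ y ∈ Sset b (20 * m) ∪ T, ZZ b c m y * (rf (y + 0) i * rf (y + 0) j) /
        ∏ z ∈ (SS b c m ∪ T).erase y, (y - z) := by
    rw [eq_neg_iff_add_eq_zero]
    refine Eq.trans ?_ h0
    congr 1
    refine sum_congr rfl fun y hy => ?_
    rw [erase_union_distrib, erase_eq_of_notMem (disjoint_left.1 d1 hy),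
      prod_union (d3.mono_left (erase_subset _ _)), prod_sub_Sset, mul_comm (rf (y + b) (k + 1)),
      show y + 1 - (1 - b) = y + b by ring]
    rfl
  rw [e]
  refine (V.sum fun y hy => ?_).neg
  have hm' : (1 : ℚ) ≤ m := by exact_mod_cast hm
  have hk' : (k : ℚ) ≤ 200 * m := by exact_mod_cast hk
  obtain ⟨hI, y1, y2⟩ : I4 y ∧ -(202 * (m : ℚ)) ≤ y ∧ y ≤ 1 := by
    rcases mem_union.1 hy with hy | hy
    · obtain ⟨t, ht, rfl⟩ := mem_Sset.1 hy
      have ht' : (t : ℚ) ≤ 20 * m := by exact_mod_cast ht.le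
      have ht0 : (0 : ℚ) ≤ t := Nat.cast_nonneg _
      exact ⟨(hb.sub I4.one).sub (I4.nat t), by linarith, by linarith⟩
    · obtain ⟨t, ht, rfl⟩ := mem_Sset.1 hy
      have ht' : (t : ℚ) ≤ k := by exact_mod_cast Nat.lt_succ_iff.1 ht
      have ht0 : (0 : ℚ) ≤ t := Nat.cast_nonneg _
      exact ⟨((I4.one.sub hb).sub I4.one).sub (I4.nat t), by linarith, by linarith⟩
  have := ((V_num hb hc hL hI).mul (V_R hL hI hi hj)).div
    (q' := ∏ z ∈ (SS b c m ∪ T).erase y, (y - z)) (s := -12 * m + (k + 1) / 2 + 2 * L) (by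
      rw [val_prod_erase, sum_union d3, hP.sum_val_SS, ((hI.add I4.one).subT hc).rv_eq,
        sum_val_Sset, show y + 1 - (1 - b) = y + b by ring]
      have a1 := ((hI.add I4.one).sub hb).rv_le hL (N := 20 * m) (by omega) (by linarith)
        (by linarith)
      have a2 := (hI.add hb).rv_le hL (N := k + 1) (by omega) (by linarith) (by linarith)
      push_cast at a1 a2 ⊢
      linarith)
  refine this.mono ?_
  linarith

lemma entry (hP : Par b c) (hb : I4 b) (hb1 : -1 ≤ b) (hb0 : b ≤ 0) (hc : T3 c) (hm : 1 ≤ m)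
    (hL : 2000 * m < 3 ^ (L + 1)) (a1 a2 : ℤ) {i j : ℕ} (hi : i < 10 * m) (hj : j < 10 * m) :
    V 3 (LL b c m (etaF a1 a2) fun y => rf (y + 0) i * rf (y + 0) j)
      (27 / 2 * m + (i + j) / 2 - 14 * (L + 1)) := by
  rw [LL, dd]
  nth_rewrite 1 [SS]
  rw [sum_union (hP.disj m)]
  refine V.add ?_ (V.sum fun y hy => part_b hP hb hb1 hb0 hc hm hL a1 a2 hi hj hy)
  have e : ∑ y ∈ Sset c (22 * m), ZZ b c m y * XX b c m (etaF a1 a2) y *
      (rf (y + 0) i * rf (y + 0) j) / ∏ z ∈ (SS b c m).erase y, (y - z) =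
      ∑ k ∈ range (200 * m + 1), aco b c a1 a2 k *
        ∑ y ∈ Sset c (22 * m), ZZ b c m y * (rf (y + 0) i * rf (y + 0) j) /
          (rf (y + b) (k + 1) * ∏ z ∈ (SS b c m).erase y, (y - z)) +
      ∑ y ∈ Sset c (22 * m), ZZ b c m y * XX b c m (errF b c a1 a2 (200 * m)) y *
        (rf (y + 0) i * rf (y + 0) j) / ∏ z ∈ (SS b c m).erase y, (y - z) := by
    simp only [mul_sum]
    rw [sum_comm, ← sum_add_distrib]
    refine sum_congr rfl fun y hy => ?_
    rw [XX_expand hP (Or.inl ⟨rfl, rfl⟩) a1 a2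
      (fun j => (((((hc.two.add hb).add hb).sub I4.one).add (I4.nat j)).of_eq (by ring)).ne)
      (mem_union_left _ hy) (200 * m), mul_add, add_mul, add_div, mul_sum, sum_mul, sum_div]
    congr 1
    exact sum_congr rfl fun k _ => by ring
  rw [e]
  refine V.add (V.sum fun k hk => ?_) (V.sum fun y hy => part_err hP hb hc hm hL a1 a2 hi hj hy)
  have hk' := Nat.lt_succ_iff.1 (mem_range.1 hk)
  refine ((aco_V hb hc hL a1 a2 hk').mul (part_main hP hb hb1 hb0 hc hm hL hi hj hk')).mono ?_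
  have hL0 : (0 : ℝ) ≤ L := Nat.cast_nonneg _
  linarith

lemma sq_le_pow (n : ℕ) : n ^ 2 ≤ 3 ^ n := by
  induction n with
  | zero => simp
  | succ n ih =>
    have : n < 3 ^ n := Nat.lt_pow_self (by norm_num)
    rw [pow_succ 3 n]
    nlinarith

lemma sum_r (n : ℕ) (A : ℝ) : 2 * ∑ i ∈ range n, (A + (i : ℝ) / 2) = 2 * n * A + n * (n - 1) / 2 := by
  induction n with
  | zero => simp
  | succ n ih =>
    rw [sum_range_succ, mul_add, ih]
    push_cast
    ring

end Three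

open Three in
theorem three (b c : ℚ) (hb : b = -1 / 4 ∨ b = -3 / 4) (hc : c = -1 / 3 ∨ c = -2 / 3) :
    ∀ᶠ m : ℕ in atTop, ∀ a1 a2 : ℤ, V 3 (DD b c a1 a2 m) (184.9 * (m : ℝ) ^ 2) := by
  have hP := par_of hb hc
  have hI : I4 b := by
    rcases hb with rfl | rfl
    · exact ⟨-1, by norm_num⟩
    · exact ⟨-3, by norm_num⟩
  have hT : T3 c := by
    rcases hc with rfl | rfl
    · exact ⟨-4, by norm_num, by decide⟩
    · exact ⟨-8, by norm_num, by decide⟩
  have hb1 : -1 ≤ b := by rcases hb with rfl | rfl <;> norm_num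
  have hb0 : b ≤ 0 := by rcases hb with rfl | rfl <;> norm_num
  filter_upwards [eventually_ge_atTop (10 ^ 10)] with m hm a1 a2
  set L := Nat.log 3 (2000 * m) with hLd
  have hL : 2000 * m < 3 ^ (L + 1) := Nat.lt_pow_succ_log_self (by norm_num) _
  have hL2 : L ^ 2 ≤ 2000 * m := (sq_le_pow L).trans (Nat.pow_log_le_self 3 (by omega))
  have h := V_DD (p := 3) (b := b) (c := c) (a1 := a1) (a2 := a2) (m := m) (fun i => rfP 0 i)
    (fun i _ => rfP_monic 0 i) (fun i _ => rfP_natDegree 0 i)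
    (fun i => 27 / 4 * m - 7 * (L + 1) + (i : ℝ) / 2) (fun i hi j hj => by
      simp only [rfP_eval]
      exact (entry hP hI hb1 hb0 hT (by omega) hL a1 a2 hi hj).mono (by linarith))
  refine h.mono ?_
  rw [sum_r]
  have m1 : (10 : ℝ) ^ 10 ≤ m := by exact_mod_cast hm
  have l2 : (L : ℝ) ^ 2 ≤ 2000 * m := by exact_mod_cast hL2
  have l0 : (0 : ℝ) ≤ L := Nat.cast_nonneg _
  have l3 : (L : ℝ) ≤ m / 1500 := by
    by_contra hn
    push Not at hn
    nlinarith
  push_cast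
  nlinarith

end Pool.Agent.Caab
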