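import Pool.Agent.Lib.MP_caab05_ag.Expand

/-! The 2-adic valuation of the determinant. -/

namespace Pool.Agent.Caab

open Finset Filter Topology Polynomial

namespace Two

/-- three times `u` is an integer -/
def T3 (u : ℚ) : Prop := ∃ z : ℤ, 3 * u = z

/-- twelve times `u` is an odd integer -/
def Q4 (u : ℚ) : Prop := ∃ z : ℤ, 12 * u = 2 * z + 1

/-- six times `u` is an odd integer -/
def H2 (u : ℚ) : Prop := ∃ z : ℤ, 6 * u = 2 * z + 1

theorem T3.nat (n : ℕ) : T3 n := ⟨3 * n, by push_cast; ring⟩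

theorem T3.one : T3 1 := ⟨3, by norm_num⟩

theorem T3.zero : T3 0 := ⟨0, by norm_num⟩

theorem T3.add {u v : ℚ} (h : T3 u) (h' : T3 v) : T3 (u + v) := by
  obtain ⟨z, hz⟩ := h
  obtain ⟨w, hw⟩ := h'
  exact ⟨z + w, by push_cast; linarith⟩

theorem T3.neg {u : ℚ} (h : T3 u) : T3 (-u) := by
  obtain ⟨z, hz⟩ := h
  exact ⟨-z, by push_cast; linarith⟩

theorem T3.sub {u v : ℚ} (h : T3 u) (h' : T3 v) : T3 (u - v) := by
  rw [sub_eq_add_neg]; exact h.add h'.neg

theorem Q4.add {u v : ℚ} (h : Q4 u) (h' : T3 v) : Q4 (u + v) := by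
  obtain ⟨z, hz⟩ := h
  obtain ⟨w, hw⟩ := h'
  exact ⟨z + 2 * w, by push_cast; linarith⟩

theorem Q4.neg {u : ℚ} (h : Q4 u) : Q4 (-u) := by
  obtain ⟨z, hz⟩ := h
  exact ⟨-z - 1, by push_cast; linarith⟩

theorem Q4.sub {u v : ℚ} (h : Q4 u) (h' : T3 v) : Q4 (u - v) := by
  rw [sub_eq_add_neg]; exact h.add h'.neg

theorem Q4.add' {u v : ℚ} (h : Q4 u) (h' : T3 v) : Q4 (v + u) := by
  rw [add_comm]; exact h.add h'

theorem Q4.sub' {u v : ℚ} (h : Q4 u) (h' : T3 v) : Q4 (v - u) := by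
  rw [sub_eq_add_neg]; exact h.neg.add' h'

theorem H2.add {u v : ℚ} (h : H2 u) (h' : T3 v) : H2 (u + v) := by
  obtain ⟨z, hz⟩ := h
  obtain ⟨w, hw⟩ := h'
  exact ⟨z + w, by push_cast; linarith⟩

theorem Q4.two {u : ℚ} (h : Q4 u) : H2 (u + u) := by
  obtain ⟨z, hz⟩ := h
  exact ⟨z, by linarith⟩

theorem cop : Nat.Coprime 3 2 := by decide

theorem T3.vnn {u : ℚ} (h : T3 u) : V 2 u 0 := by
  obtain ⟨z, hz⟩ := h
  refine V.of_le ?_
  rw [val_of_mul_eq (p := 2) cop (z := z) (by simpa using hz)]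
  positivity

theorem val_two : padicValRat 2 (2 : ℚ) = 1 := by
  simpa using padicValRat.self (p := 2) (by norm_num)

theorem val_four : padicValRat 2 (4 : ℚ) = 2 := by
  have : (4 : ℚ) = 2 * 2 := by norm_num
  rw [this, padicValRat.mul (by norm_num) (by norm_num), val_two]; rfl

theorem val_odd {u : ℚ} {z : ℤ} (h : 3 * u = 2 * z + 1) : u ≠ 0 ∧ padicValRat 2 u = 0 := by
  constructor
  · rintro rfl
    have : (0 : ℤ) = 2 * z + 1 := by exact_mod_cast (by simpa using h : (0 : ℚ) = 2 * z + 1)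
    omega
  · rw [val_of_mul_eq (p := 2) cop (z := 2 * z + 1) (by simpa using h),
      padicValInt.eq_zero_of_not_dvd (by push_cast; omega)]
    rfl

theorem Q4.val {u : ℚ} (h : Q4 u) : u ≠ 0 ∧ padicValRat 2 u = -2 := by
  obtain ⟨z, hz⟩ := h
  obtain ⟨h1, h2⟩ := val_odd (u := 4 * u) (z := z) (by linarith)
  have h3 : u ≠ 0 := fun e => h1 (by simp [e])
  rw [padicValRat.mul (by norm_num) h3, val_four] at h2
  exact ⟨h3, by omega⟩

theorem H2.val {u : ℚ} (h : H2 u) : u ≠ 0 ∧ padicValRat 2 u = -1 := by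
  obtain ⟨z, hz⟩ := h
  obtain ⟨h1, h2⟩ := val_odd (u := 2 * u) (z := z) (by linarith)
  have h3 : u ≠ 0 := fun e => h1 (by simp [e])
  rw [padicValRat.mul (by norm_num) h3, val_two] at h2
  exact ⟨h3, by omega⟩

theorem Q4.rv {a : ℚ} (h : Q4 a) (N : ℕ) : rv 2 a N = -2 * N := by
  rw [Caab.rv, sum_congr rfl fun i _ => (h.add (T3.nat i)).val.2]
  simp [mul_comm]

theorem H2.rv {a : ℚ} (h : H2 a) (N : ℕ) : rv 2 a N = -N := by
  rw [Caab.rv, sum_congr rfl fun i _ => (h.add (T3.nat i)).val.2]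
  simp

theorem Q4.rf_ne {a : ℚ} (h : Q4 a) (N : ℕ) : rf a N ≠ 0 :=
  prod_ne_zero_iff.2 fun i _ => (h.add (T3.nat i)).val.1

theorem H2.rf_ne {a : ℚ} (h : H2 a) (N : ℕ) : rf a N ≠ 0 :=
  prod_ne_zero_iff.2 fun i _ => (h.add (T3.nat i)).val.1

theorem Q4.val_rf {a : ℚ} (h : Q4 a) (N : ℕ) : (padicValRat 2 (rf a N) : ℝ) = -2 * N := by
  rw [Caab.val_rf (h.rf_ne N), h.rv]; push_cast; ring

theorem H2.val_rf {a : ℚ} (h : H2 a) (N : ℕ) : (padicValRat 2 (rf a N) : ℝ) = -N := by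
  rw [Caab.val_rf (h.rf_ne N), h.rv]; push_cast; ring

theorem Q4.V_rf {a : ℚ} (h : Q4 a) (N : ℕ) : V 2 (rf a N) (-2 * N) := V.of_le (h.val_rf N).ge

theorem H2.V_rf {a : ℚ} (h : H2 a) (N : ℕ) : V 2 (rf a N) (-N) := V.of_le (h.val_rf N).ge

theorem T3.V_rf {a : ℚ} (h : T3 a) (N : ℕ) : V 2 (rf a N) 0 :=
  V.prod0 fun i _ => (h.add (T3.nat i)).vnn

theorem T3.V_rf' {a : ℚ} (h : T3 a) (N L : ℕ) (hN : N ≤ 2 ^ (L + 1)) :
    V 2 (rf a N) (N - L - 2) := by
  obtain ⟨z, hz⟩ := h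
  have := Caab.V_rf (p := 2) cop (a := a) (a' := z) (by simpa using hz) N L hN
  norm_num at this
  exact this

theorem T3.rv_ge {a : ℚ} (h : T3 a) (N L : ℕ) (hN : N ≤ 2 ^ (L + 1)) (hne : rf a N ≠ 0) :
    (N : ℝ) - L - 2 ≤ rv 2 a N := by
  have := (h.V_rf' N L hN).le hne
  rwa [val_rf hne] at this

theorem T3.rv_le {a : ℚ} (h : T3 a) (N L M : ℕ) (hM : 3 * M < 2 ^ (L + 1)) (h1 : -(M : ℚ) ≤ a)
    (h2 : a + N ≤ M) : (rv 2 a N : ℝ) ≤ N + L := by
  obtain ⟨z, hz⟩ := h
  have := Caab.rv_le (p := 2) cop (a := a) (a' := z) (by simpa using hz) N L (fun i hi => by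
    have h3 : (i : ℚ) < N := by exact_mod_cast hi
    have h4 : (0 : ℚ) ≤ i := by positivity
    have h5 : ((3 * M : ℕ) : ℤ) < ((2 ^ (L + 1) : ℕ) : ℤ) := by exact_mod_cast hM
    have h6 : -(3 * (M : ℤ)) ≤ z + 3 * (i : ℤ) := by
      have : -(3 * (M : ℚ)) ≤ z + 3 * (i : ℚ) := by linarith
      exact_mod_cast this
    have h7 : z + 3 * (i : ℤ) ≤ 3 * (M : ℤ) := by
      have : z + 3 * (i : ℚ) ≤ 3 * (M : ℚ) := by linarith
      exact_mod_cast this
    push_cast at h5 ⊢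
    rw [abs_lt]
    constructor <;> linarith)
  norm_num at this
  exact this

theorem good_mul_rf {Y0 : Finset ℚ} {f : ℚ → ℚ} {r : ℝ} (a : ℚ) (N : ℕ) (h : Good 2 Y0 f r)
    (hw : ∀ y ∈ Y0, Q4 (y + a)) : Good 2 Y0 (fun y => f y * rf (y + a) N) (r - 2 * N) := by
  have h4 : V 2 (4 : ℚ) 0 := by simpa using V.nat (p := 2) 4
  have h1 := h.mul_prod (range N) (u := fun _ => 4) (w := fun i => 4 * (a + i)) (fun _ _ => h4)
    (fun i _ y hy => by
      have h2 := ((hw y hy).add (T3.nat i)).val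
      have e : 4 * y + 4 * (a + i) = 4 * (y + a + i) := by ring
      refine V.of_le ?_
      rw [e, padicValRat.mul (by norm_num) h2.1, val_four, h2.2]
      norm_num)
  have h5 : V 2 (((4 : ℚ)⁻¹) ^ N) (N * (-2)) := (V.inv (by rw [val_four]; norm_num)).pow N
  refine ((h1.const_mul h5).mono (by linarith)).congr fun y _ => ?_
  have e : ∏ i ∈ range N, (4 * y + 4 * (a + (i : ℚ))) = 4 ^ N * rf (y + a) N := by
    rw [rf, ← card_range N, ← prod_const, card_range, ← prod_mul_distrib]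
    exact prod_congr rfl fun i _ => by ring
  rw [e, inv_pow]
  field_simp

theorem good_div_rf {Y0 : Finset ℚ} {f : ℚ → ℚ} {r : ℝ} (a : ℚ) (N : ℕ) (h : Good 2 Y0 f r)
    (hw : ∀ y ∈ Y0, Q4 (y + a)) : Good 2 Y0 (fun y => f y / rf (y + a) N) (r + 2 * N) := by
  have h4 : V 2 (4 : ℚ) 0 := by simpa using V.nat (p := 2) 4
  have h1 := h.div_prod (range N) (u := fun _ => 4) (w := fun i => 4 * (a + i)) (fun _ _ => h4)
    (fun i _ y hy => by
      have h2 := ((hw y hy).add (T3.nat i)).val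
      have e : 4 * y + 4 * (a + i) = 4 * (y + a + i) := by ring
      rw [e, padicValRat.mul (by norm_num) h2.1, val_four, h2.2]
      exact ⟨mul_ne_zero (by norm_num) h2.1, by norm_num⟩)
  have h5 : V 2 ((4 : ℚ) ^ N) (N * 2) := (V.of_le (by rw [val_four]; norm_num)).pow N
  refine ((h1.const_mul h5).mono (by linarith)).congr fun y hy => ?_
  have e : ∏ i ∈ range N, (4 * y + 4 * (a + (i : ℚ))) = 4 ^ N * rf (y + a) N := by
    rw [rf, ← card_range N, ← prod_const, card_range, ← prod_mul_distrib]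
    exact prod_congr rfl fun i _ => by ring
  have := (hw y hy).rf_ne N
  rw [e]
  field_simp

section Entry

variable {b c : ℚ} (hP : Par b c) (hb : Q4 b) (hc : T3 c) (hc1 : -1 ≤ c) (hc0 : c ≤ 0)
  {m L : ℕ} (hm : 1 ≤ m) (hL : 2000 * m < 2 ^ (L + 1))

include hP hb hc hc1 hc0 hm hL in
/-- one residue at a 2-integral point -/
theorem term_c {y : ℚ} (hy : y ∈ Sset c (22 * m)) {s ε i j : ℕ} (hs : s < 22 * m) (hε : ε ≤ 1)
    (hi : i < 10 * m) (hj : j < 10 * m) :
    V 2 (FF b c m s ε y * (rf (y + 0) i * rf (y + 0) j) / ∏ z ∈ (SS b c m).erase y, (y - z))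
      (28 * m + (i + j - 7 * m) - 12 * (L + 1)) := by
  have hyS : y ∈ SS b c m := mem_union_left _ hy
  obtain ⟨k, hk, hyk⟩ := mem_Sset.1 hy
  have hT : T3 y := by rw [hyk]; exact (hc.sub T3.one).sub (T3.nat k)
  by_cases h2 : rf (y + 1 - c) s = 0
  · exact Or.inl (by rw [FF_eq_zero (Or.inr h2)]; simp)
  have q1 : Q4 (y + b) := hb.add' hT
  have q2 : Q4 (y + 1 - b) := hb.sub' (hT.add T3.one)
  have hv := val_term (p := 2) (ε := ε) hP hyS (q2.rf_ne s) h2
  rw [q1.rv, q1.rv, q2.rv, q2.rv] at hv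
  have hkq : (k : ℚ) + 1 ≤ 22 * m := by exact_mod_cast hk
  have hsq : (s : ℚ) + 1 ≤ 22 * m := by exact_mod_cast hs
  have hk0 : (0 : ℚ) ≤ k := by positivity
  have hs0 : (0 : ℚ) ≤ s := by positivity
  have hmq : (1 : ℚ) ≤ m := by exact_mod_cast hm
  have hM : 3 * (30 * m) < 2 ^ (L + 1) := by omega
  have a1 := (hT.add T3.one).rv_ge (9 * m) L (by omega) (rf_ne_zero (hP.add_one_ne hyS) _)
  have a2 := (hT.add hc).rv_ge (6 * m) L (by omega) (rf_ne_zero (hP.add_c_ne hyS) _)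
  have a3 := ((hT.add T3.one).sub hc).rv_ge s L (by omega) h2
  have a4 := (hT.add hc).rv_le (s + 1) L _ hM (by push_cast; linarith) (by push_cast; linarith)
  have a5 := ((hT.add T3.one).add (T3.nat s)).rv_le 1 L _ hM (by push_cast; linarith)
    (by push_cast; linarith)
  have a6 := ((hT.add T3.one).sub hc).rv_le (22 * m) L _ hM (by push_cast; linarith)
    (by push_cast; linarith)
  have a7 : (0 : ℝ) ≤ padicValRat 2 (y + 1 + s) :=
    ((hT.add T3.one).add (T3.nat s)).vnn.le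
      (fun e => hP.add_one_ne hyS (-(s : ℤ)) (by push_cast; linarith))
  simp only [rv, sum_range_one, Nat.cast_zero, add_zero, Nat.cast_one] at a5
  have a8 : (ε : ℝ) * padicValRat 2 (y + 1 + s) ≤ 1 + L := by
    have : (ε : ℝ) ≤ 1 := by exact_mod_cast hε
    nlinarith
  have b1 := (hT.add T3.zero).V_rf' i L (by omega)
  have b2 := (hT.add T3.zero).V_rf' j L (by omega)
  have hv' := congrArg (fun z : ℤ => (z : ℝ)) hv
  push_cast at hv' a1 a2 a4 a6
  have b3 := (V.self (p := 2) (FF b c m s ε y / ∏ z ∈ (SS b c m).erase y, (y - z))).mul (b1.mul b2)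
  rw [mul_div_right_comm]
  have hL0 : (0 : ℝ) ≤ L := by positivity
  exact b3.mono (by rw [hv']; linarith)

include hP hb hc hc1 hc0 hm hL in
theorem part_c (a1 a2 : ℤ) {i j : ℕ} (hi : i < 10 * m) (hj : j < 10 * m) :
    V 2 (∑ y ∈ Sset c (22 * m), ZZ b c m y * XX b c m (etaF a1 a2) y *
      (rf (y + 0) i * rf (y + 0) j) / ∏ z ∈ (SS b c m).erase y, (y - z))
      (28 * m + (i + j - 7 * m) - 12 * (L + 1)) := by
  refine V.sum fun y hy => ?_
  have e : ZZ b c m y * XX b c m (etaF a1 a2) y *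
      (rf (y + 0) i * rf (y + 0) j) / ∏ z ∈ (SS b c m).erase y, (y - z) =
      ∑ s ∈ range (22 * m), ((a1 : ℚ) * (FF b c m s 0 y * (rf (y + 0) i * rf (y + 0) j) /
        ∏ z ∈ (SS b c m).erase y, (y - z)) + (a2 : ℚ) * (FF b c m s 1 y *
        (rf (y + 0) i * rf (y + 0) j) / ∏ z ∈ (SS b c m).erase y, (y - z))) := by
    rw [XX, mul_sum, sum_mul, sum_div]
    refine sum_congr rfl fun s _ => ?_
    simp only [FF, etaF, pow_zero, pow_one, div_one]
    rw [add_right_comm y (s : ℚ) 1]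
    ring
  rw [e]
  exact V.sum fun s hs =>
    ((V.int a1).zero_mul' (term_c hP hb hc hc1 hc0 hm hL hy (mem_range.1 hs) (by omega) hi hj)).add
    ((V.int a2).zero_mul' (term_c hP hb hc hc1 hc0 hm hL hy (mem_range.1 hs) le_rfl hi hj))

include hb hc in
theorem alpha (j : ℕ) : H2 ((j : ℚ) + (2 * c + 2 * b - 1)) := by
  have := hb.two.add ((((T3.nat j).add hc).add hc).sub T3.one)
  convert this using 1
  ring

include hb hc in
theorem aco_V (a1 a2 : ℤ) (L j : ℕ) (hj : j ≤ 2 ^ (L + 1)) :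
    V 2 (aco c b a1 a2 j) (-2 * L - 5) := by
  obtain ⟨z, hz⟩ := id hc
  have := V_aco (p := 2) cop (g := c) (h := b) (g' := z) (by simpa using hz) a1 a2 (σ := 1)
    zero_le_one (fun j => (alpha hb hc j).val.2)
    (fun j => V.of_le (by rw [(hb.add' ((T3.nat j).add hc)).val.2]; norm_num)) L j hj
  exact this.mono (by norm_num)

include hP hb hc hm hL in
theorem err_b (a1 a2 : ℤ) {y : ℚ} (hy : y ∈ Sset b (20 * m)) {i j : ℕ} (hi : i < 10 * m)
    (hj : j < 10 * m) :
    V 2 (ZZ b c m y * XX b c m (errF c b a1 a2 (40 * m)) y *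
      (rf (y + 0) i * rf (y + 0) j) / ∏ z ∈ (SS b c m).erase y, (y - z))
      (28 * m - 12 * (L + 1)) := by
  obtain ⟨k, hk, hyk⟩ := mem_Sset.1 hy
  have hQ : Q4 y := by rw [hyk]; exact (hb.sub T3.one).sub (T3.nat k)
  have hH : H2 (y + b) := by
    have := hb.two.add (T3.one.neg.sub (T3.nat k))
    convert this using 1
    rw [hyk]; ring
  have hI : T3 (y + 1 - b) := by
    have := (T3.nat k).neg
    convert this using 1
    rw [hyk]; ring
  have z1 : V 2 (ZZ b c m y) (-36 * m) :=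
    ((((hQ.add T3.one).V_rf (9 * m)).mul (hH.V_rf (6 * m))).mul ((hQ.add hc).V_rf (6 * m))).mono
      (by push_cast; linarith)
  have hL0 : (0 : ℝ) ≤ L := by positivity
  have z2 : V 2 (XX b c m (errF c b a1 a2 (40 * m)) y) (80 * m - 2 * L - 5) := by
    refine V.sum fun s _ => ?_
    have hs0 : (0 : ℝ) ≤ s := by positivity
    have p1 : V 2 (piS b c s y) 0 := by
      have := ((hI.V_rf s).mul (((hQ.add T3.one).sub hc).V_rf s)).div
        (q' := rf (y + b) (s + 1) * rf (y + c) (s + 1)) (s := -3 * (s + 1)) (by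
          rw [padicValRat.mul (hH.rf_ne _) ((hQ.add hc).rf_ne _)]
          push_cast
          rw [hH.val_rf, (hQ.add hc).val_rf]
          push_cast
          linarith)
      exact this.mono (by linarith)
    refine p1.zero_mul' ?_
    have q1 : Q4 (y + s + c + 1) := ((hQ.add (T3.nat s)).add hc).add T3.one
    have q2 : Q4 (y + s + 1) := (hQ.add (T3.nat s)).add T3.one
    have e1 := ((V.int (p := 2) a2).mul (hc.V_rf (40 * m))).div
      (q' := rf (y + s + c + 1) (40 * m) * (y + s + 1)) (s := -80 * m - 2) (by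
        rw [padicValRat.mul (q1.rf_ne _) q2.val.1]
        push_cast
        rw [q1.val_rf, q2.val.2]
        push_cast
        linarith)
    have q3 : V 2 (((40 * m : ℕ) : ℚ) + c + b) (-2) :=
      V.of_le (by rw [(hb.add' ((T3.nat (40 * m)).add hc)).val.2]; norm_num)
    have q4 : V 2 (((40 * m : ℕ) : ℚ) + 2 * c) 0 := by
      have := ((T3.nat (40 * m)).add (hc.add hc)).vnn
      rwa [← two_mul] at this
    have e2 := ((q3.mul q4).mul (aco_V hb hc a1 a2 L (40 * m) (by omega))).div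
      (q' := rf (y + s + c + 1) (40 * m + 1)) (s := -80 * m - 2) (by
        rw [q1.val_rf]
        push_cast
        linarith)
    exact (e1.mono (by linarith)).add (e2.mono (by linarith))
  have z3 := ((hQ.add T3.zero).V_rf i).mul ((hQ.add T3.zero).V_rf j)
  have hkq : (k : ℚ) + 1 ≤ 20 * m := by exact_mod_cast hk
  have hk0 : (0 : ℚ) ≤ k := by positivity
  have hM : 3 * (30 * m) < 2 ^ (L + 1) := by omega
  have z4 := hI.rv_le (20 * m) L _ hM (by push_cast; linarith) (by push_cast; linarith)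
  have z5 : (padicValRat 2 (∏ z ∈ (SS b c m).erase y, (y - z)) : ℝ) ≤ -24 * m + L := by
    rw [val_prod_erase, hP.sum_val_SS, ((hQ.add T3.one).sub hc).rv]
    push_cast at z4 ⊢
    linarith
  have hi' : (i : ℝ) ≤ 10 * m := by exact_mod_cast hi.le
  have hj' : (j : ℝ) ≤ 10 * m := by exact_mod_cast hj.le
  exact (((z1.mul z2).mul z3).div z5).mono (by linarith)

include hP hb hc in
theorem main_b {i j : ℕ} (hi : i < 10 * m) (hj : j < 10 * m) (t : ℕ) :
    V 2 (∑ y ∈ Sset b (20 * m), ZZ b c m y / rf (y + c) (t + 1) *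
      (rf (y + 0) i * rf (y + 0) j) / ∏ z ∈ (SS b c m).erase y, (y - z)) (28 * m) := by
  have d1 : Disjoint (Sset c (22 * m)) (Sset (1 - c) (t + 1)) :=
    disjoint_Sset (fun z e => hP.hcc (z + 1) (by push_cast; linarith)) _ _
  have d2 : Disjoint (Sset b (20 * m)) (Sset (1 - c) (t + 1)) :=
    disjoint_Sset (fun z e => hP.hbc (z + 1) (by push_cast; linarith)) _ _
  have d3 : Disjoint (Sset b (20 * m)) (Sset c (22 * m) ∪ Sset (1 - c) (t + 1)) :=
    disjoint_union_right.2 ⟨(hP.disj m).symm, d2⟩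
  set P : ℚ[X] := rfP 1 (9 * m) * rfP b (6 * m) * rfP c (6 * m) * (rfP 0 i * rfP 0 j) with hPdef
  have hdeg : P.natDegree = 9 * m + 6 * m + 6 * m + (i + j) := by
    rw [hPdef, (((rfP_monic _ _).mul (rfP_monic _ _)).mul (rfP_monic _ _)).natDegree_mul
      ((rfP_monic _ _).mul (rfP_monic _ _)), ((rfP_monic _ _).mul (rfP_monic _ _)).natDegree_mul
      (rfP_monic _ _), (rfP_monic _ _).natDegree_mul (rfP_monic _ _),
      (rfP_monic _ _).natDegree_mul (rfP_monic _ _)]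
    simp only [rfP_natDegree]
  have hev : ∀ y, P.eval y = ZZ b c m y * (rf (y + 0) i * rf (y + 0) j) := fun y => by
    simp only [hPdef, eval_mul, rfP_eval, ZZ]
  have h0 := dd_poly_eq_zero P (Sset b (20 * m) ∪ (Sset c (22 * m) ∪ Sset (1 - c) (t + 1))) (by
    rw [hdeg, card_union_of_disjoint d3, card_union_of_disjoint d1, card_Sset, card_Sset,
      card_Sset]
    omega)
  rw [dd_union _ d3] at h0
  have hsub : Sset b (20 * m) ⊆ SS b c m := subset_union_right
  have hsd : SS b c m \ Sset b (20 * m) = Sset c (22 * m) := union_sdiff_cancel_right (hP.disj m)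
  rw [dd_part (fun y => ZZ b c m y / rf (y + c) (t + 1) * (rf (y + 0) i * rf (y + 0) j)) hsub, hsd]
  have e1 : dd (fun y => ZZ b c m y / rf (y + c) (t + 1) * (rf (y + 0) i * rf (y + 0) j) /
      ∏ z ∈ Sset c (22 * m), (y - z)) (Sset b (20 * m)) =
      dd (fun y => P.eval y / ∏ z ∈ Sset c (22 * m) ∪ Sset (1 - c) (t + 1), (y - z))
        (Sset b (20 * m)) := by
    refine dd_congr fun y _ => ?_
    rw [prod_union d1, prod_sub_Sset (1 - c), hev, show y + 1 - (1 - c) = y + c by ring]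
    ring
  rw [e1, eq_neg_of_add_eq_zero_left h0]
  refine V.neg ?_
  have hT : ∀ y ∈ Sset c (22 * m) ∪ Sset (1 - c) (t + 1), T3 y := by
    intro y hy
    rcases mem_union.1 hy with hy | hy <;> obtain ⟨k, -, rfl⟩ := mem_Sset.1 hy
    · exact (hc.sub T3.one).sub (T3.nat k)
    · exact ((T3.one.sub hc).sub T3.one).sub (T3.nat k)
  have g1 := ((((Good.one (p := 2) (Y0 := Sset c (22 * m) ∪ Sset (1 - c) (t + 1))).mul_rf 1 (9 * m)
    fun y hy => ((hT y hy).add T3.one).vnn).mul_rf c (6 * m)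
    fun y hy => ((hT y hy).add hc).vnn).mul_rf 0 i
    fun y hy => ((hT y hy).add T3.zero).vnn).mul_rf 0 j
    fun y hy => ((hT y hy).add T3.zero).vnn
  have g2 := good_div_rf (1 - b) (20 * m) (good_mul_rf b (6 * m) g1
    fun y hy => hb.add' (hT y hy)) fun y hy => (hb.sub' T3.one).add' (hT y hy)
  refine ((g2.mono (s := 28 * m) (by push_cast; linarith)).congr fun y _ => ?_).out
  rw [prod_sub_Sset, hev, ZZ, add_sub_assoc]
  ring

include hP hb hc hm hL in
theorem part_b (a1 a2 : ℤ) {i j : ℕ} (hi : i < 10 * m) (hj : j < 10 * m) :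
    V 2 (∑ y ∈ Sset b (20 * m), ZZ b c m y * XX b c m (etaF a1 a2) y *
      (rf (y + 0) i * rf (y + 0) j) / ∏ z ∈ (SS b c m).erase y, (y - z))
      (28 * m - 12 * (L + 1)) := by
  have e : ∑ y ∈ Sset b (20 * m), ZZ b c m y * XX b c m (etaF a1 a2) y *
      (rf (y + 0) i * rf (y + 0) j) / ∏ z ∈ (SS b c m).erase y, (y - z) =
      ∑ t ∈ range (40 * m + 1), aco c b a1 a2 t *
        (∑ y ∈ Sset b (20 * m), ZZ b c m y / rf (y + c) (t + 1) *
          (rf (y + 0) i * rf (y + 0) j) / ∏ z ∈ (SS b c m).erase y, (y - z)) +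
      ∑ y ∈ Sset b (20 * m), ZZ b c m y * XX b c m (errF c b a1 a2 (40 * m)) y *
        (rf (y + 0) i * rf (y + 0) j) / ∏ z ∈ (SS b c m).erase y, (y - z) := by
    simp only [mul_sum]
    rw [sum_comm, ← sum_add_distrib]
    refine sum_congr rfl fun y hy => ?_
    rw [XX_expand hP (Or.inr ⟨rfl, rfl⟩) a1 a2 (fun j => (alpha hb hc j).val.1)
      (mem_union_right _ hy) (40 * m), mul_add, add_mul, add_div, mul_sum, sum_mul, sum_div]
    congr 1
    exact sum_congr rfl fun t _ => by ring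
  rw [e]
  have hL0 : (0 : ℝ) ≤ L := by positivity
  refine V.add (V.sum fun t ht => ?_) (V.sum fun y hy => err_b hP hb hc hm hL a1 a2 hy hi hj)
  have ht' := mem_range.1 ht
  exact ((aco_V hb hc a1 a2 L t (by omega)).mul (main_b hP hb hc hi hj t)).mono (by linarith)

include hP hb hc hc1 hc0 hm hL in
theorem entry (a1 a2 : ℤ) {i j : ℕ} (hi : i < 10 * m) (hj : j < 10 * m) :
    V 2 (LL b c m (etaF a1 a2) (fun y => (rfP 0 i).eval y * (rfP 0 j).eval y))
      (28 * m + min 0 ((i : ℝ) + j - 7 * m) - 12 * (L + 1)) := by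
  simp only [rfP_eval]
  rw [LL, dd, SS, sum_union (hP.disj m)]
  exact ((part_c hP hb hc hc1 hc0 hm hL a1 a2 hi hj).mono
    (by linarith [min_le_right 0 ((i : ℝ) + j - 7 * m)])).add
    ((part_b hP hb hc hm hL a1 a2 hi hj).mono (by linarith [min_le_left 0 ((i : ℝ) + j - 7 * m)]))

end Entry

theorem sum_min (A : ℝ) (hA : 0 ≤ A) (N : ℕ) :
    -(A + 1) ^ 2 / 2 ≤ ∑ i ∈ range N, min 0 ((i : ℝ) - A) := by
  have key : ∀ N : ℕ, (max 0 (A + 1 - N)) ^ 2 / 2 - (A + 1) ^ 2 / 2 ≤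
      ∑ i ∈ range N, min 0 ((i : ℝ) - A) := by
    intro N
    induction N with
    | zero => rw [max_eq_right (by simp; linarith)]; simp
    | succ N ih =>
      rw [sum_range_succ]
      push_cast
      rcases le_total ((N : ℝ) - A) 0 with h | h
      · rw [min_eq_right h, max_eq_right (by linarith)]
        rw [max_eq_right (by linarith)] at ih
        nlinarith
      · rw [min_eq_left h, max_eq_left (by linarith)]
        nlinarith [sq_nonneg (max 0 (A + 1 - N))]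
  have := key N
  nlinarith [sq_nonneg (max 0 (A + 1 - N))]

theorem log_small : ∀ᶠ m : ℕ in atTop,
    120 * ((Nat.log 2 (2000 * m) : ℝ) + 1) + 8 ≤ 0.05 * m := by
  have h1 : ∀ᶠ x : ℝ in atTop, ‖Real.log x‖ ≤ 0.0001 * ‖x‖ :=
    Real.isLittleO_log_id_atTop.bound (by norm_num)
  filter_upwards [tendsto_natCast_atTop_atTop.eventually h1, eventually_ge_atTop 1000000]
    with m h2 h3
  have hm : (1000000 : ℝ) ≤ m := by exact_mod_cast h3
  rw [Real.norm_eq_abs, Real.norm_eq_abs, abs_of_nonneg (by linarith : (0 : ℝ) ≤ m)] at h2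
  have h4 := le_abs_self (Real.log m)
  have h5 : (2 : ℝ) ^ Nat.log 2 (2000 * m) ≤ 2000 * m := by
    exact_mod_cast Nat.pow_log_le_self 2 (by omega : 2000 * m ≠ 0)
  have h6 := Real.log_le_log (by positivity) h5
  rw [Real.log_pow, Real.log_mul (by norm_num) (by linarith)] at h6
  have h7 := Real.log_two_gt_d9
  have h8 : Real.log 2000 ≤ 11 := by
    have : Real.log 2000 ≤ Real.log (2 ^ 11) := Real.log_le_log (by norm_num) (by norm_num)
    rw [Real.log_pow] at this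
    have := Real.log_two_lt_d9
    push_cast at *
    linarith
  have h9 : (0 : ℝ) ≤ Nat.log 2 (2000 * m) := by positivity
  nlinarith

end Two

theorem two (b c : ℚ) (hb : b = -1 / 4 ∨ b = -3 / 4) (hc : c = -1 / 3 ∨ c = -2 / 3) :
    ∀ᶠ m : ℕ in atTop, ∀ a1 a2 : ℤ, V 2 (DD b c a1 a2 m) (267.7 * (m : ℝ) ^ 2) := by
  have hP := par_of hb hc
  have hb' : Two.Q4 b := by
    rcases hb with rfl | rfl
    · exact ⟨-2, by norm_num⟩
    · exact ⟨-5, by norm_num⟩
  have hc' : Two.T3 c := by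
    rcases hc with rfl | rfl
    · exact ⟨-1, by norm_num⟩
    · exact ⟨-2, by norm_num⟩
  have hc1 : -1 ≤ c := by rcases hc with rfl | rfl <;> norm_num
  have hc0 : c ≤ 0 := by rcases hc with rfl | rfl <;> norm_num
  filter_upwards [Two.log_small, eventually_ge_atTop 1] with m h1 hm a1 a2
  set L := Nat.log 2 (2000 * m)
  have hL : 2000 * m < 2 ^ (L + 1) := Nat.lt_pow_succ_log_self (by norm_num) _
  have h2 := V_DD (p := 2) (b := b) (c := c) (a1 := a1) (a2 := a2) (m := m) (fun i => rfP 0 i)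
    (fun i _ => rfP_monic _ _) (fun i _ => rfP_natDegree _ _)
    (fun i => 14 * m + min 0 ((i : ℝ) - 3.5 * m) - 6 * (L + 1)) (fun i hi j hj =>
      (Two.entry hP hb' hc' hc1 hc0 hm hL a1 a2 hi hj).mono (by
        have := min_le_left 0 ((i : ℝ) - 3.5 * m)
        have := min_le_right 0 ((i : ℝ) - 3.5 * m)
        have := min_le_left 0 ((j : ℝ) - 3.5 * m)
        have := min_le_right 0 ((j : ℝ) - 3.5 * m)
        have : min 0 ((i : ℝ) - 3.5 * m) + min 0 ((j : ℝ) - 3.5 * m) ≤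
            min 0 ((i : ℝ) + j - 7 * m) := le_min (by linarith) (by linarith)
        linarith))
  refine h2.mono ?_
  have hm' : (1 : ℝ) ≤ m := by exact_mod_cast hm
  have h3 := Two.sum_min (3.5 * m) (by positivity) (10 * m)
  rw [sum_sub_distrib, sum_add_distrib]
  simp only [sum_const, card_range, nsmul_eq_mul]
  push_cast
  nlinarith

end Pool.Agent.Caab
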