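import Pool.Agent.Lib.MP_caab05_ag.Arith
import Pool.Agent.Lib.MP_caab05_ag.Two
import Pool.Agent.Lib.MP_caab05_ag.Three
import Pool.Agent.Lib.MP_caab05_ag.ArchDet
import Pool.Agent.Lib.MP_caab05_ag.ArchNum
import Pool.Agent.Lib.MP_caab05_ag.Identity
import Pool.Agent.Lib.MP_caab05_ag.Dougall

/-! Irrationality of the well-poised sum and of the quotient of Beta values. -/

namespace Pool.Agent.Caab

open Finset Filter Topology

theorem sum_not_rational (b c : ℚ) (hb : b = -1 / 4 ∨ b = -3 / 4) (hc : c = -1 / 3 ∨ c = -2 / 3)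
    (Λ : ℚ) : ¬ HasSum (tt (b : ℝ) (c : ℝ)) (Λ : ℝ) := by
  intro hΛ
  set x : ℚ := -(2 * b + 2 * c - 1) * Λ with hx
  set y : ℚ := b * c with hy
  obtain ⟨N, hN, a1, a2, h1, h2⟩ : ∃ N : ℕ, 0 < N ∧ ∃ a1 a2 : ℤ,
      (a1 : ℚ) = N * x ∧ (a2 : ℚ) = N * y := by
    refine ⟨x.den * y.den, Nat.mul_pos x.den_pos y.den_pos, x.num * y.den, y.num * x.den, ?_, ?_⟩
    · push_cast
      rw [← Rat.mul_den_eq_num x]; ring
    · push_cast
      rw [← Rat.mul_den_eq_num y]; ring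
  have hb1 : (-1 : ℝ) < b ∧ (b : ℝ) < 0 := by rcases hb with rfl | rfl <;> norm_num
  have hc1 : (-1 : ℝ) < c ∧ (c : ℝ) < 0 := by rcases hc with rfl | rfl <;> norm_num
  have hN' : (0 : ℝ) < N := by exact_mod_cast hN
  have hlin : ∀ (m : ℕ) (R : ℚ → ℚ),
      LL b c m (etaF a1 a2) R = N * LL b c m (etaF x y) R := by
    intro m R
    rw [LL_etaF, LL_etaF, mul_sum, h1, h2]
    exact sum_congr rfl fun s _ => by ring
  have hlog : ∀ᶠ m : ℕ in atTop, 10 * Real.log N ≤ m :=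
    tendsto_natCast_atTop_atTop.eventually_ge_atTop _
  have hev := (arith b c hb hc a1 a2).and ((two b c hb hc).and ((three b c hb hc).and
    (arch_num.and (hlog.and (eventually_ge_atTop 1)))))
  have h3m : Tendsto (fun μ : ℕ => 3 * μ) atTop atTop := tendsto_id.const_mul_atTop' (by norm_num)
  obtain ⟨μ, g1, g2, g3, g4, g5, g6⟩ := (h3m.eventually hev).exists
  obtain ⟨r, hr, g7, g8⟩ := g4 (dvd_mul_right 3 μ)
  generalize 3 * μ = m at *
  have hcast : ((DD b c a1 a2 m : ℚ) : ℝ) =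
      hank (fun l => ((LL b c m (etaF a1 a2) (fun y => y ^ l) : ℚ) : ℝ)) (10 * m) := by
    rw [DD, hank, hank]
    exact (Rat.castHom ℝ).map_det _
  obtain ⟨d1, d2⟩ := arch_det m g6 (fun k => N * ww b c m k)
    (fun l => ((LL b c m (etaF a1 a2) (fun y => y ^ l) : ℚ) : ℝ)) (N * r)
    (fun k => mul_pos hN' (ww_pos _ _ hb1.1 hb1.2 hc1.1 hc1.2 m g6 k))
    (fun k => by
      rw [mul_assoc]
      exact mul_le_mul_of_nonneg_left
        ((ww_le_wbar _ _ hb1.1 hb1.2 hc1.1 hc1.2 m g6 k).trans (g7 k)) hN'.le)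
    (fun l hl => by
      have := (identity b c hb hc m g6 Λ hΛ l hl).mul_left (N : ℝ)
      rw [hlin]
      push_cast
      simpa only [mul_assoc] using this)
  rw [← hcast] at d1 d2
  have low := g1 (by exact_mod_cast d1) (g2 a1 a2) (g3 a1 a2)
  have e : ((10 * m).factorial : ℝ) * (N * r) ^ (10 * m) * detpr m =
      (N : ℝ) ^ (10 * m) * (((10 * m).factorial : ℝ) * r ^ (10 * m) * detpr m) := by
    rw [mul_pow]; ring
  have hpos : 0 < ((10 * m).factorial : ℝ) * r ^ (10 * m) * detpr m := by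
    have := d1.trans_le d2
    rw [e] at this
    exact (mul_pos_iff_of_pos_left (by positivity)).1 this
  have up := Real.log_le_log d1 d2
  rw [e, Real.log_mul (by positivity) hpos.ne', Real.log_pow] at up
  have hm1 : (1 : ℝ) ≤ m := by exact_mod_cast g6
  push_cast at up
  nlinarith

/-- irrationality of the Gamma quotient -/
theorem gamma_quotient_irrational (x y : ℝ) (hx : x = 1 / 4 ∨ x = 3 / 4)
    (hy : y = 1 / 3 ∨ y = 2 / 3) :
    Irrational (Real.Gamma x ^ 2 / Real.Gamma (2 * x) * (Real.Gamma y ^ 2 / Real.Gamma (2 * y)) /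
      (Real.Gamma (x + y) ^ 2 / Real.Gamma (2 * (x + y)))) := by
  rintro ⟨q, hq⟩
  obtain ⟨b, hb, hbx⟩ : ∃ b : ℚ, (b = -1 / 4 ∨ b = -3 / 4) ∧ (b : ℝ) = -x := by
    rcases hx with rfl | rfl
    · exact ⟨-1 / 4, Or.inl rfl, by norm_num⟩
    · exact ⟨-3 / 4, Or.inr rfl, by norm_num⟩
  obtain ⟨c, hc, hcy⟩ : ∃ c : ℚ, (c = -1 / 3 ∨ c = -2 / 3) ∧ (c : ℝ) = -y := by
    rcases hy with rfl | rfl
    · exact ⟨-1 / 3, Or.inl rfl, by norm_num⟩
    · exact ⟨-2 / 3, Or.inr rfl, by norm_num⟩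
  have hx0 : 0 < x ∧ x < 1 := by rcases hx with rfl | rfl <;> norm_num
  have hy0 : 0 < y ∧ y < 1 := by rcases hy with rfl | rfl <;> norm_num
  refine sum_not_rational b c hb hc ((1 + -(b * c) / (2 * (b + c)) * q) / 2) ?_
  have h := dougall b c (by linarith) (by linarith) (by linarith) (by linarith)
  convert h using 1
  push_cast
  rw [hq, hbx, hcy]
  have e1 : 1 - -x = x + 1 := by ring
  have e2 : 1 - -y = y + 1 := by ring
  have e3 : 1 - 2 * -x - 2 * -y = 2 * (x + y) + 1 := by ring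
  have e4 : 1 - 2 * -x = 2 * x + 1 := by ring
  have e5 : 1 - 2 * -y = 2 * y + 1 := by ring
  have e6 : 1 - -x - -y = x + y + 1 := by ring
  rw [e3, e6, e1, e2, e4, e5, Real.Gamma_add_one hx0.1.ne', Real.Gamma_add_one hy0.1.ne',
    Real.Gamma_add_one (by linarith : 2 * (x + y) ≠ 0), Real.Gamma_add_one (by linarith : 2 * x ≠ 0),
    Real.Gamma_add_one (by linarith : 2 * y ≠ 0), Real.Gamma_add_one (by linarith : x + y ≠ 0)]
  have n1 := (Real.Gamma_pos_of_pos (by linarith : 0 < 2 * x)).ne'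
  have n2 := (Real.Gamma_pos_of_pos (by linarith : 0 < 2 * y)).ne'
  have n3 := (Real.Gamma_pos_of_pos (by linarith : 0 < x + y)).ne'
  have n4 := (Real.Gamma_pos_of_pos (by linarith : 0 < 2 * (x + y))).ne'
  have n5 := hx0.1.ne'
  have n6 := hy0.1.ne'
  have n7 : x + y ≠ 0 := by linarith
  have n8 : -x + -y ≠ 0 := by linarith
  field_simp
  ring

theorem beta_integral (x : ℝ) (hx : 0 < x) :
    ∫ t in (0 : ℝ)..1, (t * (1 - t)) ^ (x - 1) = Real.Gamma x ^ 2 / Real.Gamma (2 * x) := by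
  have h := Complex.betaIntegral_eq_Gamma_mul_div x x (by simpa) (by simpa)
  rw [← Complex.ofReal_add, Complex.Gamma_ofReal, Complex.Gamma_ofReal, Complex.betaIntegral] at h
  have h2 : ∫ t in (0 : ℝ)..1, (t : ℂ) ^ ((x : ℂ) - 1) * (1 - (t : ℂ)) ^ ((x : ℂ) - 1) =
      ((∫ t in (0 : ℝ)..1, (t * (1 - t)) ^ (x - 1) : ℝ) : ℂ) := by
    rw [← intervalIntegral.integral_ofReal]
    refine intervalIntegral.integral_congr fun t ht => ?_
    rw [Set.uIcc_of_le (by norm_num)] at ht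
    rw [Real.mul_rpow ht.1 (by linarith [ht.2]), Complex.ofReal_mul, Complex.ofReal_cpow ht.1,
      Complex.ofReal_cpow (by linarith [ht.2])]
    push_cast
    rfl
  rw [h2] at h
  rw [sq, two_mul]
  exact_mod_cast h

end Pool.Agent.Caab
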