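import Pool.Agent.Lib.MP_caab05_ag.Levels

/-! The valuation of the determinant at primes with `p ^ 2 > 300 m`. -/

namespace Pool.Agent.Caab

open Finset

namespace Large

/-- the rational number `u` is congruent to the integer `z` modulo `p` -/
def Cg (p : ℕ) (u : ℚ) (z : ℤ) : Prop := ∃ t : ℤ, 12 * (u - z) = p * t

theorem Cg.add {p : ℕ} {u u' : ℚ} {z z' : ℤ} (h : Cg p u z) (h' : Cg p u' z') :
    Cg p (u + u') (z + z') := by
  obtain ⟨t, ht⟩ := h
  obtain ⟨t', ht'⟩ := h'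
  exact ⟨t + t', by push_cast; linear_combination ht + ht'⟩

theorem Cg.sub {p : ℕ} {u u' : ℚ} {z z' : ℤ} (h : Cg p u z) (h' : Cg p u' z') :
    Cg p (u - u') (z - z') := by
  obtain ⟨t, ht⟩ := h
  obtain ⟨t', ht'⟩ := h'
  exact ⟨t - t', by push_cast; linear_combination ht - ht'⟩

theorem Cg.int (p : ℕ) (z : ℤ) : Cg p (z : ℚ) z := ⟨0, by simp⟩

theorem Cg.nat (p : ℕ) (z : ℕ) : Cg p (z : ℚ) z := ⟨0, by simp⟩

theorem Cg.one (p : ℕ) : Cg p 1 1 := ⟨0, by simp⟩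

theorem Cg.emod {p : ℕ} {u : ℚ} {z : ℤ} (h : Cg p u z) : Cg p u (z % p) := by
  obtain ⟨t, ht⟩ := h
  refine ⟨t + 12 * (z / p), ?_⟩
  have : ((z % p : ℤ) : ℚ) = z - p * ((z / p : ℤ) : ℚ) := by
    have := Int.emod_add_mul_ediv z p
    exact_mod_cast (by linarith : z % p = z - p * (z / p))
  rw [this]
  push_cast
  linear_combination ht

variable {p : ℕ} [hp : Fact p.Prime]

theorem Cg.spec (h12 : Nat.Coprime 12 p) {u : ℚ} {z : ℤ} (h : Cg p u z) :
    ∃ N : ℤ, 12 * u = N ∧ padicValRat p u = padicValInt p N ∧ ((p : ℤ) ∣ N ↔ (p : ℤ) ∣ z) := by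
  obtain ⟨t, ht⟩ := h
  have e : 12 * u = ((12 * z + p * t : ℤ) : ℚ) := by push_cast; linear_combination ht
  refine ⟨12 * z + p * t, e, val_of_mul_eq h12 (by exact_mod_cast e), ?_⟩
  rw [dvd_add_left (dvd_mul_right _ _)]
  have hc : IsCoprime (p : ℤ) 12 := by
    have := Nat.isCoprime_iff_coprime.2 h12.symm
    exact_mod_cast this
  exact ⟨fun h => hc.dvd_of_dvd_mul_left h, fun h => h.mul_left _⟩

theorem Cg.V0 (h12 : Nat.Coprime 12 p) {u : ℚ} {z : ℤ} (h : Cg p u z) : V p u 0 := by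
  obtain ⟨N, -, h2, -⟩ := h.spec h12
  exact V.of_le (by rw [h2]; positivity)

theorem Cg.V1 (h12 : Nat.Coprime 12 p) {u : ℚ} {z : ℤ} (h : Cg p u z) (hz : (p : ℤ) ∣ z) :
    V p u 1 := by
  obtain ⟨N, h1, h2, h3⟩ := h.spec h12
  refine V.of_ne fun hu => ?_
  have hN : N ≠ 0 := by
    rintro rfl
    exact hu (by simpa using h1)
  have := ((padicValInt_dvd_iff (p := p) 1 N).1 (by simpa using h3.2 hz)).resolve_left hN
  rw [h2]
  exact_mod_cast this

theorem Cg.unit (h12 : Nat.Coprime 12 p) {u : ℚ} {z : ℤ} (h : Cg p u z) (hz : ¬ (p : ℤ) ∣ z) :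
    u ≠ 0 ∧ padicValRat p u ≤ 0 := by
  obtain ⟨N, h1, h2, h3⟩ := h.spec h12
  have hN : ¬ (p : ℤ) ∣ N := fun h => hz (h3.1 h)
  refine ⟨fun hu => hN ?_, by rw [h2, padicValInt.eq_zero_of_not_dvd hN]; rfl⟩
  have : N = 0 := by rw [hu, mul_zero] at h1; exact_mod_cast h1.symm
  simp [this]

theorem Cg.val_ge (h12 : Nat.Coprime 12 p) {u : ℚ} {z : ℤ} (h : Cg p u z) (hu : u ≠ 0) :
    (if (p : ℤ) ∣ z then 1 else 0) ≤ padicValRat p u := by
  split_ifs with hz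
  · exact_mod_cast (h.V1 h12 hz).le hu
  · exact_mod_cast (h.V0 h12).le hu

theorem Cg.val_le (h12 : Nat.Coprime 12 p) {u : ℚ} {z : ℤ} (h : Cg p u z)
    (hs : 12 * |u| < (p : ℚ) ^ 2) : padicValRat p u ≤ if (p : ℤ) ∣ z then 1 else 0 := by
  split_ifs with hz
  · obtain ⟨N, h1, h2, -⟩ := h.spec h12
    have hN : |N| < (p : ℤ) ^ (1 + 1) := by
      have : |(N : ℚ)| < (p : ℚ) ^ 2 := by rw [← h1, abs_mul]; simpa using hs
      exact_mod_cast this
    have := (valInt_le_card N 1 hN).trans (card_filter_le _ _)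
    rw [h2]
    simpa using this
  · exact (h.unit h12 hz).2

theorem sum_ite_run (t : ℤ) (N : ℕ) :
    ∑ i ∈ range N, (if (p : ℤ) ∣ t + i then (1 : ℤ) else 0) = (t + N - 1) / p - (t - 1) / p := by
  rw [← card_dvd_run p hp.out.pos t N, card_filter]
  push_cast
  rfl

theorem rv_ge_cn (h12 : Nat.Coprime 12 p) {a : ℚ} {α : ℤ} (h : Cg p a α) {N : ℕ}
    (hne : rf a N ≠ 0) : (α + N - 1) / p - (α - 1) / p ≤ rv p a N := by
  rw [← sum_ite_run, rv]
  exact sum_le_sum fun i hi => (h.add (Cg.nat p i)).val_ge h12 (prod_ne_zero_iff.1 hne i hi)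

omit hp in
theorem size {m : ℕ} (hpm : 300 * m < p ^ 2) {u : ℚ} (h1 : -(25 * m) ≤ u) (h2 : u ≤ 25 * m) :
    12 * |u| < (p : ℚ) ^ 2 := by
  have : (300 : ℚ) * m < (p : ℚ) ^ 2 := by exact_mod_cast hpm
  have := abs_le.2 ⟨h1, h2⟩
  linarith

theorem rv_le_cn (h12 : Nat.Coprime 12 p) {m : ℕ} (hpm : 300 * m < p ^ 2) {a : ℚ} {α : ℤ}
    (h : Cg p a α) {N : ℕ} (h1 : -(25 * m) ≤ a) (h2 : a + N ≤ 25 * m) :
    rv p a N ≤ (α + N - 1) / p - (α - 1) / p := by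
  rw [← sum_ite_run, rv]
  refine sum_le_sum fun i hi => (h.add (Cg.nat p i)).val_le h12 (size hpm ?_ ?_)
  · have : (0 : ℚ) ≤ i := by positivity
    linarith
  · have : (i : ℚ) ≤ N := by exact_mod_cast (mem_range.1 hi).le
    linarith

theorem rv_lt_cn (h12 : Nat.Coprime 12 p) {m : ℕ} (hpm : 300 * m < p ^ 2) {a : ℚ} {α : ℤ}
    (h : Cg p a α) {N : ℕ} (h1 : -(25 * m) ≤ a) (h2 : a + N ≤ 25 * m) {j : ℕ} (hj : j < N)
    (h0 : a + j = 0) : rv p a N < (α + N - 1) / p - (α - 1) / p := by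
  rw [← sum_ite_run, rv]
  refine sum_lt_sum (fun i hi => (h.add (Cg.nat p i)).val_le h12 (size hpm ?_ ?_))
    ⟨j, mem_range.2 hj, ?_⟩
  · have : (0 : ℚ) ≤ i := by positivity
    linarith
  · have : (i : ℚ) ≤ N := by exact_mod_cast (mem_range.1 hi).le
    linarith
  · have : (p : ℤ) ∣ α + j := by
      by_contra hc
      exact ((h.add (Cg.nat p j)).unit h12 hc).1 h0
    simp [h0, this]

omit hp in
theorem div_lt_of_dvd (hp0 : 0 < p) {a z b : ℤ} (h1 : a < z) (h2 : z ≤ b) (h : (p : ℤ) ∣ z) :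
    a / p < b / p := by
  obtain ⟨t, rfl⟩ := h
  have hp' : (0 : ℤ) < p := by exact_mod_cast hp0
  have a1 : a / p < t := (Int.ediv_lt_iff_lt_mul hp').2 (by linarith)
  have a2 : t ≤ b / p := (Int.le_ediv_iff_mul_le hp').2 (by linarith)
  omega

omit hp in
theorem div_add_eq (hp0 : 0 < p) (u β : ℤ) (h0 : 0 ≤ β) (h1 : β ≤ p) :
    (u + β) / p = u / p + if (p : ℤ) ≤ u % p + β then 1 else 0 := by
  have hp' : (0 : ℤ) < p := by exact_mod_cast hp0
  have e1 := Int.emod_add_mul_ediv u p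
  have e2 := Int.emod_nonneg u hp'.ne'
  have e3 := Int.emod_lt_of_pos u hp'
  rw [Int.ediv_eq_iff_of_pos hp']
  split_ifs <;> constructor <;> nlinarith

omit hp in
theorem div_sub_eq (hp0 : 0 < p) (u β : ℤ) (h0 : 0 ≤ β) (h1 : β ≤ p) :
    (u - β) / p = u / p - 1 + if β ≤ u % p then 1 else 0 := by
  have hp' : (0 : ℤ) < p := by exact_mod_cast hp0
  have e1 := Int.emod_add_mul_ediv u p
  have e2 := Int.emod_nonneg u hp'.ne'
  have e3 := Int.emod_lt_of_pos u hp'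
  rw [Int.ediv_eq_iff_of_pos hp']
  split_ifs <;> constructor <;> nlinarith

theorem phase (b4 c3 kb kc β γ P z : ℤ) (hb : b4 = -1 ∨ b4 = -3) (hc : c3 = -1 ∨ c3 = -2)
    (hkb : kb = 1 ∨ kb = 3) (hkc : kc = 1 ∨ kc = 2) (h30 : 30 ≤ P)
    (hβ : 4 * β = kb * P + b4) (hγ : 3 * γ = kc * P + c3) :
    ∃ θ : ℤ, (θ = 0 ∨ θ = 3 ∨ θ = 4 ∨ θ = 8 ∨ θ = 9) ∧
      (if P ≤ z + β then 1 else 0) = ind (12 - 3 * kb) θ ∧
      (if P ≤ z + γ then 1 else 0) = ind (12 - 4 * kc) θ ∧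
      (if β ≤ z then 1 else 0) = ind (3 * kb) θ ∧ (if γ ≤ z then 1 else 0) = ind (4 * kc) θ := by
  refine ⟨if z < min β (P - β) then 0 else if z < min γ (P - γ) then 3 else
    if z < max γ (P - γ) then 4 else if z < max β (P - β) then 8 else 9, ?_, ?_⟩
  · split_ifs <;> simp
  · rcases hkb with rfl | rfl <;> rcases hkc with rfl | rfl <;> simp only [ind] <;>
      refine ⟨?_, ?_, ?_, ?_⟩ <;> split_ifs <;> omega

theorem phiStep_le (kb kc fb fc eb ec base θ r : ℤ) : phiStep kb kc fb fc eb ec base θ r ≤ r := by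
  unfold phiStep
  split_ifs
  · exact min_le_left _ _
  · exact le_rfl

theorem phiStep_le' {kb kc fb fc eb ec base θ : ℤ} (r : ℤ)
    (h : min (fb - ind (12 - 3 * kb) θ) (fc - ind (12 - 4 * kc) θ) + 1 ≤
      max (eb - ind (3 * kb) θ) (ec - ind (4 * kc) θ)) :
    phiStep kb kc fb fc eb ec base θ r ≤
      base - 1 - ind (12 - 3 * kb) θ - ind (12 - 4 * kc) θ + ind (3 * kb) θ + ind (4 * kc) θ := by
  unfold phiStep
  rw [if_pos h]
  exact min_le_right _ _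

theorem Phi_le_phase {kb kc a1 fb fc eb ec θ : ℤ} (hθ : θ = 0 ∨ θ = 3 ∨ θ = 4 ∨ θ = 8 ∨ θ = 9)
    (h : min (fb - ind (12 - 3 * kb) θ) (fc - ind (12 - 4 * kc) θ) + 1 ≤
      max (eb - ind (3 * kb) θ) (ec - ind (4 * kc) θ)) :
    Phi kb kc a1 fb fc eb ec ≤ a1 + fb + fc - eb - ec - 1 - ind (12 - 3 * kb) θ -
      ind (12 - 4 * kc) θ + ind (3 * kb) θ + ind (4 * kc) θ := by
  unfold Phi
  rcases hθ with rfl | rfl | rfl | rfl | rfl
  · exact phiStep_le' _ h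
  · exact (phiStep_le ..).trans (phiStep_le' _ h)
  · exact (phiStep_le ..).trans ((phiStep_le ..).trans (phiStep_le' _ h))
  · exact (phiStep_le ..).trans ((phiStep_le ..).trans ((phiStep_le ..).trans (phiStep_le' _ h)))
  · exact (phiStep_le ..).trans ((phiStep_le ..).trans ((phiStep_le ..).trans
      ((phiStep_le ..).trans (phiStep_le' _ h))))

theorem Phi_le_eps {kb kc a1 fb fc eb ec : ℤ} (h : min a1 (min fb fc) + 1 ≤ max eb ec) :
    Phi kb kc a1 fb fc eb ec ≤ a1 + fb + fc - eb - ec - 2 := by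
  unfold Phi
  rw [if_pos h]
  exact (phiStep_le ..).trans ((phiStep_le ..).trans ((phiStep_le ..).trans
    ((phiStep_le ..).trans ((phiStep_le ..).trans (min_le_right _ _)))))

/-- the arithmetic heart: the order in a mixed class is at least `PhiX` -/
theorem PhiX_le (b4 c3 kb kc β γ : ℤ) (hb : b4 = -1 ∨ b4 = -3) (hc : c3 = -1 ∨ c3 = -2)
    (hkb : kb = 1 ∨ kb = 3) (hkc : kc = 1 ∨ kc = 2) (p m x s : ℕ) (h30 : 30 ≤ p)
    (hβ : 4 * β = kb * p + b4) (hγ : 3 * γ = kc * p + c3) (δ : ℤ)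
    (hδ : δ = 0 ∨ (δ = 1 ∧ (p : ℤ) ∣ x + 1 + s))
    (hT : ((x : ℤ) + β + 6 * m - 1) / p < (x + s + β) / p ∨
      ((x : ℤ) + γ + 6 * m - 1) / p < (x + s + γ) / p ∨
      (δ = 1 ∧ ((x : ℤ) + 9 * m) / p < (x + s + 1) / p))
    (hS : ((x : ℤ) + s - β) / p < (x - β + 20 * m) / p ∨
      ((x : ℤ) + s - γ) / p < (x - γ + 22 * m) / p) :
    PhiX kb kc β γ p m x ≤ ((x : ℤ) + 9 * m) / p + ((x : ℤ) + β + 6 * m - 1) / p +
      ((x : ℤ) + γ + 6 * m - 1) / p - (x - β + 20 * m) / p - (x - γ + 22 * m) / p -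
      (x + s + β) / p - (x + s + γ) / p + (x + s - β) / p + (x + s - γ) / p + 1 - δ := by
  have hp0 : 0 < p := by omega
  have hP : (30 : ℤ) ≤ p := by exact_mod_cast h30
  have hβ0 : 1 ≤ β ∧ β ≤ p - 1 := by rcases hkb with rfl | rfl <;> omega
  have hγ0 : 1 ≤ γ ∧ γ ≤ p - 1 := by rcases hkc with rfl | rfl <;> omega
  rw [div_add_eq hp0 (x + s) β (by omega) (by omega), div_add_eq hp0 (x + s) γ (by omega) (by omega)]
    at hT ⊢
  rw [div_sub_eq hp0 (x + s) β (by omega) (by omega), div_sub_eq hp0 (x + s) γ (by omega) (by omega)]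
    at hS ⊢
  rw [div_add_eq hp0 (x + s) 1 (by omega) (by omega)] at hT
  unfold PhiX
  generalize ((x : ℤ) + 9 * m) / p = a1 at *
  generalize ((x : ℤ) + β + 6 * m - 1) / p = fb at *
  generalize ((x : ℤ) + γ + 6 * m - 1) / p = fc at *
  generalize ((x : ℤ) - β + 20 * m) / p = eb at *
  generalize ((x : ℤ) - γ + 22 * m) / p = ec at *
  rcases hδ with rfl | ⟨rfl, hd⟩
  · obtain ⟨θ, hθ, e1, e2, e3, e4⟩ :=
      phase b4 c3 kb kc β γ p (((x : ℤ) + s) % p) hb hc hkb hkc hP hβ hγ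
    rw [e1, e2] at hT ⊢
    rw [e3, e4] at hS ⊢
    have := Phi_le_phase (kb := kb) (kc := kc) (a1 := a1) (fb := fb) (fc := fc) (eb := eb)
      (ec := ec) hθ (by omega)
    omega
  · have hz : ((x : ℤ) + s) % p = p - 1 := by
      obtain ⟨t, ht⟩ := hd
      have : (x : ℤ) + s = (p - 1) + p * (t - 1) := by linear_combination ht
      rw [this, Int.add_mul_emod_self_left, Int.emod_eq_of_lt (by omega) (by omega)]
    rw [hz] at hT hS ⊢
    rw [if_pos (by omega), if_pos (by omega)] at hS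
    rw [if_pos (by omega), if_pos (by omega), if_pos (by omega)] at hT
    rw [if_pos (by omega), if_pos (by omega), if_pos (by omega), if_pos (by omega)]
    have := Phi_le_eps (kb := kb) (kc := kc) (a1 := a1) (fb := fb) (fc := fc) (eb := eb)
      (ec := ec) (by omega)
    omega

end Large

end Pool.Agent.Caab
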