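import Pool.Agent.Lib.MP_caab05_ag.Tools

/-! The determinant bound from a potential on residue classes. -/

namespace Pool.Agent.Caab

open Finset Polynomial

theorem sum_toNat_le_hh (D : ℕ) (t : ℤ) :
    ∑ d ∈ range D, (((t - d + 1) / 2).toNat : ℤ) ≤ hh t := by
  induction D generalizing t with
  | zero =>
    simp only [range_zero, sum_empty, hh]
    split_ifs
    · exact le_rfl
    · positivity
  | succ D ih =>
    rw [sum_range_succ']
    have h1 := ih (t - 1)
    have e : ∀ d ∈ range D, (((t - ((d + 1 : ℕ) : ℤ) + 1) / 2).toNat : ℤ) =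
        (((t - 1 - d + 1) / 2).toNat : ℤ) := fun d _ => by
      congr 3; push_cast; ring
    rw [sum_congr rfl e]
    have h2 : hh (t - 1) + (((t - ((0 : ℕ) : ℤ) + 1) / 2).toNat : ℤ) ≤ hh t := by
      simp only [hh, Nat.cast_zero, sub_zero, sub_add_cancel]
      obtain ⟨a, rfl | rfl⟩ := Int.even_or_odd' t
      · have e1 : (2 * a) ^ 2 / 4 = a ^ 2 := by
          rw [show (2 * a) ^ 2 = 4 * a ^ 2 by ring]; omega
        have e2 : (2 * a + 1) ^ 2 / 4 = a ^ 2 + a := by
          rw [show (2 * a + 1) ^ 2 = 4 * (a ^ 2 + a) + 1 by ring]; omega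
        rw [e1, e2]
        have : 0 ≤ a ^ 2 := by positivity
        split_ifs <;> omega
      · have e1 : (2 * a + 1 + 1) ^ 2 / 4 = a ^ 2 + 2 * a + 1 := by
          rw [show (2 * a + 1 + 1) ^ 2 = 4 * (a ^ 2 + 2 * a + 1) by ring]; omega
        have e2 : (2 * a + 1) ^ 2 / 4 = a ^ 2 + a := by
          rw [show (2 * a + 1) ^ 2 = 4 * (a ^ 2 + a) + 1 by ring]; omega
        rw [e1, e2]
        have : 0 ≤ a ^ 2 := by positivity
        split_ifs <;> omega
    omega

theorem V_DD_levels {p : ℕ} [Fact p.Prime] {b c a1 a2 : ℚ} {m : ℕ} (Φ : ℕ → ℤ) (lam : ℤ)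
    (hlam : lam ≤ 0)
    (h : ∀ (e : ℕ → ℕ) (t : ℕ) (l : ℝ), l ≤ 0 → (∀ x < p, l ≤ (Φ x : ℝ) + e x) →
      V p (LL b c m (etaF a1 a2) (fun y => y ^ t * ∏ x ∈ range p, (y - x) ^ e x)) l) :
    V p (DD b c a1 a2 m) ((lam * (10 * m) - ∑ x ∈ range p, hh (lam - Φ x) : ℤ) : ℝ) := by
  classical
  set ee : ℕ → ℕ → ℕ := fun d x => ((lam - Φ x - d + 1) / 2).toNat with hee
  set K : ℕ → ℕ := fun d => ∑ x ∈ range p, ee d x with hK
  set D0 : ℕ := ∑ x ∈ range p, (lam - Φ x).natAbs with hD0
  have hK0 : K D0 = 0 := by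
    refine sum_eq_zero fun x hx => ?_
    have : (lam - Φ x).natAbs ≤ D0 :=
      single_le_sum (f := fun x => (lam - Φ x).natAbs) (fun _ _ => Nat.zero_le _) hx
    simp only [hee]
    omega
  have hex : ∀ i : ℕ, ∃ d, K d ≤ i := fun i => ⟨D0, by omega⟩
  set d : ℕ → ℕ := fun i => Nat.find (hex i) with hd
  have hd1 : ∀ i, K (d i) ≤ i := fun i => Nat.find_spec (hex i)
  have hd2 : ∀ i, d i ≤ D0 := fun i => Nat.find_min' (hex i) (by omega)
  have hd3 : ∀ i d', d' < d i → i < K d' := fun i d' h' => by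
    have := Nat.find_min (hex i) h'
    omega
  set Q : ℕ → ℚ[X] := fun i => X ^ (i - K (d i)) * ∏ x ∈ range p, (X - C (x : ℚ)) ^ ee (d i) x
    with hQ
  have hm : ∀ i, (∏ x ∈ range p, (X - C (x : ℚ)) ^ ee (d i) x).Monic := fun i =>
    monic_prod_of_monic _ _ fun x _ => (monic_X_sub_C _).pow _
  have h1 := V_DD (p := p) (b := b) (c := c) (a1 := a1) (a2 := a2) (m := m) Q
    (fun i _ => (monic_X_pow _).mul (hm i))
    (fun i _ => by
      simp only [hQ]
      rw [(monic_X_pow _).natDegree_mul (hm i), natDegree_X_pow,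
        natDegree_prod_of_monic _ _ fun x _ => (monic_X_sub_C _).pow _]
      simp only [natDegree_pow, natDegree_X_sub_C, mul_one]
      have := hd1 i
      simp only [hK] at this ⊢
      omega)
    (fun i => ((lam : ℝ) - d i) / 2)
    (fun i _ j _ => by
      have hl : (lam : ℝ) ≤ 0 := by exact_mod_cast hlam
      have := h (fun x => ee (d i) x + ee (d j) x) (i - K (d i) + (j - K (d j)))
        (((lam : ℝ) - d i) / 2 + ((lam : ℝ) - d j) / 2)
        (by
          have h1 : (0 : ℝ) ≤ d i := by positivity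
          have h2 : (0 : ℝ) ≤ d j := by positivity
          linarith)
        (fun x _ => by
          have h1 : lam - Φ x - d i ≤ 2 * (ee (d i) x : ℤ) := by simp only [hee]; omega
          have h2 : lam - Φ x - d j ≤ 2 * (ee (d j) x : ℤ) := by simp only [hee]; omega
          have h1' : (lam : ℝ) - Φ x - d i ≤ 2 * (ee (d i) x : ℝ) := by exact_mod_cast h1
          have h2' : (lam : ℝ) - Φ x - d j ≤ 2 * (ee (d j) x : ℝ) := by exact_mod_cast h2
          push_cast
          linarith)
      convert this using 3 with y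
      simp only [hQ, eval_mul, eval_pow, eval_X, eval_prod, eval_sub, eval_C, pow_add,
        prod_mul_distrib]
      ring)
  refine h1.mono ?_
  have h2 : ∑ i ∈ range (10 * m), (d i : ℤ) ≤ ∑ x ∈ range p, hh (lam - Φ x) := by
    have a1 : ∀ i ∈ range (10 * m), (d i : ℤ) ≤
        ∑ d' ∈ range D0, (if i < K d' then (1 : ℤ) else 0) := by
      intro i _
      have : range (d i) ⊆ (range D0).filter fun d' => i < K d' := fun d' hd' =>
        mem_filter.2 ⟨mem_range.2 ((mem_range.1 hd').trans_le (hd2 i)), hd3 i d' (mem_range.1 hd')⟩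
      have := card_le_card this
      rw [card_range, card_filter] at this
      exact_mod_cast this
    refine (sum_le_sum a1).trans ?_
    rw [sum_comm]
    have a2 : ∀ d' ∈ range D0, ∑ i ∈ range (10 * m), (if i < K d' then (1 : ℤ) else 0) ≤
        ∑ x ∈ range p, (ee d' x : ℤ) := by
      intro d' _
      have : ((range (10 * m)).filter fun i => i < K d') ⊆ range (K d') := fun i hi =>
        mem_range.2 (mem_filter.1 hi).2
      have := card_le_card this
      rw [card_range, card_filter] at this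
      simp only [hK] at this ⊢
      exact_mod_cast this
    refine (sum_le_sum a2).trans ?_
    rw [sum_comm]
    exact sum_le_sum fun x _ => sum_toNat_le_hh D0 (lam - Φ x)
  have h3 : ∑ i ∈ range (10 * m), (d i : ℝ) ≤ ∑ x ∈ range p, (hh (lam - Φ x) : ℝ) := by
    exact_mod_cast h2
  rw [← sum_div, sum_sub_distrib]
  simp only [sum_const, card_range, nsmul_eq_mul]
  push_cast
  linarith

end Pool.Agent.Caab
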