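import Pool.Agent.Lib.MP_caab05_ag.Val

/-! Divided differences, integrality closure, and the structure of the functional `LL`. -/

namespace Pool.Agent.Caab

open Finset Polynomial

theorem dd_congr {f g : ℚ → ℚ} {Y : Finset ℚ} (h : ∀ y ∈ Y, f y = g y) : dd f Y = dd g Y :=
  sum_congr rfl fun y hy => by rw [h y hy]

theorem dd_add (f g : ℚ → ℚ) (Y : Finset ℚ) : dd (fun y => f y + g y) Y = dd f Y + dd g Y := by
  simp only [dd, add_div, sum_add_distrib]

theorem dd_sub (f g : ℚ → ℚ) (Y : Finset ℚ) : dd (fun y => f y - g y) Y = dd f Y - dd g Y := by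
  simp only [dd, sub_div, sum_sub_distrib]

theorem dd_const_mul (a : ℚ) (f : ℚ → ℚ) (Y : Finset ℚ) : dd (fun y => a * f y) Y = a * dd f Y := by
  simp only [dd, mul_sum, mul_div_assoc]

theorem dd_sum {ι : Type*} (s : Finset ι) (f : ι → ℚ → ℚ) (Y : Finset ℚ) :
    dd (fun y => ∑ i ∈ s, f i y) Y = ∑ i ∈ s, dd (f i) Y := by
  simp only [dd, sum_div]
  exact sum_comm

theorem dd_poly (P : ℚ[X]) (Y : Finset ℚ) (h : P.degree < Y.card) :
    dd (fun y => P.eval y) Y = P.coeff (Y.card - 1) :=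
  (Lagrange.coeff_eq_sum (s := Y) (v := id) (Set.injOn_id _) h).symm

/-- the sum of all residues vanishes -/
theorem dd_poly_eq_zero (P : ℚ[X]) (Y : Finset ℚ) (h : P.natDegree + 2 ≤ Y.card) :
    dd (fun y => P.eval y) Y = 0 := by
  rw [dd_poly P Y (lt_of_le_of_lt degree_le_natDegree (by exact_mod_cast (by omega)))]
  exact coeff_eq_zero_of_natDegree_lt (by omega)

theorem dd_part (f : ℚ → ℚ) {Y S : Finset ℚ} (h : Y ⊆ S) :
    ∑ y ∈ Y, f y / ∏ z ∈ S.erase y, (y - z) = dd (fun y => f y / ∏ z ∈ S \ Y, (y - z)) Y := by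
  refine sum_congr rfl fun y hy => ?_
  have : S.erase y = S \ Y ∪ Y.erase y := by
    ext z
    simp only [mem_erase, mem_union, mem_sdiff]
    constructor
    · rintro ⟨h1, h2⟩
      by_cases hz : z ∈ Y
      · exact Or.inr ⟨h1, hz⟩
      · exact Or.inl ⟨h2, hz⟩
    · rintro (⟨h1, h2⟩ | ⟨h1, h2⟩)
      · exact ⟨fun e => h2 (e ▸ hy), h1⟩
      · exact ⟨h1, h h2⟩
  rw [this, prod_union (disjoint_of_subset_right (erase_subset _ _) sdiff_disjoint), div_div]

theorem dd_union (f : ℚ → ℚ) {Y Y' : Finset ℚ} (h : Disjoint Y Y') :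
    dd f (Y ∪ Y') = dd (fun y => f y / ∏ z ∈ Y', (y - z)) Y +
      dd (fun y => f y / ∏ z ∈ Y, (y - z)) Y' := by
  rw [dd, sum_union h, dd_part f subset_union_left, dd_part f subset_union_right,
    union_sdiff_cancel_left h, union_sdiff_cancel_right h]

theorem dd_erase (f : ℚ → ℚ) {Y : Finset ℚ} {y0 : ℚ} (h : y0 ∈ Y) :
    dd (fun y => (y - y0) * f y) Y = dd f (Y.erase y0) := by
  rw [dd, ← add_sum_erase _ _ h]
  simp only [sub_self, zero_mul, zero_div, zero_add]
  refine sum_congr rfl fun y hy => ?_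
  have hne : y ≠ y0 := ne_of_mem_erase hy
  have h1 : y0 ∈ Y.erase y := mem_erase.2 ⟨hne.symm, h⟩
  rw [← mul_prod_erase _ _ h1, erase_right_comm, mul_div_mul_left _ _ (sub_ne_zero.2 hne)]

theorem dd_lin (f : ℚ → ℚ) {Y : Finset ℚ} {y0 : ℚ} (h : y0 ∈ Y) (u w : ℚ) :
    dd (fun y => f y * (u * y + w)) Y = u * dd f (Y.erase y0) + (u * y0 + w) * dd f Y := by
  rw [← dd_erase f h, ← dd_const_mul, ← dd_const_mul, ← dd_add]
  exact dd_congr fun y _ => by ring

/-- all divided differences of `f` on subsets of `Y0` have valuation at least `r` -/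
def Good (p : ℕ) (Y0 : Finset ℚ) (f : ℚ → ℚ) (r : ℝ) : Prop := ∀ Y ⊆ Y0, V p (dd f Y) r

namespace Good

variable {p : ℕ} {Y0 : Finset ℚ} {f g : ℚ → ℚ} {r : ℝ}

theorem out (h : Good p Y0 f r) : V p (dd f Y0) r := h Y0 Subset.rfl

theorem congr (h : Good p Y0 f r) (hfg : ∀ y ∈ Y0, f y = g y) : Good p Y0 g r := fun Y hY => by
  rw [← dd_congr fun y hy => hfg y (hY hy)]; exact h Y hY

theorem mono {s : ℝ} (h : Good p Y0 f r) (hs : s ≤ r) : Good p Y0 f s :=
  fun Y hY => (h Y hY).mono hs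

theorem one : Good p Y0 (fun _ => 1) 0 := fun Y _ => by
  rcases Y.eq_empty_or_nonempty with rfl | hY
  · simpa [dd] using V.zero 0
  have := dd_poly 1 Y (by simpa using hY)
  simp only [eval_one, coeff_one] at this
  rw [this]
  split_ifs
  · exact V.one
  · exact V.zero 0

variable [Fact p.Prime]

theorem const_mul {a : ℚ} {s : ℝ} (h : Good p Y0 f r) (ha : V p a s) :
    Good p Y0 (fun y => a * f y) (s + r) := fun Y hY => by
  rw [dd_const_mul]; exact ha.mul (h Y hY)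

theorem add (h : Good p Y0 f r) (h' : Good p Y0 g r) : Good p Y0 (fun y => f y + g y) r :=
  fun Y hY => by rw [dd_add]; exact (h Y hY).add (h' Y hY)

theorem mul_lin {u w : ℚ} (h : Good p Y0 f r) (hu : V p u 0) (hw : ∀ y ∈ Y0, V p (u * y + w) 0) :
    Good p Y0 (fun y => f y * (u * y + w)) r := fun Y hY => by
  rcases Y.eq_empty_or_nonempty with rfl | ⟨y0, h0⟩
  · simpa [dd] using V.zero r
  rw [dd_lin f h0]
  exact (hu.zero_mul' (h _ ((erase_subset _ _).trans hY))).add ((hw y0 (hY h0)).zero_mul' (h Y hY))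

theorem div_lin {u w : ℚ} (h : Good p Y0 f r) (hu : V p u 0)
    (hw : ∀ y ∈ Y0, u * y + w ≠ 0 ∧ padicValRat p (u * y + w) ≤ 0) :
    Good p Y0 (fun y => f y / (u * y + w)) r := fun Y hY => by
  induction Y using Finset.induction_on with
  | empty => simpa [dd] using V.zero r
  | insert y0 Y hy0 ih =>
    have h0 : y0 ∈ insert y0 Y := mem_insert_self _ _
    have h1 := dd_lin (fun y => f y / (u * y + w)) h0 u w
    rw [dd_congr (g := f) (fun y hy => div_mul_cancel₀ _ (hw y (hY hy)).1), erase_insert hy0] at h1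
    have h2 : dd (fun y => f y / (u * y + w)) (insert y0 Y) =
        (dd f (insert y0 Y) - u * dd (fun y => f y / (u * y + w)) Y) / (u * y0 + w) := by
      rw [eq_div_iff (hw y0 (hY h0)).1, h1]; ring
    rw [h2]
    have h3 := ((h _ hY).sub (hu.zero_mul' (ih ((subset_insert _ _).trans hY)))).div (s := 0)
      (by exact_mod_cast (hw y0 (hY h0)).2)
    simpa using h3

theorem mul_prod {ι : Type*} (s : Finset ι) {u w : ι → ℚ} (h : Good p Y0 f r)
    (hu : ∀ i ∈ s, V p (u i) 0) (hw : ∀ i ∈ s, ∀ y ∈ Y0, V p (u i * y + w i) 0) :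
    Good p Y0 (fun y => f y * ∏ i ∈ s, (u i * y + w i)) r := by
  classical
  induction s using Finset.induction_on with
  | empty => simpa using h
  | insert a s ha ih =>
    have := (ih (fun i hi => hu i (mem_insert_of_mem hi))
      (fun i hi => hw i (mem_insert_of_mem hi))).mul_lin (hu a (mem_insert_self _ _))
      (hw a (mem_insert_self _ _))
    exact this.congr fun y _ => by rw [prod_insert ha]; ring

theorem div_prod {ι : Type*} (s : Finset ι) {u w : ι → ℚ} (h : Good p Y0 f r)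
    (hu : ∀ i ∈ s, V p (u i) 0)
    (hw : ∀ i ∈ s, ∀ y ∈ Y0, u i * y + w i ≠ 0 ∧ padicValRat p (u i * y + w i) ≤ 0) :
    Good p Y0 (fun y => f y / ∏ i ∈ s, (u i * y + w i)) r := by
  classical
  induction s using Finset.induction_on with
  | empty => simpa using h
  | insert a s ha ih =>
    have := (ih (fun i hi => hu i (mem_insert_of_mem hi))
      (fun i hi => hw i (mem_insert_of_mem hi))).div_lin (hu a (mem_insert_self _ _))
      (hw a (mem_insert_self _ _))
    exact this.congr fun y _ => by rw [prod_insert ha, div_div, mul_comm]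

theorem mul_prod_add {ι : Type*} (s : Finset ι) {w : ι → ℚ} (h : Good p Y0 f r)
    (hw : ∀ i ∈ s, ∀ y ∈ Y0, V p (y + w i) 0) :
    Good p Y0 (fun y => f y * ∏ i ∈ s, (y + w i)) r := by
  simpa using h.mul_prod s (u := fun _ => 1) (w := w) (fun _ _ => V.one) (by simpa using hw)

theorem div_prod_add {ι : Type*} (s : Finset ι) {w : ι → ℚ} (h : Good p Y0 f r)
    (hw : ∀ i ∈ s, ∀ y ∈ Y0, y + w i ≠ 0 ∧ padicValRat p (y + w i) ≤ 0) :
    Good p Y0 (fun y => f y / ∏ i ∈ s, (y + w i)) r := by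
  simpa using h.div_prod s (u := fun _ => 1) (w := w) (fun _ _ => V.one) (by simpa using hw)

theorem mul_ratio (I J : Finset ℕ) {w : ℕ → ℚ} (h : Good p Y0 f r)
    (hI : ∀ i ∈ I, ∀ y ∈ Y0, V p (y + w i) 0) (hJ : ∀ i ∈ J, ∀ y ∈ Y0, y + w i ≠ 0)
    (hJ' : ∀ i ∈ J, i ∉ I → ∀ y ∈ Y0, padicValRat p (y + w i) ≤ 0) :
    Good p Y0 (fun y => f y * ((∏ i ∈ I, (y + w i)) / ∏ i ∈ J, (y + w i))) r := by
  have h1 := (h.mul_prod_add (I \ J) (w := w) fun i hi => hI i (mem_sdiff.1 hi).1).div_prod_add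
    (J \ I) (w := w) fun i hi y hy =>
      ⟨hJ i (mem_sdiff.1 hi).1 y hy, hJ' i (mem_sdiff.1 hi).1 (mem_sdiff.1 hi).2 y hy⟩
  refine h1.congr fun y hy => ?_
  have e1 := prod_sdiff (f := fun i => y + w i) (inter_subset_left (s₁ := I) (s₂ := J))
  have e2 := prod_sdiff (f := fun i => y + w i) (inter_subset_right (s₁ := I) (s₂ := J))
  rw [sdiff_inter_self_left] at e1
  rw [sdiff_inter_self_right] at e2
  have h3 : ∏ i ∈ I ∩ J, (y + w i) ≠ 0 :=
    prod_ne_zero_iff.2 fun i hi => hJ i (mem_inter.1 hi).2 y hy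
  rw [← e1, ← e2, mul_div_mul_right _ _ h3, mul_div_assoc]

theorem mul_pow_add (w : ℚ) (n : ℕ) (h : Good p Y0 f r) (hw : ∀ y ∈ Y0, V p (y + w) 0) :
    Good p Y0 (fun y => f y * (y + w) ^ n) r := by
  simpa using h.mul_prod_add (range n) (w := fun _ => w) fun _ _ => hw

theorem mul_rf (a : ℚ) (N : ℕ) (h : Good p Y0 f r) (hw : ∀ y ∈ Y0, V p (y + a) 0) :
    Good p Y0 (fun y => f y * rf (y + a) N) r := by
  have := h.mul_prod_add (range N) (w := fun i => a + i) fun i _ y hy => by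
    rw [← add_assoc]; exact (hw y hy).add (V.nat i)
  simpa only [rf, add_assoc] using this

end Good

/-- the non-resonance conditions on the parameters -/
structure Par (b c : ℚ) : Prop where
  hb : ∀ z : ℤ, b ≠ z
  hc : ∀ z : ℤ, c ≠ z
  hbb : ∀ z : ℤ, b + b ≠ z
  hcc : ∀ z : ℤ, c + c ≠ z
  hbc : ∀ z : ℤ, b + c ≠ z
  hcb : ∀ z : ℤ, c - b ≠ z

theorem par_of {b c : ℚ} (hb : b = -1 / 4 ∨ b = -3 / 4) (hc : c = -1 / 3 ∨ c = -2 / 3) :
    Par b c := by
  have key : ∀ (q : ℚ) (k : ℤ), 12 * q = k → ¬ (12 : ℤ) ∣ k → ∀ z : ℤ, q ≠ z := by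
    intro q k hk hd z hz
    refine hd ⟨z, ?_⟩
    rw [hz] at hk
    exact_mod_cast hk.symm
  rcases hb with rfl | rfl <;> rcases hc with rfl | rfl
  · exact ⟨key _ (-3) (by norm_num) (by decide), key _ (-4) (by norm_num) (by decide),
      key _ (-6) (by norm_num) (by decide), key _ (-8) (by norm_num) (by decide),
      key _ (-7) (by norm_num) (by decide), key _ (-1) (by norm_num) (by decide)⟩
  · exact ⟨key _ (-3) (by norm_num) (by decide), key _ (-8) (by norm_num) (by decide),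
      key _ (-6) (by norm_num) (by decide), key _ (-16) (by norm_num) (by decide),
      key _ (-11) (by norm_num) (by decide), key _ (-5) (by norm_num) (by decide)⟩
  · exact ⟨key _ (-9) (by norm_num) (by decide), key _ (-4) (by norm_num) (by decide),
      key _ (-18) (by norm_num) (by decide), key _ (-8) (by norm_num) (by decide),
      key _ (-13) (by norm_num) (by decide), key _ 5 (by norm_num) (by decide)⟩
  · exact ⟨key _ (-9) (by norm_num) (by decide), key _ (-8) (by norm_num) (by decide),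
      key _ (-18) (by norm_num) (by decide), key _ (-16) (by norm_num) (by decide),
      key _ (-17) (by norm_num) (by decide), key _ 1 (by norm_num) (by decide)⟩

theorem mem_SS {b c y : ℚ} {m : ℕ} :
    y ∈ SS b c m ↔ (∃ j : ℕ, j < 22 * m ∧ y = c - 1 - j) ∨ ∃ j : ℕ, j < 20 * m ∧ y = b - 1 - j := by
  rw [SS, mem_union, mem_Sset, mem_Sset]

namespace Par

variable {b c : ℚ} (h : Par b c)
include h

theorem disj (m : ℕ) : Disjoint (Sset c (22 * m)) (Sset b (20 * m)) := disjoint_Sset h.hcb _ _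

theorem card_SS (m : ℕ) : (SS b c m).card = 42 * m := by
  rw [SS, card_union_of_disjoint (h.disj m), card_Sset, card_Sset]; ring

theorem ne_int {m : ℕ} {y : ℚ} (hy : y ∈ SS b c m) (z : ℤ) : y ≠ z := by
  rcases mem_SS.1 hy with ⟨j, -, rfl⟩ | ⟨j, -, rfl⟩
  · exact fun e => h.hc (z + 1 + j) (by push_cast; linarith)
  · exact fun e => h.hb (z + 1 + j) (by push_cast; linarith)

theorem add_one_ne {m : ℕ} {y : ℚ} (hy : y ∈ SS b c m) (z : ℤ) : y + 1 ≠ z :=
  fun e => h.ne_int hy (z - 1) (by push_cast; linarith)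

theorem add_b_ne {m : ℕ} {y : ℚ} (hy : y ∈ SS b c m) (z : ℤ) : y + b ≠ z := by
  rcases mem_SS.1 hy with ⟨j, -, rfl⟩ | ⟨j, -, rfl⟩
  · exact fun e => h.hbc (z + 1 + j) (by push_cast; linarith)
  · exact fun e => h.hbb (z + 1 + j) (by push_cast; linarith)

theorem add_c_ne {m : ℕ} {y : ℚ} (hy : y ∈ SS b c m) (z : ℤ) : y + c ≠ z := by
  rcases mem_SS.1 hy with ⟨j, -, rfl⟩ | ⟨j, -, rfl⟩
  · exact fun e => h.hcc (z + 1 + j) (by push_cast; linarith)
  · exact fun e => h.hbc (z + 1 + j) (by push_cast; linarith)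

theorem sum_val_SS (p m : ℕ) (y : ℚ) : ∑ z ∈ SS b c m, padicValRat p (y - z) =
    rv p (y + 1 - c) (22 * m) + rv p (y + 1 - b) (20 * m) := by
  rw [SS, sum_union (h.disj m), sum_val_Sset, sum_val_Sset]

/-- `XX` inverts the difference operator on `SS` -/
theorem tele {m : ℕ} {y : ℚ} (hy : y ∈ SS b c m) (f : ℚ → ℚ) :
    XX b c m (fun y => (y + b) * (y + c) * f y - (y + 1 - b) * (y + 1 - c) * f (y + 1)) y = f y := by
  set A : ℕ → ℚ := fun s =>
    rf (y + 1 - b) s * rf (y + 1 - c) s / (rf (y + b) s * rf (y + c) s) * f (y + s) with hA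
  have h1 : ∀ s ∈ range (22 * m), piS b c s y * ((y + s + b) * (y + s + c) * f (y + s) -
      (y + s + 1 - b) * (y + s + 1 - c) * f (y + s + 1)) = A s - A (s + 1) := by
    intro s _
    have n1 := rf_ne_zero (h.add_b_ne hy) s
    have n2 := rf_ne_zero (h.add_c_ne hy) s
    have n3 : y + b + s ≠ 0 := fun e => h.add_b_ne hy (-(s : ℤ)) (by push_cast; linarith)
    have n4 : y + c + s ≠ 0 := fun e => h.add_c_ne hy (-(s : ℤ)) (by push_cast; linarith)
    simp only [hA, piS, rf_succ]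
    push_cast
    rw [← add_assoc y s 1]
    field_simp
    ring
  rw [XX, sum_congr rfl h1, sum_range_sub']
  have h2 : rf (y + 1 - b) (22 * m) * rf (y + 1 - c) (22 * m) = 0 := by
    rcases mem_SS.1 hy with ⟨j, hj, rfl⟩ | ⟨j, hj, rfl⟩
    · exact mul_eq_zero_of_right _ (prod_eq_zero (mem_range.2 hj) (by ring))
    · exact mul_eq_zero_of_left (prod_eq_zero (i := j) (mem_range.2 (by omega)) (by ring)) _
  simp [hA, h2]

end Par

/-- one term of the functional -/
def FF (b c : ℚ) (m s ε : ℕ) (y : ℚ) : ℚ := ZZ b c m y * piS b c s y / (y + 1 + s) ^ ε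

theorem LL_etaF (b c a1 a2 : ℚ) (m : ℕ) (R : ℚ → ℚ) :
    LL b c m (etaF a1 a2) R = ∑ s ∈ range (22 * m),
      (a1 * dd (fun y => FF b c m s 0 y * R y) (SS b c m) +
        a2 * dd (fun y => FF b c m s 1 y * R y) (SS b c m)) := by
  simp only [← dd_const_mul, ← dd_add]
  rw [← dd_sum, LL]
  refine dd_congr fun y _ => ?_
  rw [XX, mul_sum, sum_mul]
  refine sum_congr rfl fun s _ => ?_
  simp only [FF, etaF, pow_zero, pow_one, div_one]
  rw [add_right_comm y (s : ℚ) 1]
  ring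

theorem V_LL {p : ℕ} [Fact p.Prime] {b c : ℚ} {m : ℕ} {R : ℚ → ℚ} {r : ℝ} (a1 a2 : ℤ)
    (h : ∀ s < 22 * m, ∀ ε ≤ 1, V p (dd (fun y => FF b c m s ε y * R y) (SS b c m)) r) :
    V p (LL b c m (etaF a1 a2) R) r := by
  rw [LL_etaF]
  exact V.sum fun s hs => ((V.int a1).zero_mul' (h s (mem_range.1 hs) 0 (by omega))).add
    ((V.int a2).zero_mul' (h s (mem_range.1 hs) 1 le_rfl))

/-- exact valuation of one residue -/
theorem val_term {p : ℕ} [Fact p.Prime] {b c : ℚ} (h : Par b c) {m s ε : ℕ} {y : ℚ}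
    (hy : y ∈ SS b c m) (h1 : rf (y + 1 - b) s ≠ 0) (h2 : rf (y + 1 - c) s ≠ 0) :
    padicValRat p (FF b c m s ε y / ∏ z ∈ (SS b c m).erase y, (y - z)) =
      rv p (y + 1) (9 * m) + rv p (y + b) (6 * m) + rv p (y + c) (6 * m) +
        rv p (y + 1 - b) s + rv p (y + 1 - c) s - rv p (y + b) (s + 1) - rv p (y + c) (s + 1) -
        ε * padicValRat p (y + 1 + s) - rv p (y + 1 - c) (22 * m) - rv p (y + 1 - b) (20 * m) := by
  have n1 := rf_ne_zero (h.add_one_ne hy) (9 * m)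
  have n2 := rf_ne_zero (h.add_b_ne hy) (6 * m)
  have n3 := rf_ne_zero (h.add_c_ne hy) (6 * m)
  have n4 := rf_ne_zero (h.add_b_ne hy) (s + 1)
  have n5 := rf_ne_zero (h.add_c_ne hy) (s + 1)
  have n6 : y + 1 + s ≠ 0 := fun e => h.add_one_ne hy (-(s : ℤ)) (by push_cast; linarith)
  have n7 := prod_erase_ne_zero (SS b c m) y
  have n8 : ZZ b c m y ≠ 0 := mul_ne_zero (mul_ne_zero n1 n2) n3
  have n9 : piS b c s y ≠ 0 := div_ne_zero (mul_ne_zero h1 h2) (mul_ne_zero n4 n5)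
  rw [FF, padicValRat.div (div_ne_zero (mul_ne_zero n8 n9) (pow_ne_zero _ n6)) n7,
    padicValRat.div (mul_ne_zero n8 n9) (pow_ne_zero _ n6), padicValRat.mul n8 n9, ZZ,
    padicValRat.mul (mul_ne_zero n1 n2) n3, padicValRat.mul n1 n2, piS,
    padicValRat.div (mul_ne_zero h1 h2) (mul_ne_zero n4 n5), padicValRat.mul h1 h2,
    padicValRat.mul n4 n5, padicValRat.pow, val_prod_erase, h.sum_val_SS,
    val_rf n1, val_rf n2, val_rf n3, val_rf n4, val_rf n5, val_rf h1, val_rf h2]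
  ring

theorem FF_eq_zero {b c : ℚ} {m s ε : ℕ} {y : ℚ}
    (h : rf (y + 1 - b) s = 0 ∨ rf (y + 1 - c) s = 0) : FF b c m s ε y = 0 := by
  rcases h with h | h <;> simp [FF, piS, h]

/-- the functional as a linear map on polynomials -/
def LLlin (b c : ℚ) (m : ℕ) (η : ℚ → ℚ) : ℚ[X] →ₗ[ℚ] ℚ where
  toFun P := LL b c m η (fun y => P.eval y)
  map_add' P Q := by
    simp only [LL, eval_add, mul_add, dd_add]
  map_smul' a P := by
    simp only [LL, eval_smul, smul_eq_mul, RingHom.id_apply, ← dd_const_mul]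
    exact dd_congr fun y _ => by ring

/-- valuation of the determinant from the valuations of the entries in a monic basis -/
theorem V_DD {p : ℕ} [Fact p.Prime] {b c a1 a2 : ℚ} {m : ℕ} (Q : ℕ → ℚ[X])
    (hQ : ∀ i < 10 * m, (Q i).Monic) (hd : ∀ i < 10 * m, (Q i).natDegree = i) (r : ℕ → ℝ)
    (h : ∀ i < 10 * m, ∀ j < 10 * m,
      V p (LL b c m (etaF a1 a2) (fun y => (Q i).eval y * (Q j).eval y)) (r i + r j)) :
    V p (DD b c a1 a2 m) (2 * ∑ i ∈ range (10 * m), r i) := by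
  have h1 := hank_basis (LLlin b c m (etaF a1 a2)) (10 * m) (fun i => Q i) (fun i => Q i)
    (fun i => hQ i i.2) (fun i => hd i i.2) (fun i => hQ i i.2) (fun i => hd i i.2)
  have h2 : DD b c a1 a2 m = hank (fun l => LLlin b c m (etaF a1 a2) (X ^ l)) (10 * m) := by
    simp [DD, LLlin]
  rw [h2, ← h1, sum_range]
  refine V.det _ (fun i : Fin (10 * m) => r i) fun i j => ?_
  simpa [LLlin] using h i i.2 j j.2

/-- the rising factorial as a monic polynomial -/
noncomputable def rfP (a : ℚ) (N : ℕ) : ℚ[X] := ∏ i ∈ range N, (X + C (a + i))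

theorem rfP_monic (a : ℚ) (N : ℕ) : (rfP a N).Monic :=
  monic_prod_of_monic _ _ fun _ _ => monic_X_add_C _

theorem rfP_natDegree (a : ℚ) (N : ℕ) : (rfP a N).natDegree = N := by
  rw [rfP, natDegree_prod_of_monic _ _ fun _ _ => monic_X_add_C _]
  simp only [natDegree_X_add_C, sum_const, card_range, smul_eq_mul, mul_one]

theorem rfP_eval (a : ℚ) (N : ℕ) (y : ℚ) : (rfP a N).eval y = rf (y + a) N := by
  simp [rfP, rf, eval_prod, add_assoc]

end Pool.Agent.Caab
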