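import Pool.Agent.Lib.MP_caab05_ag.Basis

/-! The predicate `V`, runs and their valuations. -/

namespace Pool.Agent.Caab

open Finset Polynomial

namespace V

variable {p : ℕ}

theorem zero (r : ℝ) : V p 0 r := Or.inl rfl

theorem mono {q : ℚ} {r s : ℝ} (h : V p q r) (hs : s ≤ r) : V p q s :=
  h.imp id fun h => hs.trans h

theorem of_le {q : ℚ} {r : ℝ} (h : r ≤ (padicValRat p q : ℝ)) : V p q r := Or.inr h

theorem of_ne {q : ℚ} {r : ℝ} (h : q ≠ 0 → r ≤ (padicValRat p q : ℝ)) : V p q r := by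
  by_cases hq : q = 0
  · exact Or.inl hq
  · exact Or.inr (h hq)

theorem le {q : ℚ} {r : ℝ} (h : V p q r) (hq : q ≠ 0) : r ≤ (padicValRat p q : ℝ) :=
  h.resolve_left hq

theorem self (q : ℚ) : V p q (padicValRat p q) := Or.inr le_rfl

theorem int (z : ℤ) : V p (z : ℚ) 0 := Or.inr (by rw [padicValRat.of_int]; positivity)

theorem nat (z : ℕ) : V p (z : ℚ) 0 := by simpa using int (p := p) (z : ℤ)

theorem one : V p 1 0 := by simpa using int (p := p) 1

theorem neg {q : ℚ} {r : ℝ} (h : V p q r) : V p (-q) r := by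
  rcases h with h | h
  · exact Or.inl (by simp [h])
  · exact Or.inr (by rwa [padicValRat.neg])

variable [Fact p.Prime]

theorem mul {q q' : ℚ} {r r' : ℝ} (h : V p q r) (h' : V p q' r') : V p (q * q') (r + r') := by
  by_cases hq : q = 0
  · exact Or.inl (by simp [hq])
  by_cases hq' : q' = 0
  · exact Or.inl (by simp [hq'])
  refine Or.inr ?_
  rw [padicValRat.mul hq hq']
  push_cast
  exact add_le_add (h.le hq) (h'.le hq')

theorem mul0 {q q' : ℚ} {r : ℝ} (h : V p q r) (h' : V p q' 0) : V p (q * q') r := by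
  simpa using h.mul h'

theorem zero_mul' {q q' : ℚ} {r : ℝ} (h : V p q 0) (h' : V p q' r) : V p (q * q') r := by
  simpa using h.mul h'

theorem add {q q' : ℚ} {r : ℝ} (h : V p q r) (h' : V p q' r) : V p (q + q') r := by
  by_cases hq : q = 0
  · simpa [hq] using h'
  by_cases hq' : q' = 0
  · simpa [hq'] using h
  refine of_ne fun hs => ?_
  have h1 : ((min (padicValRat p q) (padicValRat p q') : ℤ) : ℝ) ≤ (padicValRat p (q + q') : ℝ) := by
    exact_mod_cast padicValRat.min_le_padicValRat_add hs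
  push_cast at h1
  exact (le_min (h.le hq) (h'.le hq')).trans h1

theorem sub {q q' : ℚ} {r : ℝ} (h : V p q r) (h' : V p q' r) : V p (q - q') r := by
  rw [sub_eq_add_neg]; exact h.add h'.neg

theorem sum {ι : Type*} {s : Finset ι} {f : ι → ℚ} {r : ℝ} (h : ∀ i ∈ s, V p (f i) r) :
    V p (∑ i ∈ s, f i) r :=
  Finset.sum_induction f (fun q => V p q r) (fun _ _ => add) (zero r) h

theorem prod {ι : Type*} {s : Finset ι} {f : ι → ℚ} {r : ι → ℝ} (h : ∀ i ∈ s, V p (f i) (r i)) :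
    V p (∏ i ∈ s, f i) (∑ i ∈ s, r i) := by
  classical
  induction s using Finset.induction_on with
  | empty => simpa using one
  | insert a s ha ih =>
    rw [prod_insert ha, sum_insert ha]
    exact (h a (mem_insert_self _ _)).mul (ih fun i hi => h i (mem_insert_of_mem hi))

theorem prod0 {ι : Type*} {s : Finset ι} {f : ι → ℚ} (h : ∀ i ∈ s, V p (f i) 0) :
    V p (∏ i ∈ s, f i) 0 := by
  simpa using prod (r := fun _ => (0 : ℝ)) h

theorem pow {q : ℚ} {r : ℝ} (h : V p q r) (n : ℕ) : V p (q ^ n) (n * r) := by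
  have := prod (p := p) (s := range n) (f := fun _ => q) (r := fun _ => r) (fun _ _ => h)
  simpa using this

theorem inv {q : ℚ} {s : ℝ} (hs : (padicValRat p q : ℝ) ≤ s) : V p q⁻¹ (-s) :=
  Or.inr (by rw [padicValRat.inv]; push_cast; linarith)

theorem div {q q' : ℚ} {r s : ℝ} (h : V p q r) (hs : (padicValRat p q' : ℝ) ≤ s) :
    V p (q / q') (r - s) := by
  rw [div_eq_mul_inv, sub_eq_add_neg]; exact h.mul (inv hs)

theorem det {n : ℕ} (M : Matrix (Fin n) (Fin n) ℚ) (r : Fin n → ℝ)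
    (h : ∀ i j, V p (M i j) (r i + r j)) : V p M.det (2 * ∑ i, r i) := by
  rw [Matrix.det_apply]
  refine sum fun σ _ => ?_
  have h1 : V p (∏ i, M (σ i) i) (2 * ∑ i, r i) := by
    have := prod (p := p) (s := univ) (f := fun i => M (σ i) i) (r := fun i => r (σ i) + r i)
      (fun i _ => h _ _)
    rw [sum_add_distrib, Equiv.sum_comp σ r] at this
    rwa [two_mul]
  rcases Int.units_eq_one_or (Equiv.Perm.sign σ) with h2 | h2
  · simpa [h2] using h1
  · simpa [h2] using h1.neg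

end V

theorem val_prod {p : ℕ} [Fact p.Prime] {ι : Type*} {s : Finset ι} {f : ι → ℚ}
    (h : ∀ i ∈ s, f i ≠ 0) :
    padicValRat p (∏ i ∈ s, f i) = ∑ i ∈ s, padicValRat p (f i) := by
  classical
  induction s using Finset.induction_on with
  | empty => simp
  | insert a s ha ih =>
    rw [prod_insert ha, sum_insert ha, padicValRat.mul (h a (mem_insert_self _ _))
      (prod_ne_zero_iff.2 fun i hi => h i (mem_insert_of_mem hi)),
      ih fun i hi => h i (mem_insert_of_mem hi)]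

theorem val_rf {p : ℕ} [Fact p.Prime] {a : ℚ} {N : ℕ} (h : rf a N ≠ 0) :
    padicValRat p (rf a N) = rv p a N :=
  val_prod (prod_ne_zero_iff.1 h)

theorem val_prod_erase {p : ℕ} [Fact p.Prime] (Y : Finset ℚ) (y : ℚ) :
    padicValRat p (∏ z ∈ Y.erase y, (y - z)) = ∑ z ∈ Y, padicValRat p (y - z) := by
  rw [val_prod fun z hz => sub_ne_zero.2 (ne_of_mem_erase hz).symm]
  exact Finset.sum_erase _ (by simp)

theorem prod_erase_ne_zero (Y : Finset ℚ) (y : ℚ) : ∏ z ∈ Y.erase y, (y - z) ≠ 0 :=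
  prod_ne_zero_iff.2 fun _ hz => sub_ne_zero.2 (ne_of_mem_erase hz).symm

theorem sum_Sset {M : Type*} [AddCommMonoid M] (a : ℚ) (N : ℕ) (f : ℚ → M) :
    ∑ z ∈ Sset a N, f z = ∑ j ∈ range N, f (a - 1 - j) := by
  rw [Sset, sum_image]
  intro i _ j _ h
  have : (i : ℚ) = j := by simp only at h; linarith
  exact_mod_cast this

theorem prod_Sset {M : Type*} [CommMonoid M] (a : ℚ) (N : ℕ) (f : ℚ → M) :
    ∏ z ∈ Sset a N, f z = ∏ j ∈ range N, f (a - 1 - j) :=
  sum_Sset (M := Additive M) a N f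

theorem mem_Sset {a y : ℚ} {N : ℕ} : y ∈ Sset a N ↔ ∃ j : ℕ, j < N ∧ y = a - 1 - j := by
  simp [Sset, eq_comm]

theorem card_Sset (a : ℚ) (N : ℕ) : (Sset a N).card = N := by
  have := sum_Sset a N (fun _ => (1 : ℕ))
  simpa using this

theorem sum_val_Sset (p : ℕ) (a y : ℚ) (N : ℕ) :
    ∑ z ∈ Sset a N, padicValRat p (y - z) = rv p (y + 1 - a) N := by
  rw [sum_Sset, rv]
  exact sum_congr rfl fun j _ => by congr 1; ring

theorem prod_sub_Sset (a y : ℚ) (N : ℕ) : ∏ z ∈ Sset a N, (y - z) = rf (y + 1 - a) N := by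
  rw [prod_Sset, rf]
  exact prod_congr rfl fun j _ => by ring

theorem disjoint_Sset {a a' : ℚ} (h : ∀ z : ℤ, a - a' ≠ z) (N N' : ℕ) :
    Disjoint (Sset a N) (Sset a' N') := by
  rw [Finset.disjoint_left]
  intro y hy hy'
  obtain ⟨j, -, rfl⟩ := mem_Sset.1 hy
  obtain ⟨j', -, h'⟩ := mem_Sset.1 hy'
  exact h ((j : ℤ) - j') (by push_cast; linarith)

theorem rf_ne_zero {a : ℚ} (h : ∀ z : ℤ, a ≠ z) (N : ℕ) : rf a N ≠ 0 :=
  prod_ne_zero_iff.2 fun i _ hi => h (-(i : ℤ)) (by push_cast; linarith)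

theorem rf_succ {K : Type*} [CommRing K] (a : K) (N : ℕ) : rf a (N + 1) = rf a N * (a + N) :=
  prod_range_succ _ _

theorem rf_succ' {K : Type*} [CommRing K] (a : K) (N : ℕ) : rf a (N + 1) = a * rf (a + 1) N := by
  rw [rf, prod_range_succ', rf, mul_comm]
  simp only [Nat.cast_zero, add_zero, Nat.cast_add, Nat.cast_one]
  congr 1
  exact prod_congr rfl fun i _ => by ring

theorem rf_add {K : Type*} [CommRing K] (a : K) (N M : ℕ) :
    rf a (N + M) = rf a N * rf (a + N) M := by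
  rw [rf, prod_range_add, rf, rf]
  congr 1
  exact prod_congr rfl fun i _ => by push_cast; ring

@[simp] theorem rf_zero {K : Type*} [CommRing K] (a : K) : rf a 0 = 1 := by simp [rf]

/-- number of multiples of `q` in a run of consecutive integers -/
theorem card_dvd_run (q : ℕ) (hq : 0 < q) (t : ℤ) (N : ℕ) :
    (((range N).filter fun i : ℕ => (q : ℤ) ∣ t + i).card : ℤ) = (t + N - 1) / q - (t - 1) / q := by
  induction N with
  | zero => simp
  | succ N ih =>
    rw [range_add_one, filter_insert]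
    have hq' : (0 : ℤ) < q := by exact_mod_cast hq
    have e : t + ((N + 1 : ℕ) : ℤ) - 1 = t + N := by push_cast; ring
    rw [e]
    have h1 := Int.emod_add_mul_ediv (t + N) q
    have h2 := Int.emod_nonneg (t + N) hq'.ne'
    have h3 := Int.emod_lt_of_pos (t + N) hq'
    split_ifs with h
    · rw [card_insert_of_notMem (by simp)]
      push_cast
      rw [ih]
      have h0 : (t + N) % q = 0 := Int.emod_eq_zero_of_dvd h
      have : (t + N - 1) / q = (t + N) / q - 1 := by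
        rw [Int.ediv_eq_iff_of_pos hq']
        constructor <;> nlinarith
      omega
    · rw [ih]
      have h0 : (t + N) % q ≠ 0 := fun h0 => h (Int.dvd_of_emod_eq_zero h0)
      have : (t + N - 1) / q = (t + N) / q := by
        rw [Int.ediv_eq_iff_of_pos hq']
        have : 1 ≤ (t + N) % q := by omega
        constructor <;> nlinarith
      omega

theorem card_dvd_run_bounds (q : ℕ) (hq : 0 < q) (t : ℤ) (N : ℕ) :
    (N : ℝ) / q - 1 ≤ (((range N).filter fun i : ℕ => (q : ℤ) ∣ t + i).card : ℝ) ∧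
      (((range N).filter fun i : ℕ => (q : ℤ) ∣ t + i).card : ℝ) ≤ (N : ℝ) / q + 1 := by
  have h := card_dvd_run q hq t N
  have hq' : (0 : ℤ) < q := by exact_mod_cast hq
  have hqr : (0 : ℝ) < q := by exact_mod_cast hq
  have h1 := Int.emod_add_mul_ediv (t + N - 1) q
  have h2 := Int.emod_nonneg (t + N - 1) hq'.ne'
  have h3 := Int.emod_lt_of_pos (t + N - 1) hq'
  have h4 := Int.emod_add_mul_ediv (t - 1) q
  have h5 := Int.emod_nonneg (t - 1) hq'.ne'
  have h6 := Int.emod_lt_of_pos (t - 1) hq'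
  set c := ((range N).filter fun i : ℕ => (q : ℤ) ∣ t + i).card
  have e : (q : ℤ) * c = N - (t + N - 1) % q + (t - 1) % q := by rw [h]; linarith
  have a1 : (N : ℤ) ≤ (c + 1) * q := by nlinarith
  have a2 : ((c : ℤ) - 1) * q ≤ N := by nlinarith
  have a1' : (N : ℝ) ≤ (c + 1) * q := by exact_mod_cast a1
  have a2' : ((c : ℝ) - 1) * q ≤ N := by exact_mod_cast a2
  constructor
  · rw [sub_le_iff_le_add, div_le_iff₀ hqr]; exact a1'
  · rw [← sub_le_iff_le_add, le_div_iff₀ hqr]; exact a2'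

theorem val_of_mul_eq {p : ℕ} [hp : Fact p.Prime] {d : ℕ} (hd : Nat.Coprime d p) {u : ℚ} {z : ℤ}
    (h : (d : ℚ) * u = z) : padicValRat p u = padicValInt p z := by
  have hd0 : d ≠ 0 := by
    rintro rfl
    exact hp.out.ne_one (by simpa using hd)
  by_cases hu : u = 0
  · have : z = 0 := by rw [hu, mul_zero] at h; exact_mod_cast h.symm
    simp [hu, this]
  have h1 : padicValRat p (d : ℚ) = 0 := by
    rw [padicValRat.of_nat, padicValNat.eq_zero_of_not_dvd
      ((Nat.Prime.coprime_iff_not_dvd hp.out).1 hd.symm)]; rfl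
  have := padicValRat.mul (p := p) (q := (d : ℚ)) (by exact_mod_cast hd0) hu
  rw [h, h1, zero_add, padicValRat.of_int] at this
  exact this.symm

theorem valInt_le_card {p : ℕ} [hp : Fact p.Prime] (z : ℤ) (L : ℕ) (hz : |z| < (p : ℤ) ^ (L + 1)) :
    padicValInt p z ≤ ((Icc 1 L).filter fun e : ℕ => (p : ℤ) ^ e ∣ z).card := by
  by_cases h0 : z = 0
  · simp [h0]
  have hv : padicValInt p z ≤ L := by
    by_contra hc
    have h1 : (p : ℤ) ^ (L + 1) ∣ z := (padicValInt_dvd_iff _ _).2 (Or.inr (by omega))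
    have := Int.le_of_dvd (abs_pos.2 h0) ((dvd_abs _ _).2 h1)
    omega
  have : Icc 1 (padicValInt p z) ⊆ (Icc 1 L).filter fun e : ℕ => (p : ℤ) ^ e ∣ z := by
    intro e he
    rw [mem_Icc] at he
    exact mem_filter.2 ⟨mem_Icc.2 ⟨he.1, he.2.trans hv⟩, (padicValInt_dvd_iff _ _).2 (Or.inr he.2)⟩
  simpa using card_le_card this

theorem card_le_valInt {p : ℕ} [hp : Fact p.Prime] (z : ℤ) (L : ℕ) (hz : z ≠ 0) :
    ((Icc 1 L).filter fun e : ℕ => (p : ℤ) ^ e ∣ z).card ≤ padicValInt p z := by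
  have : ((Icc 1 L).filter fun e : ℕ => (p : ℤ) ^ e ∣ z) ⊆ Icc 1 (padicValInt p z) := by
    intro e he
    rw [mem_filter, mem_Icc] at he
    exact mem_Icc.2 ⟨he.1.1, ((padicValInt_dvd_iff _ _).1 he.2).resolve_left hz⟩
  simpa using card_le_card this

theorem exists_shift {d q : ℕ} (h : Nat.Coprime d q) (a : ℤ) :
    ∃ α : ℤ, ∀ i : ℤ, (q : ℤ) ∣ a + d * i ↔ (q : ℤ) ∣ α + i := by
  have hc : IsCoprime (d : ℤ) (q : ℤ) := Nat.isCoprime_iff_coprime.2 h
  obtain ⟨u, w, huw⟩ := hc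
  refine ⟨u * a, fun i => ⟨fun h1 => ?_, fun h1 => ?_⟩⟩
  · have : u * a + i = u * (a + d * i) + q * (w * i) := by linear_combination (-i) * huw
    rw [this]; exact dvd_add (h1.mul_left _) (dvd_mul_right _ _)
  · have : a + d * i = d * (u * a + i) + q * (w * a) := by linear_combination (-a) * huw
    rw [this]; exact dvd_add (h1.mul_left _) (dvd_mul_right _ _)

theorem sum_inv_pow (p : ℕ) (hp : 2 ≤ p) (L : ℕ) :
    ∑ e ∈ Icc 1 L, (1 : ℝ) / (p : ℝ) ^ e = (1 - 1 / (p : ℝ) ^ L) / ((p : ℝ) - 1) := by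
  have h2 : (2 : ℝ) ≤ p := by exact_mod_cast hp
  have h1 : (p : ℝ) - 1 ≠ 0 := by linarith
  have h0 : (p : ℝ) ≠ 0 := by linarith
  induction L with
  | zero => simp
  | succ L ih =>
    rw [sum_Icc_succ_top (by omega), ih]
    field_simp
    ring

theorem sum_card_swap (p : ℕ) (z : ℕ → ℤ) (N L : ℕ) :
    ∑ i ∈ range N, (((Icc 1 L).filter fun e : ℕ => (p : ℤ) ^ e ∣ z i).card : ℝ) =
      ∑ e ∈ Icc 1 L, (((range N).filter fun i : ℕ => (p : ℤ) ^ e ∣ z i).card : ℝ) := by
  simp only [card_filter]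
  push_cast
  exact sum_comm

/-- upper bound for the valuation of a run (vanishing factors allowed) -/
theorem rv_le {p : ℕ} [hp : Fact p.Prime] {d : ℕ} (hd : Nat.Coprime d p) {a : ℚ} {a' : ℤ}
    (ha : (d : ℚ) * a = a') (N L : ℕ) (hL : ∀ i < N, |a' + d * (i : ℕ)| < (p : ℤ) ^ (L + 1)) :
    (rv p a N : ℝ) ≤ N / ((p : ℝ) - 1) + L := by
  have h2 : (2 : ℝ) ≤ p := by exact_mod_cast hp.out.two_le
  have h1 : (rv p a N : ℝ) ≤
      ∑ i ∈ range N, (((Icc 1 L).filter fun e : ℕ => (p : ℤ) ^ e ∣ a' + d * (i : ℕ)).card : ℝ) := by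
    rw [rv]; push_cast
    refine sum_le_sum fun i hi => ?_
    rw [val_of_mul_eq hd (z := a' + d * (i : ℕ)) (by push_cast; rw [← ha]; ring)]
    exact_mod_cast valInt_le_card _ L (hL i (mem_range.1 hi))
  rw [sum_card_swap] at h1
  have h3 : ∀ e ∈ Icc 1 L, (((range N).filter fun i : ℕ => (p : ℤ) ^ e ∣ a' + d * (i : ℕ)).card : ℝ)
      ≤ N * (1 / (p : ℝ) ^ e) + 1 := by
    intro e _
    obtain ⟨α, hα⟩ := exists_shift (hd.pow_right e) a'
    have := (card_dvd_run_bounds (p ^ e) (pow_pos hp.out.pos e) α N).2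
    push_cast at this hα
    simp only [hα]
    rwa [mul_one_div]
  have h4 := h1.trans (sum_le_sum h3)
  rw [sum_add_distrib, ← mul_sum, sum_inv_pow p hp.out.two_le] at h4
  simp only [sum_const, Nat.card_Icc, add_tsub_cancel_right, nsmul_eq_mul, mul_one] at h4
  refine h4.trans (add_le_add_left ?_ _)
  rw [← mul_div_assoc]
  refine div_le_div_of_nonneg_right ?_ (by linarith)
  have : (0 : ℝ) ≤ 1 / (p : ℝ) ^ L := by positivity
  have : (0 : ℝ) ≤ N := by positivity
  nlinarith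

/-- lower bound for the valuation of a run without vanishing factor -/
theorem rv_ge {p : ℕ} [hp : Fact p.Prime] {d : ℕ} (hd : Nat.Coprime d p) {a : ℚ} {a' : ℤ}
    (ha : (d : ℚ) * a = a') (N L : ℕ) (hN : N ≤ p ^ (L + 1)) (hne : rf a N ≠ 0) :
    N / ((p : ℝ) - 1) - L - 2 ≤ (rv p a N : ℝ) := by
  have h2 : (2 : ℝ) ≤ p := by exact_mod_cast hp.out.two_le
  have hd0 : (d : ℚ) ≠ 0 := by
    have : d ≠ 0 := by
      rintro rfl
      exact hp.out.ne_one (by simpa using hd)
    exact_mod_cast this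
  have h1 : ∑ i ∈ range N, (((Icc 1 L).filter fun e : ℕ => (p : ℤ) ^ e ∣ a' + d * (i : ℕ)).card : ℝ)
      ≤ (rv p a N : ℝ) := by
    rw [rv]; push_cast
    refine sum_le_sum fun i hi => ?_
    have e : (d : ℚ) * (a + i) = ((a' + d * (i : ℕ) : ℤ) : ℚ) := by push_cast; rw [← ha]; ring
    rw [val_of_mul_eq hd e]
    have hz : a' + d * (i : ℕ) ≠ 0 := by
      intro h0
      rw [h0] at e
      exact (mul_ne_zero hd0 (prod_ne_zero_iff.1 hne i hi)) (by simpa using e)
    exact_mod_cast card_le_valInt _ L hz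
  rw [sum_card_swap] at h1
  have h3 : ∀ e ∈ Icc 1 L, N * (1 / (p : ℝ) ^ e) - 1 ≤
      (((range N).filter fun i : ℕ => (p : ℤ) ^ e ∣ a' + d * (i : ℕ)).card : ℝ) := by
    intro e _
    obtain ⟨α, hα⟩ := exists_shift (hd.pow_right e) a'
    have := (card_dvd_run_bounds (p ^ e) (pow_pos hp.out.pos e) α N).1
    push_cast at this hα
    simp only [hα]
    rwa [mul_one_div]
  have h4 := (sum_le_sum h3).trans h1
  rw [sum_sub_distrib, ← mul_sum, sum_inv_pow p hp.out.two_le] at h4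
  simp only [sum_const, Nat.card_Icc, add_tsub_cancel_right, nsmul_eq_mul, mul_one] at h4
  refine le_trans ?_ h4
  have hN' : (N : ℝ) ≤ (p : ℝ) ^ (L + 1) := by exact_mod_cast hN
  have hpL : (0 : ℝ) < (p : ℝ) ^ L := by positivity
  have h5 : (N : ℝ) * (1 / (p : ℝ) ^ L) ≤ 2 * ((p : ℝ) - 1) := by
    rw [mul_one_div, div_le_iff₀ hpL]
    rw [pow_succ] at hN'
    nlinarith
  have h6 : (N : ℝ) * (1 / (p : ℝ) ^ L) / ((p : ℝ) - 1) ≤ 2 := by
    rw [div_le_iff₀ (by linarith)]; exact h5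
  have h7 : (N : ℝ) * ((1 - 1 / (p : ℝ) ^ L) / ((p : ℝ) - 1)) =
      N / ((p : ℝ) - 1) - (N : ℝ) * (1 / (p : ℝ) ^ L) / ((p : ℝ) - 1) := by ring
  linarith

end Pool.Agent.Caab
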